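import Pool.Agent.T9h55.VM.Norm

/-!
The mean square of the truncated Ramanujan expansion: the main theorem.
-/

open Finset

namespace Pool.Agent.T9h55.VM

lemma Err_bound (A : ℕ) (κ : ℝ) (hκ : 0 < κ) : ∃ N0 : ℕ, ∀ N : ℕ, N0 ≤ N → ∀ Q R d y : ℕ,
    R ≤ N → 1 ≤ d → (N : ℝ) ^ κ ≤ y → y ≤ N →
    |Err Q R d y| ≤ tau d ^ 3 * (y / (Real.log N) ^ A) * (1 + Real.log R) ^ 8 := by
  obtain ⟨N0, hN0⟩ := PF A κ hκ
  refine ⟨max N0 3, fun N hN Q R d y hR hd hy hyN => ?_⟩
  have hN0' : N0 ≤ N := (le_max_left _ _).trans hN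
  have hN3 : 3 ≤ N := (le_max_right _ _).trans hN
  have hLg : 0 < Real.log N := Real.log_pos (by exact_mod_cast (by omega : 1 < N))
  set Y : ℝ := y / (Real.log N) ^ A with hY
  have hY0 : 0 ≤ Y := by positivity
  unfold Err
  refine (abs_sum_le_sum_abs _ _).trans ?_
  have h1 : ∀ g ∈ d.divisors, |∑ r ∈ (Icc 1 R).filter (fun r => Squarefree r ∧ r.Coprime d),
      mu g * (1 / ph r) * ∑ e ∈ Ioc (Q / (g * r)) (R / (g * r)), ge (d * r) y e| ≤
      w4 d * Y * (1 + Real.log R) ^ 8 := by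
    intro g _
    refine (abs_sum_le_sum_abs _ _).trans ?_
    have h2 : ∀ r ∈ (Icc 1 R).filter (fun r => Squarefree r ∧ r.Coprime d),
        |mu g * (1 / ph r) * ∑ e ∈ Ioc (Q / (g * r)) (R / (g * r)), ge (d * r) y e| ≤
        w4 d * Y * (w4 r / ph r) := by
      intro r hr
      rw [mem_filter, mem_Icc] at hr
      have hp := ph_pos hr.1.1
      have h3 := hN0 N hN0' y hy hyN (d * r) (Nat.mul_pos hd hr.1.1) (Q / (g * r)) (R / (g * r))
        ((Nat.div_le_self _ _).trans hR)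
      have h4 : w4 (d * r) ≤ w4 d * w4 r := w4_mul (by omega) (by omega)
      have h5 : |mu g * (1 / ph r)| ≤ 1 / ph r := by
        rw [abs_mul, abs_of_pos (by positivity : 0 < 1 / ph r)]
        exact mul_le_of_le_one_left (by positivity) (mu_abs g)
      rw [abs_mul]
      calc |mu g * (1 / ph r)| * |∑ e ∈ Ioc (Q / (g * r)) (R / (g * r)), ge (d * r) y e|
          ≤ (1 / ph r) * (w4 d * w4 r * Y) := by
            apply mul_le_mul h5 _ (abs_nonneg _) (by positivity)
            refine h3.trans ?_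
            exact mul_le_mul_of_nonneg_right h4 hY0
        _ = w4 d * Y * (w4 r / ph r) := by ring
    refine (sum_le_sum h2).trans ?_
    rw [← mul_sum]
    have hw := w4_pos d
    apply mul_le_mul_of_nonneg_left _ (by positivity)
    refine le_trans ?_ (sum_w4_ph R)
    apply sum_le_sum_of_subset_of_nonneg (filter_subset _ _)
    intro r _ _
    exact div_nonneg (w4_pos r).le (ph_nonneg r)
  refine (sum_le_sum h1).trans ?_
  rw [sum_const, nsmul_eq_mul]
  have hL : 0 ≤ (1 + Real.log R) ^ 8 := by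
    have := Real.log_natCast_nonneg R
    positivity
  have h2 := w4_le hd
  calc (d.divisors.card : ℝ) * (w4 d * Y * (1 + Real.log R) ^ 8)
      = tau d * w4 d * Y * (1 + Real.log R) ^ 8 := by unfold tau; ring
    _ ≤ tau d * tau d ^ 2 * Y * (1 + Real.log R) ^ 8 := by
        have := tau_nonneg d
        gcongr
    _ = tau d ^ 3 * Y * (1 + Real.log R) ^ 8 := by ring

/-- sum of the Moebius function over the moduli dividing `d` -/
noncomputable def md (Q R d : ℕ) : ℝ := ∑ q ∈ (H343.Mod Q R).filter (fun q => q ∣ d), mu q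

lemma md_abs (Q R d : ℕ) (hd : 1 ≤ d) : |md Q R d| ≤ tau d := by
  unfold md
  refine (abs_sum_le_sum_abs _ _).trans ?_
  refine (sum_le_sum (g := fun _ => (1 : ℝ)) fun q _ => mu_abs q).trans ?_
  rw [sum_const, nsmul_eq_mul, mul_one]
  unfold tau
  have : (H343.Mod Q R).filter (fun q => q ∣ d) ⊆ d.divisors := by
    intro q hq
    rw [mem_filter] at hq
    rw [Nat.mem_divisors]
    exact ⟨hq.2, by omega⟩
  exact_mod_cast card_le_card this

lemma inner_mu (R q q2 : ℕ) (hq : 1 ≤ q) (hqR : q ≤ R) (hq2 : 1 ≤ q2) :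
    ∑ d ∈ (Icc 1 R).filter (fun d => d ∣ q ∧ q2 ∣ d), mu (q / d) = if q2 = q then 1 else 0 := by
  by_cases h : q2 ∣ q
  · obtain ⟨t, ht⟩ := h
    have ht1 : 1 ≤ t := by
      rcases Nat.eq_zero_or_pos t with h0 | h0
      · subst h0
        omega
      · exact h0
    have h1 : ∑ d ∈ (Icc 1 R).filter (fun d => d ∣ q ∧ q2 ∣ d), mu (q / d) =
        ∑ s ∈ t.divisors, mu (t / s) := by
      refine sum_bij' (fun d _ => d / q2) (fun s _ => q2 * s) ?_ ?_ ?_ ?_ ?_
      · intro d hd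
        rw [mem_filter, mem_Icc] at hd
        obtain ⟨⟨h1, h2⟩, h3, h4⟩ := hd
        rw [Nat.mem_divisors]
        refine ⟨?_, by omega⟩
        obtain ⟨c, hc⟩ := h4
        rw [hc, Nat.mul_div_cancel_left _ hq2]
        rw [hc, ht] at h3
        exact Nat.dvd_of_mul_dvd_mul_left hq2 h3
      · intro s hs
        rw [Nat.mem_divisors] at hs
        rw [mem_filter, mem_Icc]
        have hs1 : 1 ≤ s := Nat.pos_of_dvd_of_pos hs.1 ht1
        have h2 : q2 * s ∣ q := by
          rw [ht]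
          exact Nat.mul_dvd_mul_left q2 hs.1
        exact ⟨⟨Nat.mul_pos hq2 hs1, (Nat.le_of_dvd hq h2).trans hqR⟩, h2, Dvd.intro s rfl⟩
      · intro d hd
        rw [mem_filter] at hd
        exact Nat.mul_div_cancel' hd.2.2
      · intro s _
        exact Nat.mul_div_cancel_left s hq2
      · intro d hd
        rw [mem_filter] at hd
        obtain ⟨_, _, h4⟩ := hd
        obtain ⟨c, hc⟩ := h4
        rw [hc, Nat.mul_div_cancel_left _ hq2, ht, Nat.mul_div_mul_left _ _ hq2]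
    rw [h1, sum_mu_div t ht1]
    congr 1
    apply propext
    constructor
    · intro h2
      rw [ht, h2, mul_one]
    · intro h2
      rw [ht] at h2
      exact Nat.eq_of_mul_eq_mul_left hq2 (by omega)
  · rw [filter_false_of_mem, sum_empty, if_neg]
    · intro h1
      exact h (by rw [h1])
    · intro d _ hd
      exact h (hd.2.trans hd.1)

lemma main_eq (Q R : ℕ) : ∑ d ∈ Icc 1 R, lam Q R d / d * md Q R d = H343.LL Q R := by
  have h1 : ∀ d ∈ Icc 1 R, lam Q R d / d * md Q R d =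
      ∑ q ∈ H343.Mod Q R, ∑ q2 ∈ H343.Mod Q R,
        (if d ∣ q ∧ q2 ∣ d then mu q / ph q * mu q2 * mu (q / d) else 0) := by
    intro d hd
    rw [mem_Icc] at hd
    have hd0 : (d : ℝ) ≠ 0 := by
      have : (0 : ℝ) < d := by exact_mod_cast hd.1
      exact this.ne'
    unfold lam md
    rw [mul_div_cancel_left₀ _ hd0, sum_filter, sum_filter, sum_mul_sum]
    refine sum_congr rfl fun q _ => sum_congr rfl fun q2 _ => ?_
    by_cases h2 : d ∣ q
    · by_cases h3 : q2 ∣ d
      · rw [if_pos h2, if_pos h3, if_pos ⟨h2, h3⟩]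
        ring
      · rw [if_neg h3, mul_zero, if_neg (fun h : d ∣ q ∧ q2 ∣ d => h3 h.2)]
    · rw [if_neg h2, zero_mul, if_neg (fun h : d ∣ q ∧ q2 ∣ d => h2 h.1)]
  rw [sum_congr rfl h1, sum_comm]
  unfold H343.LL
  refine sum_congr rfl fun q hq => ?_
  rw [sum_comm]
  have hq1 := mem_Mod.1 hq
  have h2 : ∀ q2 ∈ H343.Mod Q R, ∑ d ∈ Icc 1 R,
      (if d ∣ q ∧ q2 ∣ d then mu q / ph q * mu q2 * mu (q / d) else 0) =
      if q2 = q then mu q / ph q * mu q2 else 0 := by
    intro q2 hq2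
    rw [← sum_filter, ← mul_sum, inner_mu R q q2 (mem_Mod_one hq) hq1.1.2 (mem_Mod_one hq2)]
    split_ifs
    · rw [mul_one]
    · rw [mul_zero]
  rw [sum_congr rfl h2, sum_ite_eq', if_pos hq]
  have h3 := mu_sq hq1.2
  calc mu q / ph q * mu q = mu q ^ 2 / ph q := by ring
    _ = 1 / (Nat.totient q : ℝ) := by rw [h3]; rfl

lemma sq_decomp (Q R N : ℕ) : ∑ m ∈ Icc 1 N, ff Q R m ^ 2 =
    ∑ d ∈ Icc 1 R, lam Q R d * ∑ l ∈ Icc 1 (N / d), ff Q R (d * l) := by
  have h1 : ∀ m ∈ Icc 1 N, ff Q R m ^ 2 =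
      ∑ d ∈ Icc 1 R, (if d ∣ m then lam Q R d * ff Q R m else 0) := by
    intro m _
    rw [sq]
    nth_rw 1 [ff_eq]
    rw [sum_filter, sum_mul]
    refine sum_congr rfl fun d _ => ?_
    split_ifs
    · rfl
    · rw [zero_mul]
  rw [sum_congr rfl h1, sum_comm]
  refine sum_congr rfl fun d hd => ?_
  rw [mem_Icc] at hd
  rw [← sum_filter, sum_mult d N hd.1 (fun m => lam Q R d * ff Q R m), mul_sum]

/-- the mean square of the truncated Ramanujan expansion -/
theorem norm_bound (κ η : ℝ) (hκ : 0 < κ) (hη : 0 < η) : ∃ N0 : ℕ, ∀ N : ℕ, N0 ≤ N →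
    ∀ Q R : ℕ, (R : ℝ) ≤ (N : ℝ) ^ (1 - 2 * κ) →
    ∑ m ∈ Icc 1 N, ff Q R m ^ 2 ≤ N * (H343.LL Q R + η) := by
  obtain ⟨N0, hN0⟩ := Err_bound 27 κ hκ
  have hev1 := grow 6 (2 ^ 6 * (2 / η)) (2 * κ) (by positivity)
  have hev2 := log_large (1 + 2 ^ 26 * (2 / η))
  have hev3 : ∀ᶠ N : ℕ in Filter.atTop, (2 : ℝ) ≤ (N : ℝ) ^ κ :=
    ((tendsto_rpow_atTop hκ).comp tendsto_natCast_atTop_atTop).eventually_ge_atTop _
  obtain ⟨N1, hN1⟩ := Filter.eventually_atTop.1 ((hev1.and hev2).and hev3)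
  refine ⟨max N0 (max N1 3), fun N hN Q R hR => ?_⟩
  have hNN0 : N0 ≤ N := (le_max_left _ _).trans hN
  obtain ⟨⟨g1, g2⟩, g3⟩ := hN1 N (((le_max_left _ _).trans (le_max_right _ _)).trans hN)
  have hN3 : 3 ≤ N := ((le_max_right _ _).trans (le_max_right _ _)).trans hN
  have hNr : (0 : ℝ) < N := by exact_mod_cast (by omega : 0 < N)
  have hNr1 : (1 : ℝ) ≤ N := by exact_mod_cast (by omega : 1 ≤ N)
  set Lg : ℝ := Real.log N with hLg
  have hLg0 : 1 ≤ Lg := by
    have : 0 ≤ (2 : ℝ) ^ 26 * (2 / η) := by positivity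
    linarith
  have hRN : R ≤ N := by
    have h1 : (R : ℝ) ≤ N := by
      refine hR.trans ?_
      calc (N : ℝ) ^ (1 - 2 * κ) ≤ (N : ℝ) ^ (1 : ℝ) :=
            Real.rpow_le_rpow_of_exponent_le hNr1 (by linarith)
        _ = N := Real.rpow_one _
    exact_mod_cast h1
  have hlR : 1 + Real.log R ≤ 2 * Lg := by
    have : Real.log R ≤ Lg := by
      rcases Nat.eq_zero_or_pos R with h0 | h0
      · subst h0
        simp only [CharP.cast_eq_zero, Real.log_zero]
        linarith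
      · apply Real.log_le_log (by exact_mod_cast h0)
        exact_mod_cast hRN
    linarith
  have hlR0 : 0 ≤ 1 + Real.log R := by
    have := Real.log_natCast_nonneg R
    linarith
  rw [sq_decomp]
  -- each term
  have hterm : ∀ d ∈ Icc 1 R, lam Q R d * ∑ l ∈ Icc 1 (N / d), ff Q R (d * l) ≤
      N * (lam Q R d / d * md Q R d) + (R * (1 + Real.log R) ^ 2) * (tau d ^ 2 / d) +
        (N / Lg ^ 27 * (1 + Real.log R) ^ 10) * (tau d ^ 4 / d) := by
    intro d hd
    rw [mem_Icc] at hd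
    have hd0 : (0 : ℝ) < d := by exact_mod_cast hd.1
    have hdR : (d : ℝ) ≤ R := by exact_mod_cast hd.2
    have ht := tau_nonneg d
    by_cases hsq : Squarefree d
    · rw [sum_ff_mult Q R d (N / d) hsq]
      have hyd : (N : ℝ) ^ κ ≤ ((N / d : ℕ) : ℝ) := by
        have h1 : (N : ℝ) ^ (2 * κ) ≤ (N : ℝ) / d := by
          rw [le_div_iff₀ hd0]
          calc (N : ℝ) ^ (2 * κ) * d ≤ (N : ℝ) ^ (2 * κ) * (N : ℝ) ^ (1 - 2 * κ) := by
                gcongr
                exact hdR.trans hR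
            _ = N := by
                rw [← Real.rpow_add hNr]
                have : 2 * κ + (1 - 2 * κ) = 1 := by ring
                rw [this, Real.rpow_one]
        have h2 : (N : ℝ) / d < ((N / d : ℕ) : ℝ) + 1 := by
          have h3 := Nat.lt_div_mul_add (a := N) (b := d) hd.1
          rw [div_lt_iff₀ hd0]
          have h4 : (N : ℝ) < ((N / d : ℕ) : ℝ) * d + d := by exact_mod_cast h3
          linarith
        have h3 : (N : ℝ) ^ (2 * κ) = (N : ℝ) ^ κ * (N : ℝ) ^ κ := by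
          rw [← Real.rpow_add hNr]
          congr 1
          ring
        nlinarith
      have hE := hN0 N hNN0 Q R d (N / d) hRN hd.1 hyd (Nat.div_le_self _ _)
      have hl := lam_abs Q R d hd.1
      have hm := md_abs Q R d hd.1
      have hmod : ((N % d : ℕ) : ℝ) + (d : ℝ) * ((N / d : ℕ) : ℝ) = N := by
        exact_mod_cast Nat.mod_add_div N d
      have hmodlt : ((N % d : ℕ) : ℝ) ≤ d := by
        exact_mod_cast (Nat.mod_lt N (by omega : d > 0)).le
      have e1 : lam Q R d * (((N / d : ℕ) : ℝ) *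
          ∑ q ∈ (H343.Mod Q R).filter (fun q => q ∣ d), mu q - Err Q R d (N / d)) =
          N * (lam Q R d / d * md Q R d) - lam Q R d * md Q R d * (((N % d : ℕ) : ℝ) / d) -
            lam Q R d * Err Q R d (N / d) := by
        have e2 : ∑ q ∈ (H343.Mod Q R).filter (fun q => q ∣ d), mu q = md Q R d := rfl
        have e3 : ((N / d : ℕ) : ℝ) = (N - ((N % d : ℕ) : ℝ)) / d := by
          field_simp
          linarith
        rw [e2, e3]
        field_simp
      rw [e1]
      have b1 : -(lam Q R d * md Q R d * (((N % d : ℕ) : ℝ) / d)) ≤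
          (R * (1 + Real.log R) ^ 2) * (tau d ^ 2 / d) := by
        refine (neg_le_abs _).trans ?_
        rw [abs_mul, abs_mul, abs_of_nonneg (by positivity : 0 ≤ ((N % d : ℕ) : ℝ) / d)]
        have h1 : ((N % d : ℕ) : ℝ) / d ≤ 1 := by
          rw [div_le_one hd0]
          exact hmodlt
        calc |lam Q R d| * |md Q R d| * (((N % d : ℕ) : ℝ) / d)
            ≤ (tau d * (1 + Real.log R) ^ 2) * tau d * 1 := by gcongr
          _ = (d * (1 + Real.log R) ^ 2) * (tau d ^ 2 / d) := by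
              field_simp
          _ ≤ (R * (1 + Real.log R) ^ 2) * (tau d ^ 2 / d) := by gcongr
      have b2 : -(lam Q R d * Err Q R d (N / d)) ≤
          (N / Lg ^ 27 * (1 + Real.log R) ^ 10) * (tau d ^ 4 / d) := by
        refine (neg_le_abs _).trans ?_
        rw [abs_mul]
        have h1 : ((N / d : ℕ) : ℝ) ≤ (N : ℝ) / d := Nat.cast_div_le
        calc |lam Q R d| * |Err Q R d (N / d)|
            ≤ (tau d * (1 + Real.log R) ^ 2) *
              (tau d ^ 3 * (((N / d : ℕ) : ℝ) / Lg ^ 27) * (1 + Real.log R) ^ 8) := by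
              gcongr
          _ ≤ (tau d * (1 + Real.log R) ^ 2) *
              (tau d ^ 3 * (((N : ℝ) / d) / Lg ^ 27) * (1 + Real.log R) ^ 8) := by
              gcongr
          _ = (N / Lg ^ 27 * (1 + Real.log R) ^ 10) * (tau d ^ 4 / d) := by
              field_simp
      linarith
    · rw [lam_of_not_sq hsq]
      simp only [zero_mul, zero_div, mul_zero, zero_add]
      positivity
  refine (sum_le_sum hterm).trans ?_
  rw [sum_add_distrib, sum_add_distrib, ← mul_sum, ← mul_sum, ← mul_sum, main_eq]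
  have t2 := tau_mom 2 R
  have t4 := tau_mom 4 R
  have c1 : (R * (1 + Real.log R) ^ 2) * ∑ d ∈ Icc 1 R, tau d ^ 2 / d ≤ N * (η / 2) := by
    calc (R * (1 + Real.log R) ^ 2) * ∑ d ∈ Icc 1 R, tau d ^ 2 / d
        ≤ (R * (1 + Real.log R) ^ 2) * (1 + Real.log R) ^ (2 ^ 2) := by gcongr
      _ = R * (1 + Real.log R) ^ 6 := by ring
      _ ≤ (N : ℝ) ^ (1 - 2 * κ) * (2 * Lg) ^ 6 := by gcongr
      _ = (N : ℝ) ^ (1 - 2 * κ) * (2 ^ 6 * (2 / η) * Lg ^ 6) * (η / 2) := by
          field_simp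
      _ ≤ (N : ℝ) ^ (1 - 2 * κ) * (N : ℝ) ^ (2 * κ) * (η / 2) := by gcongr
      _ = N * (η / 2) := by
          rw [← Real.rpow_add hNr]
          have : 1 - 2 * κ + 2 * κ = 1 := by ring
          rw [this, Real.rpow_one]
  have c2 : (N / Lg ^ 27 * (1 + Real.log R) ^ 10) * ∑ d ∈ Icc 1 R, tau d ^ 4 / d ≤
      N * (η / 2) := by
    calc (N / Lg ^ 27 * (1 + Real.log R) ^ 10) * ∑ d ∈ Icc 1 R, tau d ^ 4 / d
        ≤ (N / Lg ^ 27 * (1 + Real.log R) ^ 10) * (1 + Real.log R) ^ (2 ^ 4) := by gcongr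
      _ = N / Lg ^ 27 * (1 + Real.log R) ^ 26 := by ring
      _ ≤ N / Lg ^ 27 * (2 * Lg) ^ 26 := by gcongr
      _ = N * (2 ^ 26 * (2 / η) / Lg) * (η / 2) := by
          field_simp
      _ ≤ N * 1 * (η / 2) := by
          gcongr
          rw [div_le_one (by linarith)]
          linarith
      _ = N * (η / 2) := by ring
  linarith

end Pool.Agent.T9h55.VM
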