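import Pool.Agent.T9h55.VM.Bad
import Pool.Agent.T9h55.VM.Norm2

/-!
The lower bound of the variance for a modulus with small off-diagonal parts.
-/

open Finset

namespace Pool.Agent.T9h55.VM

open ArithmeticFunction (vonMangoldt vonMangoldt_nonneg)
open H343 (ex)

/-- sum over a residue class -/
noncomputable def cls (a : ℕ → ℝ) (Z k A : ℕ) : ℝ :=
  ∑ n ∈ (Icc 1 Z).filter (fun n => n ≡ A [MOD k]), a n

/-- the variance over the reduced residue classes -/
noncomputable def GG (X : ℝ) (k : ℕ) : ℝ :=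
  ∑ A ∈ (range k).filter (fun A => A.Coprime k),
    ((∑ n ∈ (Icc 1 ⌊X⌋₊).filter (fun n => n ≡ A [MOD k]), vonMangoldt n)
      - X / Nat.totient k) ^ 2

lemma GG_nonneg (X : ℝ) (k : ℕ) : 0 ≤ GG X k := sum_nonneg fun _ _ => sq_nonneg _

lemma pair_eq (a b : ℕ → ℝ) (Z N k : ℕ) (hk : 1 ≤ k) (hNZ : N ≤ Z) :
    ∑ A ∈ range k, cls a Z k A * cls b N k A = ∑ n ∈ Icc 1 N, a n * b n + off a b Z N k := by
  have h1 : ∀ A ∈ range k, cls a Z k A * cls b N k A =
      ∑ n ∈ Icc 1 Z, ∑ m ∈ Icc 1 N, if A = n % k ∧ m ≡ n [MOD k] then a n * b m else 0 := by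
    intro A hA
    rw [mem_range] at hA
    unfold cls
    rw [sum_filter, sum_filter, sum_mul_sum]
    refine sum_congr rfl fun n _ => sum_congr rfl fun m _ => ?_
    have hA' : n ≡ A [MOD k] ↔ A = n % k := by
      unfold Nat.ModEq
      rw [Nat.mod_eq_of_lt hA]
      exact eq_comm
    by_cases h2 : n ≡ A [MOD k]
    · by_cases h3 : m ≡ A [MOD k]
      · rw [if_pos h2, if_pos h3, if_pos ⟨hA'.1 h2, h3.trans h2.symm⟩]
      · rw [if_neg h3, mul_zero, if_neg (fun h => h3 (h.2.trans h2))]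
    · rw [if_neg h2, zero_mul, if_neg (fun h => h2 (hA'.2 h.1))]
  rw [sum_congr rfl h1, sum_comm]
  have h2 : ∀ n ∈ Icc 1 Z, ∑ A ∈ range k, ∑ m ∈ Icc 1 N,
      (if A = n % k ∧ m ≡ n [MOD k] then a n * b m else 0) =
      ∑ m ∈ Icc 1 N, (if m ≡ n [MOD k] then a n * b m else 0) := by
    intro n _
    rw [sum_comm]
    refine sum_congr rfl fun m _ => ?_
    by_cases h3 : m ≡ n [MOD k]
    · rw [if_pos h3]
      have : ∀ A ∈ range k, (if A = n % k ∧ m ≡ n [MOD k] then a n * b m else 0) =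
          if A = n % k then a n * b m else 0 := by
        intro A _
        simp only [h3, and_true]
      rw [sum_congr rfl this, sum_ite_eq', if_pos (mem_range.2 (Nat.mod_lt n hk))]
    · rw [if_neg h3]
      refine sum_eq_zero fun A _ => ?_
      rw [if_neg (fun h => h3 h.2)]
  rw [sum_congr rfl h2]
  have h3 : ∀ n ∈ Icc 1 Z, ∑ m ∈ Icc 1 N, (if m ≡ n [MOD k] then a n * b m else 0) =
      (if n ∈ Icc 1 N then a n * b n else 0) +
      ∑ m ∈ Icc 1 N, (if m ≠ n ∧ m ≡ n [MOD k] then a n * b m else 0) := by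
    intro n hn
    rw [mem_Icc] at hn
    have h4 : (if n ∈ Icc 1 N then a n * b n else 0) =
        ∑ m ∈ Icc 1 N, (if m = n then a n * b m else 0) := by
      rw [sum_ite_eq']
    rw [h4, ← sum_add_distrib]
    refine sum_congr rfl fun m _ => ?_
    by_cases h5 : m = n
    · subst h5
      rw [if_pos (Nat.ModEq.refl m), if_pos rfl, if_neg (fun h => h.1 rfl), add_zero]
    · by_cases h6 : m ≡ n [MOD k]
      · rw [if_pos h6, if_neg h5, if_pos ⟨h5, h6⟩, zero_add]
      · rw [if_neg h6, if_neg h5, if_neg (fun h => h6 h.2), zero_add]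
  rw [sum_congr rfl h3, sum_add_distrib, ← sum_filter, filter_mem_eq_inter]
  unfold off
  congr 1
  apply sum_congr _ fun _ _ => rfl
  ext x
  rw [mem_inter, mem_Icc, mem_Icc]
  omega

lemma cls_abs (f : ℕ → ℝ) (N k A : ℕ) (hk : 1 ≤ k) (M : ℝ) (hM : ∀ n ∈ Icc 1 N, |f n| ≤ M) :
    |cls f N k A| ≤ ((N / k + 1 : ℕ) : ℝ) * |M| := by
  unfold cls
  refine (abs_sum_le_sum_abs _ _).trans ?_
  refine (sum_le_sum (g := fun _ => |M|) fun n hn => ?_).trans ?_
  · rw [mem_filter] at hn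
    exact (hM n hn.1).trans (le_abs_self _)
  · rw [sum_const, nsmul_eq_mul]
    apply mul_le_mul_of_nonneg_right _ (abs_nonneg _)
    have h1 : ((Icc 1 N).filter (fun n => n ≡ A [MOD k])).card ≤ N / k + 1 := by
      calc ((Icc 1 N).filter (fun n => n ≡ A [MOD k])).card ≤ (range (N / k + 1)).card := by
            apply card_le_card_of_injOn (fun n => n / k)
            · intro n hn
              rw [mem_coe, mem_filter, mem_Icc] at hn
              rw [mem_coe, mem_range]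
              exact Nat.lt_succ_of_le (Nat.div_le_div_right (c := k) hn.1.2)
            · intro n hn m hm h
              rw [mem_coe, mem_filter] at hn hm
              have h2 : n % k = m % k := hn.2.trans hm.2.symm
              simp only at h
              rw [← Nat.div_add_mod n k, ← Nat.div_add_mod m k, h, h2]
        _ = N / k + 1 := card_range _
    exact_mod_cast h1

lemma nc_sum (Z N k : ℕ) (hk : 1 ≤ k) (hZ : 1 ≤ Z) (f : ℕ → ℝ) (M : ℝ)
    (hM : ∀ n ∈ Icc 1 N, |f n| ≤ M) :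
    |∑ A ∈ (range k).filter (fun A => ¬ A.Coprime k), cls vonMangoldt Z k A * cls f N k A| ≤
      ((N / k + 1 : ℕ) : ℝ) * |M| * (tau k * Real.log Z) := by
  refine (abs_sum_le_sum_abs _ _).trans ?_
  have h1 : ∀ A ∈ (range k).filter (fun A => ¬ A.Coprime k),
      |cls vonMangoldt Z k A * cls f N k A| ≤
        ((N / k + 1 : ℕ) : ℝ) * |M| * cls vonMangoldt Z k A := by
    intro A _
    have h0 : 0 ≤ cls vonMangoldt Z k A := sum_nonneg fun _ _ => vonMangoldt_nonneg
    rw [abs_mul, abs_of_nonneg h0, mul_comm]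
    exact mul_le_mul_of_nonneg_right (cls_abs f N k A hk M hM) h0
  refine (sum_le_sum h1).trans ?_
  rw [← mul_sum]
  apply mul_le_mul_of_nonneg_left _ (by positivity)
  refine le_trans ?_ (H343.sum_not_coprime k Z hk hZ)
  unfold cls
  simp only [sum_filter]
  rw [← sum_filter, sum_comm]
  refine sum_le_sum fun n _ => ?_
  have h2 : ∀ A ∈ (range k).filter (fun A => ¬ A.Coprime k),
      (if n ≡ A [MOD k] then vonMangoldt n else 0) =
      if A = n % k then vonMangoldt n else 0 := by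
    intro A hA
    rw [mem_filter, mem_range] at hA
    have hA' : n ≡ A [MOD k] ↔ A = n % k := by
      unfold Nat.ModEq
      rw [Nat.mod_eq_of_lt hA.1]
      exact eq_comm
    simp only [hA']
  rw [sum_congr rfl h2, sum_ite_eq']
  have h3 : n % k ∈ (range k).filter (fun A => ¬ A.Coprime k) ↔ ¬ n.Coprime k := by
    rw [mem_filter, mem_range, Nat.Coprime, ← Nat.gcd_rec, Nat.gcd_comm]
    exact ⟨fun h => h.2, fun h => ⟨Nat.mod_lt n hk, h⟩⟩
  simp only [h3]
  exact le_rfl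

lemma dvd_sum (f : ℕ → ℝ) (N j : ℕ) (hj : 1 ≤ j) (B : ℝ) (hB : ∀ t : ℝ, ‖es N f t‖ ≤ B) :
    |∑ m ∈ (Icc 1 N).filter (fun m => j ∣ m), f m| ≤ B := by
  have hj0 : (0 : ℝ) < j := by exact_mod_cast hj
  have h1 : ∑ b ∈ range j, es N f ((b : ℝ) / j) =
      (j : ℂ) * ((∑ m ∈ (Icc 1 N).filter (fun m => j ∣ m), f m : ℝ) : ℂ) := by
    unfold es
    rw [sum_comm, sum_filter]
    push_cast
    rw [mul_sum]
    refine sum_congr rfl fun m _ => ?_
    rw [← mul_sum]
    have h2 : ∑ b ∈ range j, ex ((b : ℝ) / j * m) = ∑ b ∈ range j, ex ((b : ℝ) * (m : ℤ) / j) := by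
      refine sum_congr rfl fun b _ => ?_
      congr 1
      push_cast
      ring
    rw [h2, H336V.RamanAux.geom j hj]
    have h3 : (j : ℤ) ∣ (m : ℤ) ↔ j ∣ m := Int.natCast_dvd_natCast
    simp only [h3]
    split_ifs
    · ring
    · simp
  have h2 : ‖∑ b ∈ range j, es N f ((b : ℝ) / j)‖ ≤ j * B := by
    refine (norm_sum_le _ _).trans ?_
    refine (sum_le_sum fun b _ => hB _).trans ?_
    rw [sum_const, card_range, nsmul_eq_mul]
  rw [h1, norm_mul, Complex.norm_natCast, Complex.norm_real, Real.norm_eq_abs] at h2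
  exact le_of_mul_le_mul_left h2 hj0

lemma cop_sum (f : ℕ → ℝ) (N k : ℕ) (hk : 1 ≤ k) (B : ℝ) (hB : ∀ t : ℝ, ‖es N f t‖ ≤ B) :
    |∑ A ∈ (range k).filter (fun A => A.Coprime k), cls f N k A| ≤ tau k * B := by
  have h1 : ∑ A ∈ (range k).filter (fun A => A.Coprime k), cls f N k A =
      ∑ m ∈ (Icc 1 N).filter (fun m => m.Coprime k), f m := by
    unfold cls
    simp only [sum_filter]
    rw [← sum_filter, sum_comm]
    refine sum_congr rfl fun n _ => ?_
    have h2 : ∀ A ∈ (range k).filter (fun A => A.Coprime k),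
        (if n ≡ A [MOD k] then f n else 0) = if A = n % k then f n else 0 := by
      intro A hA
      rw [mem_filter, mem_range] at hA
      have hA' : n ≡ A [MOD k] ↔ A = n % k := by
        unfold Nat.ModEq
        rw [Nat.mod_eq_of_lt hA.1]
        exact eq_comm
      simp only [hA']
    rw [sum_congr rfl h2, sum_ite_eq']
    have h3 : n % k ∈ (range k).filter (fun A => A.Coprime k) ↔ n.Coprime k := by
      rw [mem_filter, mem_range, Nat.Coprime, ← Nat.gcd_rec, Nat.gcd_comm]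
      exact ⟨fun h => h.2, fun h => ⟨Nat.mod_lt n hk, h⟩⟩
    simp only [h3]
  have h2 : ∑ m ∈ (Icc 1 N).filter (fun m => m.Coprime k), f m =
      ∑ d ∈ k.divisors, mu d * ∑ m ∈ (Icc 1 N).filter (fun m => d ∣ m), f m := by
    rw [H343.sum_coprime k N hk f]
    refine sum_congr rfl fun d hd => ?_
    have hd1 : 1 ≤ d := Nat.pos_of_mem_divisors hd
    rw [sum_mult d N hd1 f]
    rfl
  rw [h1, h2]
  refine (abs_sum_le_sum_abs _ _).trans ?_
  refine (sum_le_sum (g := fun _ => B) fun d hd => ?_).trans ?_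
  · have hd1 : 1 ≤ d := Nat.pos_of_mem_divisors hd
    rw [abs_mul]
    calc |mu d| * |∑ m ∈ (Icc 1 N).filter (fun m => d ∣ m), f m| ≤ 1 * B :=
          mul_le_mul (mu_abs d) (dvd_sum f N d hd1 B hB) (abs_nonneg _) zero_le_one
      _ = B := one_mul B
  · rw [sum_const, nsmul_eq_mul]
    exact le_rfl

/-- lower bound of the variance -/
theorem GG_lower (X : ℝ) (k N Q R : ℕ) (hX : 0 ≤ X) (hk : 1 ≤ k) (hN : 1 ≤ N) (hNX : N ≤ ⌊X⌋₊)
    (B M E1 E2 : ℝ) (hB : ∀ t : ℝ, ‖es N (ff Q R) t‖ ≤ B)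
    (hM : ∀ n ∈ Icc 1 N, |ff Q R n| ≤ M)
    (h1 : |off vonMangoldt (ff Q R) ⌊X⌋₊ N k| ≤ E1)
    (h2 : |off (ff Q R) (ff Q R) N N k| ≤ E2) :
    2 * (∑ n ∈ Icc 1 N, vonMangoldt n * ff Q R n - E1 -
      ((N / k + 1 : ℕ) : ℝ) * |M| * (tau k * Real.log ⌊X⌋₊) -
      X / Nat.totient k * (tau k * B)) - (∑ n ∈ Icc 1 N, ff Q R n ^ 2 + E2) ≤ GG X k := by
  set f := ff Q R with hf
  set c : ℝ := X / Nat.totient k with hc
  have hc0 : 0 ≤ c := by positivity
  have hpt : ∀ A ∈ (range k).filter (fun A => A.Coprime k),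
      2 * (cls vonMangoldt ⌊X⌋₊ k A * cls f N k A) - 2 * c * cls f N k A - cls f N k A ^ 2 ≤
        ((∑ n ∈ (Icc 1 ⌊X⌋₊).filter (fun n => n ≡ A [MOD k]), vonMangoldt n) - c) ^ 2 := by
    intro A _
    have e1 : ∑ n ∈ (Icc 1 ⌊X⌋₊).filter (fun n => n ≡ A [MOD k]), vonMangoldt n =
        cls vonMangoldt ⌊X⌋₊ k A := rfl
    rw [e1]
    nlinarith [sq_nonneg (cls vonMangoldt ⌊X⌋₊ k A - c - cls f N k A)]
  have h3 : ∑ A ∈ (range k).filter (fun A => A.Coprime k),
      (2 * (cls vonMangoldt ⌊X⌋₊ k A * cls f N k A) - 2 * c * cls f N k A - cls f N k A ^ 2) ≤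
        GG X k := sum_le_sum hpt
  rw [sum_sub_distrib, sum_sub_distrib, ← mul_sum, ← mul_sum] at h3
  have h4 := pair_eq vonMangoldt f ⌊X⌋₊ N k hk hNX
  have h5 := pair_eq f f N N k hk le_rfl
  rw [← sum_filter_add_sum_filter_not (range k) (fun A => A.Coprime k)] at h4 h5
  have h6 := nc_sum ⌊X⌋₊ N k hk (hN.trans hNX) f M hM
  have h7 := cop_sum f N k hk B hB
  have h8 : 0 ≤ ∑ A ∈ (range k).filter (fun A => ¬ A.Coprime k), cls f N k A * cls f N k A :=
    sum_nonneg fun A _ => mul_self_nonneg _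
  have h9 : ∑ n ∈ Icc 1 N, f n * f n = ∑ n ∈ Icc 1 N, f n ^ 2 :=
    sum_congr rfl fun n _ => by ring
  have h10 : ∑ A ∈ (range k).filter (fun A => A.Coprime k), cls f N k A * cls f N k A =
      ∑ A ∈ (range k).filter (fun A => A.Coprime k), cls f N k A ^ 2 :=
    sum_congr rfl fun n _ => by ring
  have h11 : c * ∑ A ∈ (range k).filter (fun A => A.Coprime k), cls f N k A ≤ c * (tau k * B) :=
    mul_le_mul_of_nonneg_left ((le_abs_self _).trans h7) hc0
  have h12 := (abs_le.1 h1).1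
  have h13 := (abs_le.1 h2).2
  have h14 := (le_abs_self _).trans h6
  rw [h9, h10] at h5
  linarith

end Pool.Agent.T9h55.VM
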