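import Pool.Agent.H336R2.V.TotLog

/-!
Moments of the divisor function and elementary sums over multiples.
-/

open Finset

namespace Pool.Agent.T9h55.VM

/-- the number of divisors -/
noncomputable def tau (n : ℕ) : ℝ := (n.divisors.card : ℝ)

/-- the Moebius function, real valued -/
noncomputable def mu (n : ℕ) : ℝ := ((ArithmeticFunction.moebius n : ℤ) : ℝ)

/-- Euler's function, real valued -/
noncomputable def ph (n : ℕ) : ℝ := (Nat.totient n : ℝ)

lemma tau_nonneg (n : ℕ) : 0 ≤ tau n := Nat.cast_nonneg _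

lemma one_le_tau {n : ℕ} (hn : 1 ≤ n) : 1 ≤ tau n := by
  unfold tau
  have : 0 < n.divisors.card := Finset.card_pos.2 ⟨1, Nat.one_mem_divisors.2 (by omega)⟩
  exact_mod_cast this

lemma ph_pos {n : ℕ} (hn : 1 ≤ n) : 0 < ph n := by
  unfold ph
  exact_mod_cast Nat.totient_pos.2 hn

lemma ph_nonneg (n : ℕ) : 0 ≤ ph n := Nat.cast_nonneg _

lemma one_le_ph {n : ℕ} (hn : 1 ≤ n) : 1 ≤ ph n := by
  unfold ph
  exact_mod_cast Nat.totient_pos.2 hn

lemma ph_le (n : ℕ) : ph n ≤ n := by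
  unfold ph
  exact_mod_cast Nat.totient_le n

lemma tau_mul_le (m n : ℕ) : tau (m * n) ≤ tau m * tau n := by
  unfold tau
  rw [← Nat.cast_mul]
  norm_cast
  open scoped Pointwise in
  rw [Nat.divisors_mul]
  exact Finset.card_mul_le

lemma mu_abs (n : ℕ) : |mu n| ≤ 1 := by
  unfold mu
  exact_mod_cast ArithmeticFunction.abs_moebius_le_one

lemma mu_one : mu 1 = 1 := by simp [mu]

lemma mu_zero : mu 0 = 0 := by simp [mu]

lemma mu_mul {m n : ℕ} (h : m.Coprime n) : mu (m * n) = mu m * mu n := by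
  unfold mu
  rw [ArithmeticFunction.isMultiplicative_moebius.map_mul_of_coprime h]
  push_cast
  rfl

lemma mu_of_not_sq {n : ℕ} (h : ¬ Squarefree n) : mu n = 0 := by
  unfold mu
  rw [ArithmeticFunction.moebius_eq_zero_of_not_squarefree h]
  simp

lemma mu_sq {n : ℕ} (h : Squarefree n) : mu n ^ 2 = 1 := by
  unfold mu
  have : (ArithmeticFunction.moebius n) ^ 2 = 1 := ArithmeticFunction.moebius_sq_eq_one_of_squarefree h
  exact_mod_cast this

lemma not_sq_mul {m n : ℕ} (hm : m ≠ 0) (hn : n ≠ 0) (h : ¬ m.Coprime n) : ¬ Squarefree (m * n) := by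
  intro hs
  exact h (Nat.coprime_of_squarefree_mul hs)

lemma mu_mul_not {m n : ℕ} (h : ¬ m.Coprime n) : mu (m * n) = 0 :=
  mu_of_not_sq fun hs => h (Nat.coprime_of_squarefree_mul hs)

lemma div_ph_le {n : ℕ} (hn : 1 ≤ n) : (n : ℝ) / ph n ≤ tau n := by
  rw [div_le_iff₀ (ph_pos hn)]
  unfold ph tau
  have := H343.phi_mul_card n hn
  rw [mul_comm]
  exact_mod_cast this

lemma inv_ph_le {n : ℕ} (hn : 1 ≤ n) : 1 / ph n ≤ tau n / n := by
  have h := div_ph_le hn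
  have hn0 : (0 : ℝ) < n := by exact_mod_cast hn
  rw [le_div_iff₀ hn0]
  calc 1 / ph n * n = (n : ℝ) / ph n := by ring
    _ ≤ tau n := h

lemma ph_mul_le (m n : ℕ) : ph m * ph n ≤ ph (m * n) := by
  unfold ph
  exact_mod_cast Nat.totient_super_multiplicative m n

/-- `4^ω(n)` -/
noncomputable def w4 (n : ℕ) : ℝ := 4 ^ n.primeFactors.card

lemma w4_pos (n : ℕ) : 0 < w4 n := by unfold w4; positivity

lemma one_le_w4 (n : ℕ) : 1 ≤ w4 n := by
  unfold w4
  exact one_le_pow₀ (by norm_num)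

lemma w4_mul {m n : ℕ} (hm : m ≠ 0) (hn : n ≠ 0) : w4 (m * n) ≤ w4 m * w4 n := by
  unfold w4
  rw [Nat.primeFactors_mul hm hn, ← pow_add]
  exact pow_le_pow_right₀ (by norm_num) (card_union_le _ _)

lemma w4_le {n : ℕ} (hn : 1 ≤ n) : w4 n ≤ tau n ^ 2 := by
  unfold w4 tau
  have h1 : 2 ^ n.primeFactors.card ≤ n.divisors.card := by
    rw [Nat.card_divisors (by omega)]
    apply Finset.pow_card_le_prod
    intro p hp
    have : 1 ≤ n.factorization p :=
      (Nat.prime_of_mem_primeFactors hp).factorization_pos_of_dvd (by omega)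
        (Nat.dvd_of_mem_primeFactors hp)
    omega
  have h2 : (2 : ℝ) ^ n.primeFactors.card ≤ (n.divisors.card : ℝ) := by exact_mod_cast h1
  have h3 : (4 : ℝ) ^ n.primeFactors.card = (2 ^ n.primeFactors.card) ^ 2 := by
    rw [← pow_mul, mul_comm, pow_mul]
    norm_num
  rw [h3]
  exact pow_le_pow_left₀ (by positivity) h2 2

lemma sum_mult (d n : ℕ) (hd : 1 ≤ d) (g : ℕ → ℝ) :
    ∑ m ∈ (Icc 1 n).filter (fun m => d ∣ m), g m = ∑ l ∈ Icc 1 (n / d), g (d * l) := by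
  refine sum_nbij' (fun m => m / d) (fun l => d * l) ?_ ?_ ?_ ?_ ?_
  · intro m hm
    rw [mem_filter, mem_Icc] at hm
    rw [mem_Icc]
    exact ⟨Nat.div_pos (Nat.le_of_dvd (by omega) hm.2) hd, Nat.div_le_div_right hm.1.2⟩
  · intro l hl
    rw [mem_Icc] at hl
    rw [mem_filter, mem_Icc]
    refine ⟨⟨Nat.mul_pos hd hl.1, ?_⟩, Dvd.intro l rfl⟩
    calc d * l ≤ d * (n / d) := Nat.mul_le_mul_left _ hl.2
      _ ≤ n := Nat.mul_div_le n d
  · intro m hm
    rw [mem_filter] at hm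
    exact Nat.mul_div_cancel' hm.2
  · intro l _
    exact Nat.mul_div_cancel_left l hd
  · intro m hm
    rw [mem_filter] at hm
    rw [Nat.mul_div_cancel' hm.2]

/-- double sums over pairs `d ∣ n` -/
lemma sum_div_swap (N : ℕ) (F : ℕ → ℕ → ℝ) :
    ∑ n ∈ Icc 1 N, ∑ d ∈ n.divisors, F d n = ∑ d ∈ Icc 1 N, ∑ l ∈ Icc 1 (N / d), F d (d * l) := by
  have h1 : ∀ d ∈ Icc 1 N, ∑ l ∈ Icc 1 (N / d), F d (d * l) =
      ∑ m ∈ (Icc 1 N).filter (fun m => d ∣ m), F d m := by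
    intro d hd
    rw [mem_Icc] at hd
    rw [sum_mult d N hd.1 (fun m => F d m)]
  rw [sum_congr rfl h1]
  apply sum_comm'
  intro n d
  rw [mem_filter, mem_Icc, Nat.mem_divisors, mem_Icc]
  constructor
  · rintro ⟨⟨h1, h2⟩, h3, h4⟩
    exact ⟨⟨⟨h1, h2⟩, h3⟩, Nat.pos_of_dvd_of_pos h3 h1, (Nat.le_of_dvd h1 h3).trans h2⟩
  · rintro ⟨⟨⟨h1, h2⟩, h3⟩, h4, h5⟩
    exact ⟨⟨h1, h2⟩, h3, by omega⟩

lemma sum_inv_le (N : ℕ) : ∑ n ∈ Icc 1 N, (1 : ℝ) / n ≤ 1 + Real.log N := by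
  have h := harmonic_le_one_add_log N
  rw [harmonic_eq_sum_Icc] at h
  push_cast at h
  simpa [one_div] using h

/-- moments of the divisor function -/
theorem tau_mom (k N : ℕ) : ∑ n ∈ Icc 1 N, tau n ^ k / n ≤ (1 + Real.log N) ^ (2 ^ k) := by
  induction k with
  | zero => simpa using sum_inv_le N
  | succ k ih =>
    have h1 : ∀ n ∈ Icc 1 N, tau n ^ (k + 1) / n = ∑ d ∈ n.divisors, tau n ^ k / n := by
      intro n _
      rw [sum_const, nsmul_eq_mul, pow_succ]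
      unfold tau
      ring
    rw [sum_congr rfl h1, sum_div_swap N (fun _ n => tau n ^ k / n)]
    have h0 : ∀ n : ℕ, 0 ≤ tau n ^ k / n := fun n => div_nonneg (pow_nonneg (tau_nonneg n) k)
      (Nat.cast_nonneg n)
    have h2 : ∀ d ∈ Icc 1 N, ∑ l ∈ Icc 1 (N / d), tau (d * l) ^ k / ((d * l : ℕ) : ℝ) ≤
        tau d ^ k / d * ∑ l ∈ Icc 1 N, tau l ^ k / l := by
      intro d hd
      rw [mem_Icc] at hd
      rw [mul_sum]
      refine (sum_le_sum (g := fun l => tau d ^ k / d * (tau l ^ k / l)) fun l _ => ?_).trans ?_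
      · push_cast
        rw [div_mul_div_comm, ← mul_pow]
        apply div_le_div_of_nonneg_right _ (by positivity)
        exact pow_le_pow_left₀ (tau_nonneg _) (tau_mul_le d l) k
      · apply sum_le_sum_of_subset_of_nonneg
        · intro x hx
          rw [mem_Icc] at hx ⊢
          exact ⟨hx.1, hx.2.trans (Nat.div_le_self _ _)⟩
        · intro l _ _
          exact mul_nonneg (h0 d) (h0 l)
    refine (sum_le_sum h2).trans ?_
    rw [← sum_mul, pow_succ, pow_mul, sq]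
    have h3 : 0 ≤ ∑ l ∈ Icc 1 N, tau l ^ k / l := sum_nonneg fun l _ => h0 l
    exact mul_le_mul ih ih h3 (h3.trans ih)

lemma sum_w4_ph (N : ℕ) : ∑ r ∈ Icc 1 N, w4 r / ph r ≤ (1 + Real.log N) ^ 8 := by
  refine le_trans (sum_le_sum fun r hr => ?_) (tau_mom 3 N)
  rw [mem_Icc] at hr
  calc w4 r / ph r = w4 r * (1 / ph r) := by ring
    _ ≤ tau r ^ 2 * (tau r / r) := by
        apply mul_le_mul (w4_le hr.1) (inv_ph_le hr.1)
        · exact div_nonneg zero_le_one (ph_nonneg r)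
        · exact pow_nonneg (tau_nonneg r) 2
    _ = tau r ^ 3 / r := by ring

lemma sum_inv_ph (N : ℕ) : ∑ r ∈ Icc 1 N, 1 / ph r ≤ (1 + Real.log N) ^ 2 := by
  refine le_trans (sum_le_sum fun r hr => ?_) (tau_mom 1 N)
  rw [mem_Icc] at hr
  rw [pow_one]
  exact inv_ph_le hr.1

end Pool.Agent.T9h55.VM
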