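import Pool.Agent.H705R2.MLogF
import Pool.Agent.T9h55.VM.Divisors

/-!
Sums of the Moebius function over the integers prime to a given integer, with the weight
`n / φ(n)`, with uniformity in the modulus.
-/

open Finset

namespace Pool.Agent.T9h55.VM

/-- sum of the Moebius function over the integers not divisible by any element of `s` -/
noncomputable def MM (s : Finset ℕ) (n : ℕ) : ℝ :=
  ∑ m ∈ (Icc 1 n).filter (fun m => ∀ p ∈ s, ¬ p ∣ m), mu m

lemma MM_zero (s : Finset ℕ) : MM s 0 = 0 := by simp [MM]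

lemma MM_rec (s : Finset ℕ) (hs : ∀ p ∈ s, p.Prime) (p : ℕ) (hp : p.Prime) (hps : p ∉ s) (n : ℕ) :
    MM (insert p s) n = MM s n + MM (insert p s) (n / p) := by
  unfold MM
  have h1 : ∑ m ∈ (Icc 1 n).filter (fun m => ∀ q ∈ s, ¬ q ∣ m), mu m =
      ∑ m ∈ (Icc 1 n).filter (fun m => ∀ q ∈ insert p s, ¬ q ∣ m), mu m +
      ∑ m ∈ (Icc 1 n).filter (fun m => p ∣ m), (if ∀ q ∈ s, ¬ q ∣ m then mu m else 0) := by
    rw [sum_filter, sum_filter, sum_filter, ← sum_add_distrib]
    refine sum_congr rfl fun m _ => ?_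
    simp only [mem_insert, forall_eq_or_imp]
    by_cases h2 : p ∣ m
    · simp [h2]
    · simp [h2]
  have h2 : ∑ m ∈ (Icc 1 n).filter (fun m => p ∣ m), (if ∀ q ∈ s, ¬ q ∣ m then mu m else 0) =
      - ∑ m ∈ (Icc 1 (n / p)).filter (fun m => ∀ q ∈ insert p s, ¬ q ∣ m), mu m := by
    rw [sum_mult p n hp.one_lt.le (fun m => if ∀ q ∈ s, ¬ q ∣ m then mu m else 0), sum_filter,
      ← sum_neg_distrib]
    refine sum_congr rfl fun l _ => ?_
    have h3 : (∀ q ∈ s, ¬ q ∣ p * l) ↔ ∀ q ∈ s, ¬ q ∣ l := by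
      constructor
      · intro h q hq hql
        exact h q hq (Dvd.dvd.mul_left hql p)
      · intro h q hq hql
        rcases (hs q hq).dvd_mul.1 hql with h4 | h4
        · have := (Nat.prime_dvd_prime_iff_eq (hs q hq) hp).1 h4
          rw [this] at hq
          exact hps hq
        · exact h q hq h4
    simp only [h3, mem_insert, forall_eq_or_imp]
    by_cases h5 : p ∣ l
    · have h6 : mu (p * l) = 0 := mu_mul_not fun hc => by
        have := Nat.Coprime.eq_one_of_dvd hc h5
        exact hp.one_lt.ne' this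
      simp [h5, h6]
    · have h6 : mu (p * l) = - mu l := by
        rw [mu_mul ((Nat.Prime.coprime_iff_not_dvd hp).2 h5)]
        unfold mu
        rw [ArithmeticFunction.moebius_apply_prime hp]
        push_cast
        ring
      by_cases h7 : ∀ q ∈ s, ¬ q ∣ l
      · rw [if_pos h7, if_pos ⟨h5, h7⟩, h6]
      · rw [if_neg h7, if_neg (fun h => h7 h.2), neg_zero]
  rw [h1, h2]
  ring

theorem MM_bound (T : ℕ) (G : ℝ) (hG : 0 ≤ G) (h : ∀ n ≤ T, |MM ∅ n| ≤ G * √n) (s : Finset ℕ)
    (hs : ∀ p ∈ s, p.Prime) : ∀ n ≤ T, |MM s n| ≤ 4 ^ s.card * G * √n := by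
  classical
  induction s using Finset.induction_on with
  | empty =>
    intro n hn
    simpa using h n hn
  | insert p s hps ih =>
    have hs' : ∀ q ∈ s, q.Prime := fun q hq => hs q (mem_insert_of_mem hq)
    have hp : p.Prime := hs p (mem_insert_self p s)
    have ih' := ih hs'
    intro n
    induction n using Nat.strong_induction_on with
    | _ n ihn =>
      intro hn
      rcases Nat.eq_zero_or_pos n with h0 | h0
      · subst h0
        rw [MM_zero, abs_zero]
        positivity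
      · have h1 := ih' n hn
        have h2 := ihn (n / p) (Nat.div_lt_self h0 hp.one_lt) ((Nat.div_le_self _ _).trans hn)
        rw [MM_rec s hs' p hp hps n]
        refine (abs_add_le _ _).trans ((add_le_add h1 h2).trans ?_)
        rw [card_insert_of_notMem hps]
        have h3 : √((n / p : ℕ) : ℝ) ≤ 3 / 4 * √(n : ℝ) := by
          have h4 : ((n / p : ℕ) : ℝ) ≤ (3 / 4) ^ 2 * n := by
            have h5 : ((n / p : ℕ) : ℝ) ≤ (n : ℝ) / p := Nat.cast_div_le
            have h6 : (2 : ℝ) ≤ p := by exact_mod_cast hp.two_le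
            have h7 : (n : ℝ) / p ≤ n / 2 := by
              apply div_le_div_of_nonneg_left (by positivity) (by norm_num) h6
            have h8 : (0 : ℝ) ≤ n := by positivity
            linarith
          calc √((n / p : ℕ) : ℝ) ≤ √((3 / 4) ^ 2 * n) := Real.sqrt_le_sqrt h4
            _ = 3 / 4 * √(n : ℝ) := by
              rw [Real.sqrt_mul (by positivity), Real.sqrt_sq (by norm_num)]
        have h9 : 0 ≤ 4 ^ s.card * G := by positivity
        calc 4 ^ s.card * G * √(n : ℝ) + 4 ^ (s.card + 1) * G * √((n / p : ℕ) : ℝ)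
            ≤ 4 ^ s.card * G * √(n : ℝ) + 4 ^ (s.card + 1) * G * (3 / 4 * √(n : ℝ)) := by
              gcongr
          _ = 4 ^ (s.card + 1) * G * √(n : ℝ) := by
              rw [pow_succ]
              ring

/-- sum of `μ(m) m / φ(m)` over `m ≤ n` prime to `D` -/
noncomputable def PP (D n : ℕ) : ℝ :=
  ∑ m ∈ (Icc 1 n).filter (fun m => m.Coprime D), mu m * ((m : ℝ) / ph m)

lemma coprime_iff_primes {D m : ℕ} (hD : D ≠ 0) :
    m.Coprime D ↔ ∀ p ∈ D.primeFactors, ¬ p ∣ m := by
  constructor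
  · intro h p hp hpm
    have h1 := Nat.prime_of_mem_primeFactors hp
    have h2 := Nat.dvd_of_mem_primeFactors hp
    exact Nat.Prime.not_coprime_iff_dvd.2 ⟨p, h1, hpm, h2⟩ h
  · intro h
    by_contra hc
    obtain ⟨p, h1, h2, h3⟩ := Nat.Prime.not_coprime_iff_dvd.1 hc
    exact h p (Nat.mem_primeFactors.2 ⟨h1, h3, hD⟩) h2

lemma PP_eq (D n : ℕ) (hD : 1 ≤ D) : PP D n =
    ∑ r ∈ Icc 1 n, (if Squarefree r ∧ r.Coprime D then
      mu r / ph r * MM ((D * r).primeFactors) (n / r) else 0) := by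
  unfold PP
  have h1 : ∑ m ∈ (Icc 1 n).filter (fun m => m.Coprime D), mu m * ((m : ℝ) / ph m) =
      ∑ m ∈ Icc 1 n, ∑ r ∈ m.divisors,
        (if Squarefree r ∧ m.Coprime D then mu m * (1 / ph r) else 0) := by
    rw [sum_filter]
    refine sum_congr rfl fun m hm => ?_
    rw [mem_Icc] at hm
    have h2 : (m : ℝ) / ph m = ∑ r ∈ m.divisors.filter Squarefree, 1 / ph r :=
      H336V.TotLog.div_totient m hm.1
    by_cases h3 : m.Coprime D
    · rw [if_pos h3, h2, mul_sum, sum_filter]
      refine sum_congr rfl fun r _ => ?_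
      by_cases h4 : Squarefree r
      · rw [if_pos h4, if_pos ⟨h4, h3⟩]
      · rw [if_neg h4, if_neg (fun h => h4 h.1)]
    · rw [if_neg h3]
      symm
      refine sum_eq_zero fun r _ => ?_
      rw [if_neg (fun h => h3 h.2)]
  rw [h1, sum_div_swap n (fun r m => if Squarefree r ∧ m.Coprime D then mu m * (1 / ph r) else 0)]
  refine sum_congr rfl fun r hr => ?_
  rw [mem_Icc] at hr
  by_cases h3 : Squarefree r ∧ r.Coprime D
  · rw [if_pos h3]
    unfold MM
    rw [mul_sum, sum_filter]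
    refine sum_congr rfl fun l hl => ?_
    rw [mem_Icc] at hl
    have hDr : D * r ≠ 0 := Nat.mul_ne_zero (by omega) (by omega)
    by_cases h4 : l.Coprime (D * r)
    · rw [if_pos ((coprime_iff_primes hDr).1 h4)]
      have h5 := Nat.coprime_mul_iff_right.1 h4
      rw [if_pos ⟨h3.1, Nat.Coprime.mul_left h3.2 h5.1⟩, mu_mul h5.2.symm]
      ring
    · rw [if_neg (fun h => h4 ((coprime_iff_primes hDr).2 h))]
      by_cases h5 : r.Coprime l
      · rw [if_neg]
        rintro ⟨_, h6⟩
        apply h4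
        rw [Nat.coprime_mul_iff_right]
        exact ⟨(Nat.coprime_mul_iff_left.1 h6).2, h5.symm⟩
      · rw [mu_mul_not h5]
        simp
  · rw [if_neg h3]
    refine sum_eq_zero fun l _ => ?_
    rw [if_neg]
    rintro ⟨h4, h5⟩
    exact h3 ⟨h4, (Nat.coprime_mul_iff_left.1 h5).1⟩

theorem PP_le (T : ℕ) (G : ℝ) (hG : 0 ≤ G) (h : ∀ n ≤ T, |MM ∅ n| ≤ G * √n) (D : ℕ)
    (hD : 1 ≤ D) (n : ℕ) (hn : n ≤ T) :
    |PP D n| ≤ w4 D * G * √n * (1 + Real.log n) ^ 8 := by
  rw [PP_eq D n hD]
  refine (abs_sum_le_sum_abs _ _).trans ?_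
  have h1 : ∀ r ∈ Icc 1 n, |(if Squarefree r ∧ r.Coprime D then
      mu r / ph r * MM ((D * r).primeFactors) (n / r) else 0)| ≤
      w4 D * G * √n * (w4 r / ph r) := by
    intro r hr
    rw [mem_Icc] at hr
    have hph := ph_pos hr.1
    split_ifs with h2
    · rw [abs_mul, abs_div, abs_of_pos hph]
      have h3 : |MM ((D * r).primeFactors) (n / r)| ≤ w4 D * w4 r * G * √n := by
        refine (MM_bound T G hG h _ (fun p hp => Nat.prime_of_mem_primeFactors hp) (n / r)
          ((Nat.div_le_self _ _).trans hn)).trans ?_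
        have h4 : (4 : ℝ) ^ (D * r).primeFactors.card ≤ w4 D * w4 r :=
          w4_mul (by omega) (by omega)
        have h5 : √((n / r : ℕ) : ℝ) ≤ √(n : ℝ) := Real.sqrt_le_sqrt (by
          exact_mod_cast Nat.div_le_self n r)
        have h6 := w4_pos D
        have h7 := w4_pos r
        gcongr
      calc |mu r| / ph r * |MM ((D * r).primeFactors) (n / r)|
          ≤ 1 / ph r * (w4 D * w4 r * G * √n) := by
            apply mul_le_mul _ h3 (abs_nonneg _) (by positivity)
            exact div_le_div_of_nonneg_right (mu_abs r) hph.le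
        _ = w4 D * G * √n * (w4 r / ph r) := by ring
    · rw [abs_zero]
      have h6 := w4_pos D
      have h7 := w4_pos r
      positivity
  refine (sum_le_sum h1).trans ?_
  rw [← mul_sum]
  have h6 := w4_pos D
  exact mul_le_mul_of_nonneg_left (sum_w4_ph n) (by positivity)

/-- growth comparison -/
lemma grow (A : ℕ) (c s : ℝ) (hs : 0 < s) :
    ∀ᶠ N : ℕ in Filter.atTop, c * (Real.log N) ^ A ≤ (N : ℝ) ^ s := by
  have h1 : (fun x : ℝ => Real.log x ^ (A : ℝ)) =o[Filter.atTop] fun x => x ^ s :=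
    isLittleO_log_rpow_rpow_atTop (A : ℝ) hs
  have h2 := (h1.comp_tendsto tendsto_natCast_atTop_atTop).bound
    (c := 1 / (|c| + 1)) (by positivity)
  filter_upwards [h2, Filter.eventually_ge_atTop 3] with N hN hN3
  simp only [Function.comp_apply, Real.rpow_natCast] at hN
  have hN1 : (1 : ℝ) ≤ N := by exact_mod_cast (by omega : 1 ≤ N)
  have hl : 0 ≤ Real.log N := Real.log_nonneg hN1
  rw [Real.norm_of_nonneg (pow_nonneg hl A), Real.norm_of_nonneg (by positivity)] at hN
  have h3 : (|c| + 1) * Real.log N ^ A ≤ (N : ℝ) ^ s := by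
    calc (|c| + 1) * Real.log N ^ A ≤ (|c| + 1) * (1 / (|c| + 1) * (N : ℝ) ^ s) := by gcongr
      _ = (N : ℝ) ^ s := by field_simp
  have h4 : c ≤ |c| + 1 := (le_abs_self c).trans (by linarith)
  exact (mul_le_mul_of_nonneg_right h4 (pow_nonneg hl A)).trans h3

lemma log_large (c : ℝ) : ∀ᶠ N : ℕ in Filter.atTop, c ≤ Real.log N :=
  (Real.tendsto_log_atTop.comp tendsto_natCast_atTop_atTop).eventually_ge_atTop c

/-- the prime number theorem for the Moebius function, in the form used below -/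
theorem mert (A : ℕ) : ∃ T0 : ℕ, ∀ T : ℕ, T0 ≤ T → ∀ n ≤ T,
    |MM ∅ n| ≤ √T / (Real.log T) ^ A * √n := by
  obtain ⟨N₀, hN₀⟩ := H705R2.MSW.swMu (A + 1) 1
  have hev := ((grow A 1 (1 / 4) (by norm_num)).and (log_large (2 ^ (A + 2)))).and
    ((Filter.eventually_ge_atTop (N₀ ^ 2 + 100)))
  obtain ⟨T0, hT0⟩ := Filter.eventually_atTop.1 hev
  refine ⟨T0, fun T hT n hn => ?_⟩
  obtain ⟨⟨g1, g2⟩, g3⟩ := hT0 T hT
  have hT1 : (1 : ℝ) ≤ T := by exact_mod_cast (by omega : 1 ≤ T)
  have hT0' : (0 : ℝ) < T := by linarith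
  have hlog : 0 < Real.log T := lt_of_lt_of_le (by positivity) g2
  rcases Nat.eq_zero_or_pos n with h0 | h0
  · subst h0
    rw [MM_zero, abs_zero]
    positivity
  have hn0 : (0 : ℝ) < n := by exact_mod_cast h0
  have hs : √(n : ℝ) * √(n : ℝ) = n := Real.mul_self_sqrt hn0.le
  by_cases hc : (n : ℝ) + 1 < √T
  · -- small n: trivial bound
    have h1 : |MM ∅ n| ≤ n := by
      unfold MM
      refine (abs_sum_le_sum_abs _ _).trans ?_
      refine (sum_le_sum (g := fun _ => (1 : ℝ)) fun m _ => mu_abs m).trans ?_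
      rw [sum_const, nsmul_eq_mul, mul_one]
      have := card_filter_le (Icc 1 n) (fun m => ∀ p ∈ (∅ : Finset ℕ), ¬ p ∣ m)
      rw [Nat.card_Icc, Nat.add_sub_cancel] at this
      exact_mod_cast this
    refine h1.trans ?_
    have h2 : √(n : ℝ) ≤ √T / (Real.log T) ^ A := by
      rw [le_div_iff₀ (pow_pos hlog A)]
      have h3 : √(n : ℝ) ≤ (T : ℝ) ^ (1 / 4 : ℝ) := by
        calc √(n : ℝ) ≤ √(√T) := Real.sqrt_le_sqrt (by linarith)
          _ = (T : ℝ) ^ (1 / 4 : ℝ) := by
            rw [Real.sqrt_eq_rpow, Real.sqrt_eq_rpow, ← Real.rpow_mul hT0'.le]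
            norm_num
      calc √(n : ℝ) * Real.log T ^ A ≤ (T : ℝ) ^ (1 / 4 : ℝ) * (T : ℝ) ^ (1 / 4 : ℝ) := by
            apply mul_le_mul h3 _ (by positivity) (by positivity)
            simpa using g1
        _ = √T := by
            rw [← Real.rpow_add hT0', Real.sqrt_eq_rpow]
            norm_num
    calc (n : ℝ) = √(n : ℝ) * √(n : ℝ) := hs.symm
      _ ≤ √T / (Real.log T) ^ A * √(n : ℝ) := by gcongr
  · push Not at hc
    have h1 : MM ∅ n = ∑ m ∈ (range (n + 1)).filter (fun m => m % 1 = 0),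
        ((ArithmeticFunction.moebius m : ℤ) : ℝ) := by
      unfold MM
      have e1 : (Icc 1 n).filter (fun m => ∀ p ∈ (∅ : Finset ℕ), ¬ p ∣ m) = Icc 1 n := by
        apply filter_true_of_mem
        simp
      have e2 : (range (n + 1)).filter (fun m => m % 1 = 0) = range (n + 1) := by
        apply filter_true_of_mem
        intro m _
        exact Nat.mod_one m
      rw [e1, e2, range_eq_Ico, sum_eq_sum_Ico_succ_bot (by omega)]
      simp only [ArithmeticFunction.map_zero, Int.cast_zero, zero_add]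
      rfl
    have hTN : √(T : ℝ) ≥ N₀ := by
      apply Real.le_sqrt_of_sq_le
      exact_mod_cast (by omega : N₀ ^ 2 ≤ T)
    have hnN : N₀ ≤ n + 1 := by
      have : (N₀ : ℝ) ≤ ((n + 1 : ℕ) : ℝ) := by push_cast; linarith
      exact_mod_cast this
    have hlogn : Real.log T / 2 ≤ Real.log ((n + 1 : ℕ) : ℝ) := by
      have : Real.log (√T) ≤ Real.log ((n + 1 : ℕ) : ℝ) := by
        apply Real.log_le_log (Real.sqrt_pos.2 hT0')
        push_cast
        exact hc
      rwa [Real.log_sqrt hT0'.le] at this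
    have g2' : (4 : ℝ) ≤ Real.log T := by
      refine le_trans ?_ g2
      calc (4 : ℝ) = 2 ^ 2 := by norm_num
        _ ≤ 2 ^ (A + 2) := pow_le_pow_right₀ (by norm_num) (by omega)
    have h2 := hN₀ (n + 1) hnN 1 0 le_rfl (by
      rw [pow_one, Nat.cast_one]
      linarith)
    rw [← h1] at h2
    refine h2.trans ?_
    have hlp : 0 < Real.log T / 2 := by linarith
    have hnT : √(n : ℝ) ≤ √(T : ℝ) := Real.sqrt_le_sqrt (by exact_mod_cast hn)
    calc ((n + 1 : ℕ) : ℝ) / Real.log ((n + 1 : ℕ) : ℝ) ^ (A + 1)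
        ≤ (2 * n) / (Real.log T / 2) ^ (A + 1) := by
          have : ((n + 1 : ℕ) : ℝ) ≤ 2 * n := by
            have : (1 : ℝ) ≤ n := by exact_mod_cast h0
            push_cast
            linarith
          gcongr
      _ = (2 ^ (A + 2) / Real.log T) * (n / Real.log T ^ A) := by
          rw [div_pow, pow_succ (Real.log (T : ℝ)) A, pow_succ (2 : ℝ) (A + 1)]
          field_simp
      _ ≤ 1 * (n / Real.log T ^ A) := by
          apply mul_le_mul_of_nonneg_right _ (by positivity)
          rw [div_le_one hlog]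
          exact g2
      _ = √(n : ℝ) / (Real.log T) ^ A * √(n : ℝ) := by
          rw [one_mul, div_mul_eq_mul_div, hs]
      _ ≤ √T / (Real.log T) ^ A * √(n : ℝ) := by gcongr

/-- uniform bound for the sums of `μ(m) m / φ(m)` over `m ≤ n` prime to `D` -/
theorem PP_bound (A : ℕ) : ∃ T0 : ℕ, ∀ T : ℕ, T0 ≤ T → ∀ D : ℕ, 1 ≤ D → ∀ n ≤ T,
    |PP D n| ≤ w4 D * (T / (Real.log T) ^ A) := by
  obtain ⟨T0, hT0⟩ := mert (A + 9)
  obtain ⟨T1, hT1⟩ := Filter.eventually_atTop.1 (log_large (2 ^ 8))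
  refine ⟨max T0 (max T1 3), fun T hT D hD n hn => ?_⟩
  have h1 := hT0 T ((le_max_left _ _).trans hT)
  have h2 := hT1 T (((le_max_left _ _).trans (le_max_right _ _)).trans hT)
  have h3 : 3 ≤ T := ((le_max_right _ _).trans (le_max_right _ _)).trans hT
  have hlog : (2 : ℝ) ^ 8 ≤ Real.log T := h2
  have hlog0 : 0 < Real.log T := lt_of_lt_of_le (by norm_num) hlog
  have hT1 : (1 : ℝ) ≤ T := by exact_mod_cast (by omega : 1 ≤ T)
  have h4 := PP_le T (√T / Real.log T ^ (A + 9)) (by positivity) h1 D hD n hn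
  refine h4.trans ?_
  have hw := w4_pos D
  have h5 : √(n : ℝ) ≤ √(T : ℝ) := Real.sqrt_le_sqrt (by exact_mod_cast hn)
  have h6 : 1 + Real.log n ≤ 2 * Real.log T := by
    have : Real.log n ≤ Real.log T := by
      rcases Nat.eq_zero_or_pos n with h0 | h0
      · subst h0
        simp only [CharP.cast_eq_zero, Real.log_zero]
        exact hlog0.le
      · apply Real.log_le_log (by exact_mod_cast h0)
        exact_mod_cast hn
    linarith
  have h7 : 0 ≤ 1 + Real.log n := by
    have := Real.log_natCast_nonneg n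
    linarith
  have hs : √(T : ℝ) * √(T : ℝ) = T := Real.mul_self_sqrt (by linarith)
  calc w4 D * (√T / Real.log T ^ (A + 9)) * √n * (1 + Real.log n) ^ 8
      ≤ w4 D * (√T / Real.log T ^ (A + 9)) * √T * (2 * Real.log T) ^ 8 := by gcongr
    _ = w4 D * ((√T * √T) / Real.log T ^ A) * (2 ^ 8 / Real.log T) := by
        field_simp
        ring
    _ ≤ w4 D * ((√T * √T) / Real.log T ^ A) * 1 := by
        apply mul_le_mul_of_nonneg_left _ (by positivity)
        rw [div_le_one hlog0]
        exact hlog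
    _ = w4 D * (T / (Real.log T) ^ A) := by rw [hs, mul_one]

end Pool.Agent.T9h55.VM
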