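import Pool.Agent.T9h55.VM.Ram
import Pool.Agent.T9h55.VM.Mob
import Pool.Agent.H343R2.Pnt

/-!
The diagonal term: primes against the truncated Ramanujan expansion; crude bounds.
-/

open Finset

namespace Pool.Agent.T9h55.VM

open ArithmeticFunction (vonMangoldt vonMangoldt_nonneg)

lemma one_add_log_le (δ : ℝ) (hδ : 0 < δ) : ∃ C : ℝ, 0 < C ∧ ∀ R : ℕ, 1 ≤ R →
    1 + Real.log R ≤ C * (R : ℝ) ^ δ := by
  refine ⟨1 + 1 / δ, by positivity, fun R hR => ?_⟩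
  have hR1 : (1 : ℝ) ≤ R := by exact_mod_cast hR
  have h1 := Real.log_le_rpow_div (x := (R : ℝ)) (by positivity) hδ
  have h2 : 1 ≤ (R : ℝ) ^ δ := Real.one_le_rpow hR1 hδ.le
  calc 1 + Real.log R ≤ (R : ℝ) ^ δ + (R : ℝ) ^ δ / δ := by linarith
    _ = (1 + 1 / δ) * (R : ℝ) ^ δ := by ring

lemma tau_small (δ : ℝ) (hδ : 0 < δ) : ∃ C : ℝ, 0 < C ∧ ∀ N n : ℕ, 1 ≤ n → n ≤ 4 * N →
    tau n ≤ C * (N : ℝ) ^ δ := by
  obtain ⟨C, hC, h⟩ := H343.div_bound δ hδ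
  refine ⟨C * 4 ^ δ, by positivity, fun N n hn hnN => ?_⟩
  have h1 := h n hn
  have h2 : (n : ℝ) ≤ 4 * N := by exact_mod_cast hnN
  calc tau n ≤ C * (n : ℝ) ^ δ := h1
    _ ≤ C * (4 * N) ^ δ := by gcongr
    _ = C * 4 ^ δ * (N : ℝ) ^ δ := by
        rw [Real.mul_rpow (by norm_num) (by positivity)]
        ring

lemma ff_small (δ : ℝ) (hδ : 0 < δ) : ∃ C : ℝ, 0 < C ∧ ∀ N Q R n : ℕ, 1 ≤ R → R ≤ N → 1 ≤ n →
    n ≤ 4 * N → |ff Q R n| ≤ C * (N : ℝ) ^ δ := by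
  obtain ⟨C1, hC1, h1⟩ := tau_small (δ / 4) (by positivity)
  obtain ⟨C2, hC2, h2⟩ := one_add_log_le (δ / 4) (by positivity)
  refine ⟨C1 ^ 2 * C2 ^ 2, by positivity, fun N Q R n hR hRN hn hnN => ?_⟩
  have hN0 : (0 : ℝ) < N := by exact_mod_cast (by omega : 0 < N)
  have hRr : (R : ℝ) ≤ N := by exact_mod_cast hRN
  refine (ff_abs Q R n hn).trans ?_
  have h3 : 1 + Real.log R ≤ C2 * (N : ℝ) ^ (δ / 4) := by
    refine (h2 R hR).trans ?_
    gcongr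
  have h4 : 0 ≤ 1 + Real.log R := by
    have := Real.log_natCast_nonneg R
    linarith
  have h5 := tau_nonneg n
  calc tau n ^ 2 * (1 + Real.log R) ^ 2
      ≤ (C1 * (N : ℝ) ^ (δ / 4)) ^ 2 * (C2 * (N : ℝ) ^ (δ / 4)) ^ 2 := by
        gcongr
        exact h1 N n hn hnN
    _ = C1 ^ 2 * C2 ^ 2 * ((N : ℝ) ^ (δ / 4)) ^ 4 := by ring
    _ = C1 ^ 2 * C2 ^ 2 * (N : ℝ) ^ δ := by
        have h6 : ((N : ℝ) ^ (δ / 4)) ^ 4 = (N : ℝ) ^ δ := by
          rw [← Real.rpow_natCast, ← Real.rpow_mul hN0.le]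
          congr 1
          push_cast
          ring
        rw [h6]

lemma LL_nonneg (Q R : ℕ) : 0 ≤ H343.LL Q R := sum_nonneg fun _ _ => by positivity

lemma LL_small (δ : ℝ) (hδ : 0 < δ) : ∃ C : ℝ, 0 < C ∧ ∀ N Q R : ℕ, 1 ≤ R → R ≤ N →
    H343.LL Q R ≤ C * (N : ℝ) ^ δ := by
  obtain ⟨C1, hC1, h1⟩ := H343.LL_upper
  obtain ⟨C2, hC2, h2⟩ := one_add_log_le δ hδ
  refine ⟨C1 * C2, by positivity, fun N Q R hR hRN => ?_⟩
  have hRr : (R : ℝ) ≤ N := by exact_mod_cast hRN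
  calc H343.LL Q R ≤ C1 * (1 + Real.log R) := h1 Q R
    _ ≤ C1 * (C2 * (R : ℝ) ^ δ) := by
        gcongr
        exact h2 R hR
    _ ≤ C1 * (C2 * (N : ℝ) ^ δ) := by gcongr
    _ = C1 * C2 * (N : ℝ) ^ δ := by ring

lemma psi_Icc (N : ℕ) : ∑ n ∈ Icc 1 N, vonMangoldt n = Chebyshev.psi N := by
  rw [Chebyshev.psi, Nat.floor_natCast]
  rfl

/-- the diagonal term -/
theorem diag_bound (κ η : ℝ) (hκ : 0 < κ) (hκ4 : κ ≤ 1 / 4) (hη : 0 < η) :
    ∃ N0 : ℕ, ∀ N : ℕ, N0 ≤ N → ∀ Q R : ℕ, 1 ≤ R → (R : ℝ) ≤ (N : ℝ) ^ (1 - 2 * κ) →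
    N * ((1 - η) * H343.LL Q R - η) ≤ ∑ n ∈ Icc 1 N, vonMangoldt n * ff Q R n := by
  obtain ⟨C1, hC1, h1⟩ := ff_small κ hκ
  obtain ⟨C2, hC2, h2⟩ := LL_small κ hκ
  obtain ⟨C3, h3⟩ := Chebyshev.psi_sub_theta_le_mul_sqrt
  set C4 : ℝ := (C1 + C2) * (Real.log 4 + 4 + |C3|) with hC4
  have hl4 : 0 ≤ Real.log 4 := Real.log_nonneg (by norm_num)
  have hC40 : 0 < C4 := by positivity
  have hpnt := Pool.Agent.Helper923.PNT.psi_div_tendsto
  have hev1 : ∀ᶠ x : ℝ in Filter.atTop, 1 - η < Chebyshev.psi x / x :=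
    hpnt.eventually (lt_mem_nhds (by linarith))
  have hev1' : ∀ᶠ N : ℕ in Filter.atTop, 1 - η < Chebyshev.psi N / N :=
    tendsto_natCast_atTop_atTop.eventually hev1
  have hev2 : ∀ᶠ N : ℕ in Filter.atTop, C4 / η ≤ (N : ℝ) ^ κ :=
    ((tendsto_rpow_atTop hκ).comp tendsto_natCast_atTop_atTop).eventually_ge_atTop _
  obtain ⟨N0, hN0⟩ := Filter.eventually_atTop.1 (hev1'.and hev2)
  refine ⟨max N0 3, fun N hN Q R hR hRN => ?_⟩
  obtain ⟨g1, g2⟩ := hN0 N ((le_max_left _ _).trans hN)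
  have hN3 : 3 ≤ N := (le_max_right _ _).trans hN
  have hNr : (0 : ℝ) < N := by exact_mod_cast (by omega : 0 < N)
  have hN1 : (1 : ℝ) ≤ N := by exact_mod_cast (by omega : 1 ≤ N)
  have hRN' : R ≤ N := by
    have h4 : (R : ℝ) ≤ N := by
      refine hRN.trans ?_
      calc (N : ℝ) ^ (1 - 2 * κ) ≤ (N : ℝ) ^ (1 : ℝ) :=
            Real.rpow_le_rpow_of_exponent_le hN1 (by linarith)
        _ = N := Real.rpow_one _
    exact_mod_cast h4
  set L := H343.LL Q R with hL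
  have hL0 : 0 ≤ L := LL_nonneg Q R
  -- comparison with the Chebyshev function
  set E := (Icc 1 N).filter (fun n => n ≤ R ∨ ¬ n.Prime) with hE
  have h4 : -((C1 + C2) * (N : ℝ) ^ κ * ∑ n ∈ E, vonMangoldt n) ≤
      ∑ n ∈ Icc 1 N, vonMangoldt n * (ff Q R n - L) := by
    rw [hE, sum_filter, mul_sum, ← sum_neg_distrib]
    refine sum_le_sum fun n hn => ?_
    rw [mem_Icc] at hn
    have hv : 0 ≤ vonMangoldt n := vonMangoldt_nonneg
    split_ifs with h5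
    · have h6 := h1 N Q R n hR hRN' hn.1 (by omega)
      have h7 := h2 N Q R hR hRN'
      have h8 : -((C1 + C2) * (N : ℝ) ^ κ) ≤ ff Q R n - L := by
        have := (abs_le.1 h6).1
        rw [← hL] at h7
        linarith
      have := mul_le_mul_of_nonneg_left h8 hv
      linarith
    · push Not at h5
      rw [ff_prime Q R n h5.2 h5.1, ← hL, sub_self, mul_zero, mul_zero, neg_zero]
  have h5 : ∑ n ∈ E, vonMangoldt n ≤ (Real.log 4 + 4 + |C3|) * (N : ℝ) ^ (1 - 2 * κ) := by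
    have h6 : ∑ n ∈ E, vonMangoldt n ≤ ∑ n ∈ Icc 1 R, vonMangoldt n +
        ∑ n ∈ (Icc 1 N).filter (fun n => ¬ n.Prime), vonMangoldt n := by
      have hsub : E ⊆ Icc 1 R ∪ (Icc 1 N).filter (fun n => ¬ n.Prime) := by
        intro n hn
        rw [hE, mem_filter, mem_Icc] at hn
        rw [mem_union, mem_Icc, mem_filter, mem_Icc]
        rcases hn.2 with h | h
        · exact Or.inl ⟨hn.1.1, h⟩
        · exact Or.inr ⟨hn.1, h⟩
      refine (sum_le_sum_of_subset_of_nonneg hsub fun _ _ _ => vonMangoldt_nonneg).trans ?_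
      rw [← sum_union_inter]
      have : 0 ≤ ∑ n ∈ Icc 1 R ∩ (Icc 1 N).filter (fun n => ¬ n.Prime), vonMangoldt n :=
        sum_nonneg fun _ _ => vonMangoldt_nonneg
      linarith
    have h7 : ∑ n ∈ Icc 1 R, vonMangoldt n ≤ (Real.log 4 + 4) * (N : ℝ) ^ (1 - 2 * κ) := by
      rw [psi_Icc]
      refine (Chebyshev.psi_le_const_mul_self (by positivity)).trans ?_
      exact mul_le_mul_of_nonneg_left hRN (by positivity)
    have h8 : ∑ n ∈ (Icc 1 N).filter (fun n => ¬ n.Prime), vonMangoldt n ≤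
        |C3| * (N : ℝ) ^ (1 - 2 * κ) := by
      have h9 := Chebyshev.psi_sub_theta_eq_sum_not_prime (N : ℝ)
      rw [Nat.floor_natCast] at h9
      have h10 : (Icc 1 N) = Ioc 0 N := rfl
      rw [h10, ← h9]
      refine (h3 N).trans ?_
      have h11 : √(N : ℝ) ≤ (N : ℝ) ^ (1 - 2 * κ) := by
        rw [Real.sqrt_eq_rpow]
        exact Real.rpow_le_rpow_of_exponent_le hN1 (by linarith)
      calc C3 * √(N : ℝ) ≤ |C3| * √(N : ℝ) := by
            gcongr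
            exact le_abs_self _
        _ ≤ |C3| * (N : ℝ) ^ (1 - 2 * κ) := by gcongr
    linarith
  have h6 : (C1 + C2) * (N : ℝ) ^ κ * ∑ n ∈ E, vonMangoldt n ≤ η * N := by
    calc (C1 + C2) * (N : ℝ) ^ κ * ∑ n ∈ E, vonMangoldt n
        ≤ (C1 + C2) * (N : ℝ) ^ κ * ((Real.log 4 + 4 + |C3|) * (N : ℝ) ^ (1 - 2 * κ)) := by
          gcongr
      _ = C4 * ((N : ℝ) ^ κ * (N : ℝ) ^ (1 - 2 * κ)) := by rw [hC4]; ring
      _ = C4 * (N : ℝ) ^ (1 - κ) := by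
          rw [← Real.rpow_add hNr]
          congr 2
          ring
      _ = η * (C4 / η) * (N : ℝ) ^ (1 - κ) := by
          field_simp
      _ ≤ η * (N : ℝ) ^ κ * (N : ℝ) ^ (1 - κ) := by gcongr
      _ = η * N := by
          rw [mul_assoc, ← Real.rpow_add hNr]
          have : κ + (1 - κ) = 1 := by ring
          rw [this, Real.rpow_one]
  have h7 : ∑ n ∈ Icc 1 N, vonMangoldt n * ff Q R n =
      L * Chebyshev.psi N + ∑ n ∈ Icc 1 N, vonMangoldt n * (ff Q R n - L) := by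
    rw [← psi_Icc, mul_sum, ← sum_add_distrib]
    refine sum_congr rfl fun n _ => by ring
  have h8 : (1 - η) * N ≤ Chebyshev.psi N := by
    rw [lt_div_iff₀ hNr] at g1
    exact g1.le
  have h9 : L * ((1 - η) * N) ≤ L * Chebyshev.psi N := mul_le_mul_of_nonneg_left h8 hL0
  rw [h7]
  have h10 : N * ((1 - η) * L - η) = L * ((1 - η) * N) - η * N := by ring
  rw [h10]
  linarith

end Pool.Agent.T9h55.VM
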