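import Pool.Agent.T9h55.VM.Ram
import Pool.Agent.H807R2.Dav1

/-!
Bound for the exponential sums of the truncated Ramanujan expansion, uniform in the frequency.
-/

open Finset

namespace Pool.Agent.T9h55.VM

open H343 (ex)
open H343.Gauss (ex_add)
open Pool.Agent.H807R2.Dav

lemma ex_eq_ee (x : ℝ) : ex x = ee x := by
  unfold ex ee
  congr 1
  push_cast
  ring

/-- separation of reduced fractions modulo one -/
lemma frac_sep {q q' b b' D : ℕ} (hq : 1 ≤ q) (hq' : 1 ≤ q') (hqD : q < 2 * D) (hqD' : q' < 2 * D)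
    (hb : b < q) (hb' : b' < q') (hc : b.Coprime q) (hc' : b'.Coprime q') (n : ℤ)
    (h : |(b : ℝ) / q - (b' : ℝ) / q' - n| ≤ 1 / ((4 * D ^ 2 : ℕ) : ℝ)) : q = q' ∧ b = b' := by
  have hq0 : (0 : ℝ) < q := by exact_mod_cast hq
  have hq0' : (0 : ℝ) < q' := by exact_mod_cast hq'
  have hqq : (0 : ℝ) < q * q' := by positivity
  have hD : (0 : ℝ) < D := by
    have : 0 < D := by omega
    exact_mod_cast this
  set z : ℤ := (b : ℤ) * q' - b' * q - n * (q * q') with hz
  have e1 : (b : ℝ) / q - (b' : ℝ) / q' - n = (z : ℝ) / (q * q') := by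
    rw [hz]
    push_cast
    field_simp
  have h1 : (q : ℝ) * q' < 4 * D ^ 2 := by
    have h2 : (q : ℝ) < 2 * D := by exact_mod_cast hqD
    have h3 : (q' : ℝ) < 2 * D := by exact_mod_cast hqD'
    nlinarith
  have h2 : |(z : ℝ)| < 1 := by
    rw [e1, abs_div, abs_of_pos hqq, div_le_iff₀ hqq] at h
    refine lt_of_le_of_lt h ?_
    push_cast
    rw [div_mul_eq_mul_div, one_mul, div_lt_one (by positivity)]
    exact h1
  have h3 : z = 0 := by
    have : |z| < 1 := by exact_mod_cast h2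
    exact Int.abs_lt_one_iff.1 this
  -- n = 0
  have e2 : (b : ℝ) / q - (b' : ℝ) / q' = n := by
    have : (b : ℝ) / q - (b' : ℝ) / q' - n = 0 := by rw [e1, h3]; simp
    linarith
  have hb0 : 0 ≤ (b : ℝ) / q := by positivity
  have hb1 : (b : ℝ) / q < 1 := by
    rw [div_lt_one hq0]
    exact_mod_cast hb
  have hb0' : 0 ≤ (b' : ℝ) / q' := by positivity
  have hb1' : (b' : ℝ) / q' < 1 := by
    rw [div_lt_one hq0']
    exact_mod_cast hb'
  have hn : n = 0 := by
    have h4 : |(n : ℝ)| < 1 := by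
      rw [← e2, abs_lt]
      constructor <;> linarith
    have : |n| < 1 := by exact_mod_cast h4
    exact Int.abs_lt_one_iff.1 this
  have e3 : b * q' = b' * q := by
    have : (b : ℤ) * q' - b' * q - n * (q * q') = 0 := h3
    rw [hn] at this
    have h5 : (b : ℤ) * q' = b' * q := by linarith
    exact_mod_cast h5
  have h6 : q ∣ q' := by
    have : q ∣ b * q' := by rw [e3]; exact Dvd.intro_left b' rfl
    exact hc.symm.dvd_of_dvd_mul_left this
  have h7 : q' ∣ q := by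
    have : q' ∣ b' * q := by rw [← e3]; exact Dvd.intro_left b rfl
    exact hc'.symm.dvd_of_dvd_mul_left this
  have h8 : q = q' := Nat.dvd_antisymm h6 h7
  subst h8
  exact ⟨rfl, Nat.eq_of_mul_eq_mul_right hq e3⟩

/-- pairs (denominator, numerator) of reduced fractions -/
def PB (D : ℕ) : Finset (ℕ × ℕ) :=
  (Ico D (2 * D) ×ˢ range (2 * D)).filter (fun x => x.2 < x.1 ∧ x.2.Coprime x.1)

lemma mem_PB {D q b : ℕ} : (q, b) ∈ PB D ↔ (D ≤ q ∧ q < 2 * D) ∧ b < q ∧ b.Coprime q := by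
  unfold PB
  rw [mem_filter, mem_product, mem_Ico, mem_range]
  constructor
  · rintro ⟨⟨h1, h2⟩, h3⟩
    exact ⟨h1, h3⟩
  · rintro ⟨h1, h2, h3⟩
    simp only
    exact ⟨⟨h1, by omega⟩, h2, h3⟩

/-- index of the cell -/
noncomputable def cell (D : ℕ) (θ : ℝ) (x : ℕ × ℕ) : ℕ :=
  ⌊Int.fract (θ + (x.2 : ℝ) / x.1) * ((4 * D ^ 2 : ℕ) : ℝ)⌋₊

/-- majorant on the cells -/
noncomputable def gj (N W j : ℕ) : ℝ :=
  (if j = 0 then 3 * (N : ℝ) else 0) + (if j = W - 1 then 3 * (N : ℝ) else 0) +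
    3 * W / 4 * (1 / (j : ℝ)) + 3 * W / 4 * (1 / ((W - 1 - j : ℕ) : ℝ))

lemma gj_nonneg (N W j : ℕ) : 0 ≤ gj N W j := by
  unfold gj
  have h1 : 0 ≤ (if j = 0 then 3 * (N : ℝ) else 0) := by split_ifs <;> positivity
  have h2 : 0 ≤ (if j = W - 1 then 3 * (N : ℝ) else 0) := by split_ifs <;> positivity
  positivity

lemma cell_lt (D : ℕ) (hD : 1 ≤ D) (θ : ℝ) (x : ℕ × ℕ) : cell D θ x < 4 * D ^ 2 := by
  unfold cell
  have hW : (0 : ℝ) < ((4 * D ^ 2 : ℕ) : ℝ) := by
    have : 0 < 4 * D ^ 2 := by positivity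
    exact_mod_cast this
  rw [Nat.floor_lt (mul_nonneg (Int.fract_nonneg _) hW.le)]
  have := Int.fract_lt_one (θ + (x.2 : ℝ) / x.1)
  nlinarith

lemma cell_inj (D : ℕ) (hD : 1 ≤ D) (θ : ℝ) : Set.InjOn (cell D θ) (PB D : Set (ℕ × ℕ)) := by
  rintro ⟨q, b⟩ hx ⟨q', b'⟩ hx' h
  obtain ⟨⟨h1, h2⟩, h3, h4⟩ := mem_PB.1 (mem_coe.1 hx)
  obtain ⟨⟨h1', h2'⟩, h3', h4'⟩ := mem_PB.1 (mem_coe.1 hx')
  set W : ℝ := ((4 * D ^ 2 : ℕ) : ℝ) with hW
  have hW0 : 0 < W := by
    have : 0 < 4 * D ^ 2 := by positivity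
    rw [hW]
    exact_mod_cast this
  set t := Int.fract (θ + (b : ℝ) / q) with ht
  set t' := Int.fract (θ + (b' : ℝ) / q') with ht'
  unfold cell at h
  simp only at h
  rw [← ht, ← ht', ← hW] at h
  have a1 := Nat.floor_le (mul_nonneg (Int.fract_nonneg (θ + (b : ℝ) / q)) hW0.le)
  have a2 := Nat.lt_floor_add_one (t * W)
  have a3 := Nat.floor_le (mul_nonneg (Int.fract_nonneg (θ + (b' : ℝ) / q')) hW0.le)
  have a4 := Nat.lt_floor_add_one (t' * W)
  rw [← ht] at a1
  rw [← ht'] at a3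
  rw [h] at a1 a2
  have h5 : |(t - t') * W| < 1 := by
    rw [sub_mul, abs_lt]
    constructor <;> linarith
  have h6 : |t - t'| ≤ 1 / W := by
    rw [abs_mul, abs_of_pos hW0] at h5
    rw [le_div_iff₀ hW0]
    exact h5.le
  have e1 : (b : ℝ) / q - (b' : ℝ) / q' -
      ((⌊θ + (b : ℝ) / q⌋ - ⌊θ + (b' : ℝ) / q'⌋ : ℤ) : ℝ) = t - t' := by
    rw [ht, ht', Int.fract, Int.fract]
    push_cast
    ring
  rw [← e1] at h6
  obtain ⟨r1, r2⟩ := frac_sep (by omega) (by omega) h2 h2' h3 h3' h4 h4' _ h6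
  rw [r1, r2]

lemma KK_cell (N D : ℕ) (hD : 1 ≤ D) (θ : ℝ) (x : ℕ × ℕ) :
    KK N (θ + (x.2 : ℝ) / x.1) ≤ gj N (4 * D ^ 2) (cell D θ x) := by
  set W : ℕ := 4 * D ^ 2 with hW
  have hWn : 4 ≤ W := by
    rw [hW]
    have : 1 ≤ D ^ 2 := Nat.one_le_pow _ _ hD
    omega
  have hW0 : (0 : ℝ) < W := by exact_mod_cast (by omega : 0 < W)
  have hlt : cell D θ x < W := cell_lt D hD θ x
  set j := cell D θ x with hj
  set u := θ + (x.2 : ℝ) / x.1 with hu
  set t := Int.fract u with ht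
  have hN : (0 : ℝ) ≤ N := by positivity
  by_cases h0 : j = 0
  · unfold gj
    rw [if_pos h0]
    have h1 := KK_le hN u
    have h2 : 0 ≤ (if j = W - 1 then 3 * (N : ℝ) else 0) := by split_ifs <;> positivity
    have h3 : 0 ≤ 3 * (W : ℝ) / 4 * (1 / (j : ℝ)) := by positivity
    have h4 : 0 ≤ 3 * (W : ℝ) / 4 * (1 / ((W - 1 - j : ℕ) : ℝ)) := by positivity
    linarith
  · by_cases h1 : j = W - 1
    · unfold gj
      rw [if_pos h1]
      have h1 := KK_le hN u
      have h2 : 0 ≤ (if j = 0 then 3 * (N : ℝ) else 0) := by split_ifs <;> positivity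
      have h3 : 0 ≤ 3 * (W : ℝ) / 4 * (1 / (j : ℝ)) := by positivity
      have h4 : 0 ≤ 3 * (W : ℝ) / 4 * (1 / ((W - 1 - j : ℕ) : ℝ)) := by positivity
      linarith
    · have a1 : (j : ℝ) ≤ t * W := by
        rw [hj]
        unfold cell
        rw [← hW, ← hu, ← ht]
        exact Nat.floor_le (mul_nonneg (Int.fract_nonneg u) hW0.le)
      have a2 : t * W < j + 1 := by
        rw [hj]
        unfold cell
        rw [← hW, ← hu, ← ht]
        exact Nat.lt_floor_add_one _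
      have a3 : (j : ℝ) / W ≤ t := by rwa [div_le_iff₀ hW0]
      have hcast : ((W - 1 - j : ℕ) : ℝ) = (W : ℝ) - 1 - j := by
        rw [Nat.cast_sub (by omega), Nat.cast_sub (by omega)]
        simp
      have a4 : ((W - 1 - j : ℕ) : ℝ) / W ≤ 1 - t := by
        rw [div_le_iff₀ hW0, hcast]
        linarith
      have hj1 : (1 : ℝ) ≤ j := by exact_mod_cast (by omega : 1 ≤ j)
      have hj2 : (1 : ℝ) ≤ ((W - 1 - j : ℕ) : ℝ) := by exact_mod_cast (by omega : 1 ≤ W - 1 - j)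
      have hdd : dd u = dd t := by
        have : u = t + (⌊u⌋ : ℤ) := by
          rw [ht]
          exact (Int.fract_add_floor u).symm
        rw [this, dd_add_int]
      have hge : 4 * min t (1 - t) ≤ dd u := by
        rw [hdd]
        exact dd_ge (Int.fract_nonneg u) (Int.fract_lt_one u).le
      set m : ℝ := min ((j : ℝ) / W) (((W - 1 - j : ℕ) : ℝ) / W) with hm
      have hm0 : 0 < m := lt_min (by positivity) (by positivity)
      have hmt : 4 * m ≤ dd u := by
        refine le_trans ?_ hge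
        apply mul_le_mul_of_nonneg_left _ (by norm_num)
        exact min_le_min a3 a4
      have h3 := KK_le' (M := (N : ℝ)) (x := u) hN (by positivity : 0 < 4 * m) hmt
      refine h3.trans ?_
      unfold gj
      rw [if_neg h0, if_neg h1, zero_add, zero_add]
      rcases min_cases ((j : ℝ) / W) (((W - 1 - j : ℕ) : ℝ) / W) with ⟨h4, _⟩ | ⟨h4, _⟩
      · rw [hm, h4]
        have h5 : 3 / (4 * ((j : ℝ) / W)) = 3 * W / 4 * (1 / (j : ℝ)) := by
          field_simp
        rw [h5]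
        have : 0 ≤ 3 * (W : ℝ) / 4 * (1 / ((W - 1 - j : ℕ) : ℝ)) := by positivity
        linarith
      · rw [hm, h4]
        have h5 : 3 / (4 * (((W - 1 - j : ℕ) : ℝ) / W)) =
            3 * W / 4 * (1 / ((W - 1 - j : ℕ) : ℝ)) := by
          field_simp
        rw [h5]
        have : 0 ≤ 3 * (W : ℝ) / 4 * (1 / (j : ℝ)) := by positivity
        linarith

lemma sum_gj (N W : ℕ) (hW : 1 ≤ W) :
    ∑ j ∈ range W, gj N W j ≤ 6 * N + 3 * W / 2 * (1 + Real.log W) := by
  unfold gj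
  rw [sum_add_distrib, sum_add_distrib, sum_add_distrib, ← mul_sum, ← mul_sum,
    sum_ite_eq', sum_ite_eq', if_pos (mem_range.2 (by omega)), if_pos (mem_range.2 (by omega))]
  have h1 := sum_inv_range W
  have h2 : ∑ j ∈ range W, (1 / ((W - 1 - j : ℕ) : ℝ)) = ∑ j ∈ range W, (1 / (j : ℝ)) :=
    sum_range_reflect (fun j => 1 / (j : ℝ)) W
  rw [h2]
  have h3 : 3 * (W : ℝ) / 4 * ∑ j ∈ range W, (1 / (j : ℝ)) ≤ 3 * W / 4 * (1 + Real.log W) :=
    mul_le_mul_of_nonneg_left h1 (by positivity)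
  linarith

lemma sum_PB (N D : ℕ) (hD : 1 ≤ D) (θ : ℝ) :
    ∑ x ∈ PB D, KK N (θ + (x.2 : ℝ) / x.1) ≤
      6 * N + 6 * D ^ 2 * (1 + Real.log ((4 * D ^ 2 : ℕ) : ℝ)) := by
  refine (sum_le_sum fun x _ => KK_cell N D hD θ x).trans ?_
  rw [← sum_image (f := gj N (4 * D ^ 2)) (cell_inj D hD θ)]
  have h1 : (PB D).image (cell D θ) ⊆ range (4 * D ^ 2) := by
    intro j hj
    rw [mem_image] at hj
    obtain ⟨x, _, rfl⟩ := hj
    exact mem_range.2 (cell_lt D hD θ x)
  refine (sum_le_sum_of_subset_of_nonneg h1 fun j _ _ => gj_nonneg N _ j).trans ?_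
  refine (sum_gj N (4 * D ^ 2) ?_).trans (le_of_eq ?_)
  · have : 1 ≤ D ^ 2 := Nat.one_le_pow _ _ hD
    omega
  · push_cast
    ring

lemma es_ff (N Q R : ℕ) (θ : ℝ) : es N (ff Q R) θ =
    ∑ q ∈ H343.Mod Q R, ((mu q / ph q : ℝ) : ℂ) * ∑ b ∈ (range q).filter (fun b => b.Coprime q),
      ∑ m ∈ Ico 1 (N + 1), ee (m * (θ + (b : ℝ) / q)) := by
  unfold es ff
  push_cast
  simp only [sum_mul]
  rw [sum_comm]
  refine sum_congr rfl fun q hq => ?_
  have hq1 := mem_Mod_one hq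
  rw [sum_comm, mul_sum]
  have hI : Icc 1 N = Ico 1 (N + 1) := by
    ext x
    rw [mem_Icc, mem_Ico]
    omega
  rw [hI]
  refine sum_congr rfl fun m _ => ?_
  rw [← cq_exp q m hq1, mul_assoc, sum_mul]
  congr 1
  refine sum_congr rfl fun b _ => ?_
  rw [← ex_add, ex_eq_ee]
  congr 1
  ring

lemma es_ff_le (N Q R : ℕ) (θ : ℝ) : ‖es N (ff Q R) θ‖ ≤
    ∑ q ∈ H343.Mod Q R, (1 / ph q) * ∑ b ∈ (range q).filter (fun b => b.Coprime q),
      KK N (θ + (b : ℝ) / q) := by
  rw [es_ff]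
  refine (norm_sum_le _ _).trans (sum_le_sum fun q hq => ?_)
  have hp := ph_pos (mem_Mod_one hq)
  rw [norm_mul, Complex.norm_real, Real.norm_eq_abs, abs_div, abs_of_pos hp]
  apply mul_le_mul (div_le_div_of_nonneg_right (mu_abs q) hp.le) _ (norm_nonneg _) (by positivity)
  refine (norm_sum_le _ _).trans (sum_le_sum fun b _ => ?_)
  exact geo_bound 1 (N + 1) (by omega) (by push_cast; linarith) _

/-- the uniform bound -/
theorem sup_bound (δ : ℝ) (hδ : 0 < δ) : ∃ C : ℝ, 0 < C ∧ ∀ (N Q R : ℕ) (θ : ℝ), 1 ≤ R →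
    ‖es N (ff Q R) θ‖ ≤ C * (R : ℝ) ^ δ * ((N : ℝ) / ((Q + 1 : ℕ) : ℝ) + R) := by
  obtain ⟨c, hc, hphi⟩ := H343.phi_bound (δ / 2) (by positivity)
  -- logarithms
  have hlog : ∃ C1 : ℝ, 0 < C1 ∧ ∀ R : ℕ, 1 ≤ R →
      ((Nat.log 2 R + 1 : ℕ) : ℝ) * (6 + 6 * (1 + Real.log ((4 * R ^ 2 : ℕ) : ℝ))) ≤
        C1 * (R : ℝ) ^ (δ / 2) := by
    have h1 : ∀ R : ℕ, 1 ≤ R → Real.log R ≤ (4 / δ) * (R : ℝ) ^ (δ / 4) := by
      intro R hR
      have h2 := Real.log_le_rpow_div (x := (R : ℝ)) (by positivity) (by positivity : 0 < δ / 4)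
      calc Real.log R ≤ (R : ℝ) ^ (δ / 4) / (δ / 4) := h2
        _ = (4 / δ) * (R : ℝ) ^ (δ / 4) := by field_simp
    refine ⟨(1 + 2 * (4 / δ)) * (24 + 12 * (4 / δ)), by positivity, fun R hR => ?_⟩
    have hR1 : (1 : ℝ) ≤ R := by exact_mod_cast hR
    have hR0 : (0 : ℝ) < R := by linarith
    set L := Real.log R with hL
    have hL0 : 0 ≤ L := Real.log_nonneg hR1
    have hP : 1 ≤ (R : ℝ) ^ (δ / 4) := Real.one_le_rpow hR1 (by positivity)
    have h2 := h1 R hR
    rw [← hL] at h2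
    have h3 : ((Nat.log 2 R + 1 : ℕ) : ℝ) ≤ 1 + 2 * L := by
      have hl2 : 1 / 2 < Real.log 2 := by
        have := Real.log_two_gt_d9
        linarith
      have h6 : ((Nat.log 2 R : ℕ) : ℝ) * Real.log 2 ≤ L := by
        have h7 : (2 : ℝ) ^ (Nat.log 2 R) ≤ R := by
          exact_mod_cast Nat.pow_log_le_self 2 (by omega)
        have h8 := Real.log_le_log (by positivity) h7
        rwa [Real.log_pow] at h8
      have hn0 : (0 : ℝ) ≤ ((Nat.log 2 R : ℕ) : ℝ) := by positivity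
      push_cast
      nlinarith
    have h4 : Real.log ((4 * R ^ 2 : ℕ) : ℝ) ≤ 2 + 2 * L := by
      push_cast
      rw [Real.log_mul (by norm_num) (by positivity), Real.log_pow]
      have : Real.log 4 ≤ 2 := by
        have h5 : Real.log 4 = 2 * Real.log 2 := by
          rw [show (4 : ℝ) = 2 ^ 2 by norm_num, Real.log_pow]
          norm_num
        have h6 := Real.log_two_lt_d9
        linarith
      push_cast
      linarith
    have h5 : 1 + 2 * L ≤ (1 + 2 * (4 / δ)) * (R : ℝ) ^ (δ / 4) := by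
      have : (1 + 2 * (4 / δ)) * (R : ℝ) ^ (δ / 4) =
        (R : ℝ) ^ (δ / 4) + 2 * ((4 / δ) * (R : ℝ) ^ (δ / 4)) := by ring
      rw [this]
      linarith
    have h6 : 6 + 6 * (1 + Real.log ((4 * R ^ 2 : ℕ) : ℝ)) ≤
        (24 + 12 * (4 / δ)) * (R : ℝ) ^ (δ / 4) := by
      have : (24 + 12 * (4 / δ)) * (R : ℝ) ^ (δ / 4) =
        24 * (R : ℝ) ^ (δ / 4) + 12 * ((4 / δ) * (R : ℝ) ^ (δ / 4)) := by ring
      rw [this]
      linarith
    have h7 : 0 ≤ Real.log ((4 * R ^ 2 : ℕ) : ℝ) := Real.log_natCast_nonneg _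
    calc ((Nat.log 2 R + 1 : ℕ) : ℝ) * (6 + 6 * (1 + Real.log ((4 * R ^ 2 : ℕ) : ℝ)))
        ≤ ((1 + 2 * (4 / δ)) * (R : ℝ) ^ (δ / 4)) *
            ((24 + 12 * (4 / δ)) * (R : ℝ) ^ (δ / 4)) := by
          apply mul_le_mul (h3.trans h5) h6 (by positivity) (by positivity)
      _ = (1 + 2 * (4 / δ)) * (24 + 12 * (4 / δ)) *
            ((R : ℝ) ^ (δ / 4) * (R : ℝ) ^ (δ / 4)) := by ring
      _ = _ := by
          rw [← Real.rpow_add hR0]
          congr 2
          ring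
  obtain ⟨C1, hC1, hlog⟩ := hlog
  refine ⟨1 / c * C1, by positivity, fun N Q R θ hR => ?_⟩
  have hR1 : (1 : ℝ) ≤ R := by exact_mod_cast hR
  have hR0 : (0 : ℝ) < R := by linarith
  refine (es_ff_le N Q R θ).trans ?_
  set Q' : ℕ := Q + 1 with hQ'
  have hQ0 : (0 : ℝ) < Q' := by positivity
  set X : ℝ := (N : ℝ) / Q' + R with hX
  have hX0 : 0 ≤ X := by positivity
  set w : ℕ → ℝ := fun q => (1 / ph q) * ∑ b ∈ (range q).filter (fun b => b.Coprime q),
      KK N (θ + (b : ℝ) / q) with hw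
  have hmap : ∀ q ∈ H343.Mod Q R, Nat.log 2 (q / Q') ∈ range (Nat.log 2 R + 1) := by
    intro q hq
    have h1 := (mem_Mod.1 hq).1.2
    rw [mem_range]
    have : Nat.log 2 (q / Q') ≤ Nat.log 2 R := Nat.log_mono_right ((Nat.div_le_self _ _).trans h1)
    omega
  rw [← sum_fiberwise_of_maps_to hmap]
  have hblock : ∀ i ∈ range (Nat.log 2 R + 1),
      ∑ q ∈ (H343.Mod Q R).filter (fun q => Nat.log 2 (q / Q') = i), w q ≤
      1 / c * (R : ℝ) ^ (δ / 2) * ((6 + 6 * (1 + Real.log ((4 * R ^ 2 : ℕ) : ℝ))) * X) := by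
    intro i _
    have hlog0 : 0 ≤ Real.log ((4 * R ^ 2 : ℕ) : ℝ) := Real.log_natCast_nonneg _
    rcases (filter (fun q => Nat.log 2 (q / Q') = i) (H343.Mod Q R)).eq_empty_or_nonempty
      with hE | ⟨q0, hq0⟩
    · rw [hE, sum_empty]
      positivity
    · set D : ℕ := 2 ^ i * Q' with hD
      have hD1 : 1 ≤ D := by
        rw [hD]
        have : 1 ≤ 2 ^ i := Nat.one_le_two_pow
        nlinarith
      have hDr : (0 : ℝ) < D := by exact_mod_cast hD1
      have hmem : ∀ q ∈ (H343.Mod Q R).filter (fun q => Nat.log 2 (q / Q') = i),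
          D ≤ q ∧ q < 2 * D ∧ 1 ≤ q ∧ q ≤ R := by
        intro q hq
        rw [mem_filter] at hq
        have h1 := mem_Mod.1 hq.1
        have h2 : 1 ≤ q / Q' := Nat.div_pos (by omega) (by omega)
        have h3 : 2 ^ i ≤ q / Q' := by
          rw [← hq.2]
          exact Nat.pow_log_le_self 2 (by omega)
        have h4 : q / Q' < 2 ^ (i + 1) := by
          rw [← hq.2]
          exact Nat.lt_pow_succ_log_self (by norm_num) _
        have h5 := (Nat.le_div_iff_mul_le (by omega : 0 < Q')).1 h3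
        have h6 := (Nat.div_lt_iff_lt_mul (by omega : 0 < Q')).1 h4
        refine ⟨h5, ?_, by omega, h1.1.2⟩
        calc q < 2 ^ (i + 1) * Q' := h6
          _ = 2 * D := by rw [hD, pow_succ]; ring
      have hDR : D ≤ R := by
        have := hmem q0 hq0
        omega
      have hDRr : (D : ℝ) ≤ R := by exact_mod_cast hDR
      have hQD : (Q' : ℝ) ≤ D := by
        have : Q' ≤ D := by
          rw [hD]
          exact Nat.le_mul_of_pos_left _ (by positivity)
        exact_mod_cast this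
      have h1 : ∀ q ∈ (H343.Mod Q R).filter (fun q => Nat.log 2 (q / Q') = i), w q ≤
          (1 / c * (R : ℝ) ^ (δ / 2) / D) *
            ∑ b ∈ (range q).filter (fun b => b.Coprime q), KK N (θ + (b : ℝ) / q) := by
        intro q hq
        obtain ⟨h2, h3, h4, h5⟩ := hmem q hq
        apply mul_le_mul_of_nonneg_right _ (sum_nonneg fun b _ => KK_nonneg (by positivity) _)
        have h6 := hphi q h4
        have hq0 : (0 : ℝ) < q := by exact_mod_cast h4
        have h7 : c * (q : ℝ) ^ (1 - δ / 2) ≤ ph q := h6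
        have h8 : (D : ℝ) ≤ q := by exact_mod_cast h2
        have h9 : (q : ℝ) ≤ R := by exact_mod_cast h5
        calc 1 / ph q ≤ 1 / (c * (q : ℝ) ^ (1 - δ / 2)) := by
              apply div_le_div_of_nonneg_left (by norm_num) (by positivity) h7
          _ = 1 / c * (q : ℝ) ^ (δ / 2) / q := by
              rw [Real.rpow_sub hq0, Real.rpow_one]
              field_simp
          _ ≤ 1 / c * (R : ℝ) ^ (δ / 2) / D := by gcongr
      refine (sum_le_sum h1).trans ?_
      rw [← mul_sum]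
      have h2 : ∑ q ∈ (H343.Mod Q R).filter (fun q => Nat.log 2 (q / Q') = i),
          ∑ b ∈ (range q).filter (fun b => b.Coprime q), KK N (θ + (b : ℝ) / q) ≤
          ∑ x ∈ PB D, KK N (θ + (x.2 : ℝ) / x.1) := by
        have h3 : ∑ x ∈ PB D, KK N (θ + (x.2 : ℝ) / x.1) =
            ∑ q ∈ Ico D (2 * D), ∑ b ∈ (range q).filter (fun b => b.Coprime q),
              KK N (θ + (b : ℝ) / q) := by
          unfold PB
          rw [sum_filter, sum_product]
          refine sum_congr rfl fun q hq => ?_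
          rw [mem_Ico] at hq
          rw [← sum_filter]
          apply sum_congr _ fun _ _ => rfl
          ext b
          simp only [mem_filter, mem_range]
          constructor
          · rintro ⟨_, h3, h4⟩
            exact ⟨h3, h4⟩
          · rintro ⟨h3, h4⟩
            exact ⟨by omega, h3, h4⟩
        rw [h3]
        apply sum_le_sum_of_subset_of_nonneg
        · intro q hq
          have := hmem q hq
          rw [mem_Ico]
          exact ⟨this.1, this.2.1⟩
        · intro q _ _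
          exact sum_nonneg fun b _ => KK_nonneg (by positivity) _
      have h3 := h2.trans (sum_PB N D hD1 θ)
      have h4 : Real.log ((4 * D ^ 2 : ℕ) : ℝ) ≤ Real.log ((4 * R ^ 2 : ℕ) : ℝ) := by
        apply Real.log_le_log
        · have : 0 < 4 * D ^ 2 := by positivity
          exact_mod_cast this
        · have : 4 * D ^ 2 ≤ 4 * R ^ 2 := Nat.mul_le_mul_left _ (Nat.pow_le_pow_left hDR 2)
          exact_mod_cast this
      set lg := Real.log ((4 * R ^ 2 : ℕ) : ℝ) with hlg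
      calc (1 / c * (R : ℝ) ^ (δ / 2) / D) *
            ∑ q ∈ (H343.Mod Q R).filter (fun q => Nat.log 2 (q / Q') = i),
              ∑ b ∈ (range q).filter (fun b => b.Coprime q), KK N (θ + (b : ℝ) / q)
          ≤ (1 / c * (R : ℝ) ^ (δ / 2) / D) * (6 * N + 6 * D ^ 2 * (1 + lg)) := by
            apply mul_le_mul_of_nonneg_left _ (by positivity)
            refine h3.trans ?_
            have : 6 * (D : ℝ) ^ 2 * (1 + Real.log ((4 * D ^ 2 : ℕ) : ℝ)) ≤
                6 * (D : ℝ) ^ 2 * (1 + lg) := by gcongr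
            linarith
        _ = 1 / c * (R : ℝ) ^ (δ / 2) * (6 * (N / D) + 6 * (1 + lg) * D) := by
            field_simp
        _ ≤ 1 / c * (R : ℝ) ^ (δ / 2) * ((6 + 6 * (1 + lg)) * X) := by
            apply mul_le_mul_of_nonneg_left _ (by positivity)
            have h5 : (N : ℝ) / D ≤ N / Q' := by
              apply div_le_div_of_nonneg_left (by positivity) hQ0 hQD
            have h6 : (N : ℝ) / D ≤ X := by
              rw [hX]
              linarith
            have h7 : (D : ℝ) ≤ X := by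
              rw [hX]
              have : 0 ≤ (N : ℝ) / Q' := by positivity
              linarith
            have h8 : 6 * (1 + lg) * D ≤ 6 * (1 + lg) * X := by gcongr
            linarith
  refine (sum_le_sum hblock).trans ?_
  rw [sum_const, card_range, nsmul_eq_mul]
  have h5 := hlog R hR
  calc ((Nat.log 2 R + 1 : ℕ) : ℝ) * (1 / c * (R : ℝ) ^ (δ / 2) *
        ((6 + 6 * (1 + Real.log ((4 * R ^ 2 : ℕ) : ℝ))) * X))
      = 1 / c * (R : ℝ) ^ (δ / 2) * (((Nat.log 2 R + 1 : ℕ) : ℝ) *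
        (6 + 6 * (1 + Real.log ((4 * R ^ 2 : ℕ) : ℝ)))) * X := by ring
    _ ≤ 1 / c * (R : ℝ) ^ (δ / 2) * (C1 * (R : ℝ) ^ (δ / 2)) * X := by gcongr
    _ = 1 / c * C1 * ((R : ℝ) ^ (δ / 2) * (R : ℝ) ^ (δ / 2)) * X := by ring
    _ = 1 / c * C1 * (R : ℝ) ^ δ * X := by
        rw [← Real.rpow_add hR0]
        congr 3
        ring

end Pool.Agent.T9h55.VM
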