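import Pool.Agent.T9h55.VM.Maximal
import Pool.Agent.T9h55.VM.Sup
import Pool.Agent.T9h55.VM.Diag

/-!
The number of moduli with a large off-diagonal part.
-/

open Finset

namespace Pool.Agent.T9h55.VM

open Classical in
theorem bad_count (δ η : ℝ) (hδ : 0 < δ) (hη : 0 < η) : ∃ C : ℝ, 0 < C ∧
    ∀ (K N Q R : ℕ) (a : ℕ → ℝ) (M : ℝ), 1 ≤ K → K ≤ N → 1 ≤ R → R ≤ N → N ≤ (Q + 1) * R →
    (∀ n ∈ Icc 1 (2 * N), |a n| ≤ M) →
    (((Ioc K (2 * K)).filter
      (fun k => ∃ T ≤ 2 * N, η * N < |off a (ff Q R) T N k|)).card : ℝ) ≤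
      C * M ^ 2 * (N : ℝ) ^ δ * R ^ 2 / K := by
  obtain ⟨C1, hC1, h1⟩ := sup_bound (δ / 5) (by positivity)
  obtain ⟨C2, hC2, h2⟩ := tau_small (δ / 5) (by positivity)
  obtain ⟨C3, hC3, h3⟩ := one_add_log_le (δ / 5) (by positivity)
  refine ⟨6 * (5 * C3) ^ 2 * C2 * (2 * C1) ^ 2 / η ^ 2, by positivity,
    fun K N Q R a M hK hKN hR hRN hQ ha => ?_⟩
  have hN1 : 1 ≤ N := hK.trans hKN
  have hNr : (0 : ℝ) < N := by exact_mod_cast hN1
  have hNr1 : (1 : ℝ) ≤ N := by exact_mod_cast hN1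
  have hKr : (0 : ℝ) < K := by exact_mod_cast hK
  have hRr : (0 : ℝ) < R := by exact_mod_cast hR
  have hRNr : (R : ℝ) ≤ N := by exact_mod_cast hRN
  set τ : ℕ → ℕ := fun k => if h : ∃ T ≤ 2 * N, η * N < |off a (ff Q R) T N k| then
    Classical.choose h else 0 with hτdef
  have hτ : ∀ k, τ k ≤ 2 * N := by
    intro k
    simp only [hτdef]
    split_ifs with h
    · exact (Classical.choose_spec h).1
    · omega
  set L : ℕ := Nat.log 2 (2 * N + 1) + 1 with hL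
  have hL2 : 2 * N + 1 < 2 ^ L := Nat.lt_pow_succ_log_self (by norm_num) _
  -- sup bound
  set B : ℝ := 2 * C1 * (R : ℝ) ^ (1 + δ / 5) with hB
  have hBs : ∀ t : ℝ, ‖es N (ff Q R) t‖ ≤ B := by
    intro t
    refine (h1 N Q R t hR).trans ?_
    have h4 : (N : ℝ) / ((Q + 1 : ℕ) : ℝ) ≤ R := by
      rw [div_le_iff₀ (by positivity)]
      have : ((N : ℕ) : ℝ) ≤ (((Q + 1) * R : ℕ) : ℝ) := by exact_mod_cast hQ
      push_cast at this ⊢
      linarith
    calc C1 * (R : ℝ) ^ (δ / 5) * ((N : ℝ) / ((Q + 1 : ℕ) : ℝ) + R)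
        ≤ C1 * (R : ℝ) ^ (δ / 5) * (R + R) := by gcongr
      _ = B := by
          rw [hB, Real.rpow_add hRr, Real.rpow_one]
          ring
  set Tt : ℝ := C2 * (N : ℝ) ^ (δ / 5) with hTt
  have hT : ∀ j : ℕ, 1 ≤ j → j ≤ 2 * N + N → (j.divisors.card : ℝ) ≤ Tt := by
    intro j hj hj'
    exact h2 N j hj (by omega)
  have h4 := off_max a (ff Q R) (2 * N) N K L hN1 hK B Tt hBs hT hL2 τ hτ
  -- lower bound
  set S := (Ioc K (2 * K)).filter (fun k => ∃ T ≤ 2 * N, η * N < |off a (ff Q R) T N k|) with hS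
  have h5 : (S.card : ℝ) * (η * N) ^ 2 ≤ ∑ k ∈ Ioc K (2 * K), off a (ff Q R) (τ k) N k ^ 2 := by
    calc (S.card : ℝ) * (η * N) ^ 2 = ∑ k ∈ S, (η * N) ^ 2 := by
          rw [sum_const, nsmul_eq_mul]
      _ ≤ ∑ k ∈ S, off a (ff Q R) (τ k) N k ^ 2 := by
          refine sum_le_sum fun k hk => ?_
          rw [hS, mem_filter] at hk
          have h6 : η * N < |off a (ff Q R) (τ k) N k| := by
            simp only [hτdef]
            rw [dif_pos hk.2]
            exact (Classical.choose_spec hk.2).2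
          rw [← sq_abs (off a (ff Q R) (τ k) N k)]
          exact pow_le_pow_left₀ (by positivity) h6.le 2
      _ ≤ ∑ k ∈ Ioc K (2 * K), off a (ff Q R) (τ k) N k ^ 2 :=
          sum_le_sum_of_subset_of_nonneg (filter_subset _ _) fun _ _ _ => sq_nonneg _
  have h6 : ∑ n ∈ Icc 1 (2 * N), a n ^ 2 ≤ 2 * N * M ^ 2 := by
    refine (sum_le_sum (g := fun _ => M ^ 2) fun n hn => ?_).trans ?_
    · rw [← sq_abs]
      exact pow_le_pow_left₀ (abs_nonneg _) (ha n hn) 2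
    · rw [sum_const, Nat.card_Icc, nsmul_eq_mul, Nat.add_sub_cancel]
      push_cast
      exact le_rfl
  have hLr : (L : ℝ) ≤ 5 * C3 * (N : ℝ) ^ (δ / 5) := by
    have hl2 : 1 / 2 < Real.log 2 := by
      have := Real.log_two_gt_d9
      linarith
    have h7 : ((Nat.log 2 (2 * N + 1) : ℕ) : ℝ) * Real.log 2 ≤
        Real.log ((2 * N + 1 : ℕ) : ℝ) := by
      have h7 : (2 : ℝ) ^ (Nat.log 2 (2 * N + 1)) ≤ ((2 * N + 1 : ℕ) : ℝ) := by
        exact_mod_cast Nat.pow_log_le_self 2 (by omega)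
      have h8 := Real.log_le_log (by positivity) h7
      rwa [Real.log_pow] at h8
    have h8 : Real.log ((2 * N + 1 : ℕ) : ℝ) ≤ 2 + Real.log N := by
      have h9 : ((2 * N + 1 : ℕ) : ℝ) ≤ 4 * N := by
        push_cast
        linarith
      have h10 : Real.log 4 ≤ 2 := by
        have h5 : Real.log 4 = 2 * Real.log 2 := by
          rw [show (4 : ℝ) = 2 ^ 2 by norm_num, Real.log_pow]
          norm_num
        have h6 := Real.log_two_lt_d9
        linarith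
      have h11 := Real.log_le_log (by positivity) h9
      rw [Real.log_mul (by norm_num) (by positivity)] at h11
      linarith
    have hn0 : (0 : ℝ) ≤ ((Nat.log 2 (2 * N + 1) : ℕ) : ℝ) := by positivity
    have h9 := h3 N hN1
    have h10 : 0 ≤ Real.log N := Real.log_natCast_nonneg N
    rw [hL]
    push_cast
    nlinarith
  -- conclusion
  have h7 : (S.card : ℝ) * (η * N) ^ 2 ≤ (5 * C3 * (N : ℝ) ^ (δ / 5)) ^ 2 *
      ((3 * N) / K * Tt * (B ^ 2 * (2 * N * M ^ 2))) := by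
    refine h5.trans (h4.trans ?_)
    have e1 : ((2 * N + N : ℕ) : ℝ) = 3 * N := by push_cast; ring
    rw [e1]
    gcongr
  have hBN : B ≤ 2 * C1 * (R * (N : ℝ) ^ (δ / 5)) := by
    rw [hB, Real.rpow_add hRr, Real.rpow_one]
    gcongr
  have h8 : (S.card : ℝ) * (η * N) ^ 2 ≤
      (6 * (5 * C3) ^ 2 * C2 * (2 * C1) ^ 2 / η ^ 2 * M ^ 2 * (N : ℝ) ^ δ * R ^ 2 / K) *
        (η * N) ^ 2 := by
    refine h7.trans ?_
    have e2 : (N : ℝ) ^ δ = ((N : ℝ) ^ (δ / 5)) ^ 5 := by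
      rw [← Real.rpow_natCast, ← Real.rpow_mul hNr.le]
      congr 1
      push_cast
      ring
    rw [e2, hTt]
    set P := (N : ℝ) ^ (δ / 5) with hP
    have hP0 : 0 < P := by positivity
    calc (5 * C3 * P) ^ 2 * ((3 * N) / K * (C2 * P) * (B ^ 2 * (2 * N * M ^ 2)))
        ≤ (5 * C3 * P) ^ 2 * ((3 * N) / K * (C2 * P) *
          ((2 * C1 * (R * P)) ^ 2 * (2 * N * M ^ 2))) := by gcongr
      _ = (6 * (5 * C3) ^ 2 * C2 * (2 * C1) ^ 2 / η ^ 2 * M ^ 2 * P ^ 5 * R ^ 2 / K) *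
          (η * N) ^ 2 := by
          field_simp
          ring
  exact le_of_mul_le_mul_right h8 (by positivity)

end Pool.Agent.T9h55.VM
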