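import Pool.Agent.T9h55.VM.Asm

/-!
The lower bound for a good modulus.
-/

open Finset

namespace Pool.Agent.T9h55.VM

open ArithmeticFunction (vonMangoldt vonMangoldt_nonneg)

/-- the truncation parameter -/
noncomputable def RR (κ σ : ℝ) (K : ℕ) : ℕ := ⌊(K : ℝ) ^ ((1 + σ) / 2 - κ)⌋₊

lemma ev_rpow (c s : ℝ) (hs : 0 < s) : ∀ᶠ N : ℕ in Filter.atTop, c ≤ (N : ℝ) ^ s :=
  ((tendsto_rpow_atTop hs).comp tendsto_natCast_atTop_atTop).eventually_ge_atTop _

lemma RR_facts (κ σ : ℝ) (K : ℕ) (hκ : 0 < κ) (hκ4 : κ ≤ 1 / 4) (hσ : 0 ≤ σ) (hσ1 : σ ≤ 1)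
    (hK : 1 ≤ K) (hK2 : 2 ≤ (K : ℝ) ^ (1 / 4 : ℝ)) :
    1 ≤ RR κ σ K ∧ (RR κ σ K : ℝ) ≤ (K : ℝ) ^ (1 - κ) ∧
      (RR κ σ K : ℝ) ≤ (K : ℝ) ^ ((1 + σ) / 2 - κ) ∧
      ((1 + σ) / 2 - κ) * Real.log K - Real.log 2 ≤ Real.log (RR κ σ K) := by
  have hK1 : (1 : ℝ) ≤ K := by exact_mod_cast hK
  have hK0 : (0 : ℝ) < K := by linarith
  set x : ℝ := (K : ℝ) ^ ((1 + σ) / 2 - κ) with hx
  have hx2 : 2 ≤ x := by
    refine hK2.trans ?_
    exact Real.rpow_le_rpow_of_exponent_le hK1 (by linarith)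
  have h1 : (RR κ σ K : ℝ) ≤ x := Nat.floor_le (by linarith)
  have h2 : x / 2 ≤ RR κ σ K := by
    have := Nat.lt_floor_add_one x
    have h3 : x < (RR κ σ K : ℝ) + 1 := this
    linarith
  refine ⟨?_, h1.trans (Real.rpow_le_rpow_of_exponent_le hK1 (by linarith)), h1, ?_⟩
  · have : (1 : ℝ) ≤ RR κ σ K := by linarith
    exact_mod_cast this
  · have h3 := Real.log_le_log (by linarith) h2
    rw [Real.log_div (by linarith) (by norm_num), hx, Real.log_rpow hK0] at h3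
    exact h3

lemma div_sqrt_le (N K : ℝ) (hK : 0 < K) (hN : 0 < N) (h : N ≤ 4 * K ^ 2) :
    N / K ≤ 2 * √N := by
  have h5 : √N ≤ 2 * K := by
    rw [Real.sqrt_le_left (by positivity)]
    calc N ≤ 4 * K ^ 2 := h
      _ = (2 * K) ^ 2 := by ring
  rw [div_le_iff₀ hK]
  calc N = √N * √N := (Real.mul_self_sqrt hN.le).symm
    _ ≤ √N * (2 * K) := mul_le_mul_of_nonneg_left h5 (Real.sqrt_nonneg _)
    _ = 2 * √N * K := by ring

theorem core (ε : ℝ) (hε : 0 < ε) (hε1 : ε ≤ 1) : ∃ κ η : ℝ, 0 < κ ∧ κ ≤ 1 / 16 ∧ 0 < η ∧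
    η ≤ 1 / 4 ∧ ∃ K0 : ℕ, ∀ (K N k : ℕ) (σ X : ℝ), K0 ≤ K → 0 ≤ σ → σ ≤ 1 → K ≤ N →
    K < k → k ≤ 2 * K → (N : ℝ) ≤ X → X ≤ (1 + 2 * η) * N →
    (∀ T ≤ 2 * N, |off vonMangoldt (ff (N / RR κ σ K) (RR κ σ K)) T N k| ≤ η * N) →
    |off (ff (N / RR κ σ K) (RR κ σ K)) (ff (N / RR κ σ K) (RR κ σ K)) N N k| ≤ η * N →
    X * ((1 + σ) * Real.log k - Real.log X - ε * Real.log X) ≤ GG X k := by
  set κ : ℝ := ε / 16 with hκ
  have hκ0 : 0 < κ := by positivity
  have hκ16 : κ ≤ 1 / 16 := by rw [hκ]; linarith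
  set δ : ℝ := κ / 8 with hδ
  have hδ0 : 0 < δ := by positivity
  obtain ⟨C1, hC1, hLLu⟩ := H343.LL_upper
  obtain ⟨C2, hC2, hLLl⟩ := H343.LL_lower
  set η : ℝ := min (1 / 4) (ε / (32 * C1)) with hη
  have hη0 : 0 < η := lt_min (by norm_num) (by positivity)
  have hη4 : η ≤ 1 / 4 := min_le_left _ _
  have hηC : η * (32 * C1) ≤ ε := by
    have : η ≤ ε / (32 * C1) := min_le_right _ _
    rwa [le_div_iff₀ (by positivity)] at this
  obtain ⟨N1, hnorm⟩ := norm_bound (κ / 2) η (by positivity) hη0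
  obtain ⟨N2, hdiag⟩ := diag_bound (κ / 2) η (by positivity) (by linarith) hη0
  obtain ⟨Cs, hCs, hsup⟩ := sup_bound δ hδ0
  obtain ⟨Cf, hCf, hff⟩ := ff_small δ hδ0
  obtain ⟨Ct, hCt, htau⟩ := tau_small δ hδ0
  obtain ⟨Cl, hCl, hlog⟩ := one_add_log_le δ hδ0
  obtain ⟨cp, hcp, hphi⟩ := H343.phi_bound δ hδ0
  have e1 := ev_rpow 2 (1 / 4) (by norm_num)
  have e2 := ev_rpow (4 * Cf * Ct * (2 * Cl) / η) (1 / 2 - 3 * δ) (by linarith)
  have e3 := ev_rpow (4 * Cs * Ct / (cp * η)) (5 * δ) (by positivity)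
  have e4 := log_large (32 / ε + (2 * C2 + 8) / ε * 2 + 40 / ε + 10)
  obtain ⟨K0, hK0⟩ := Filter.eventually_atTop.1 (((e1.and e2).and e3).and e4)
  refine ⟨κ, η, hκ0, hκ16, hη0, hη4, max K0 (max N1 (max N2 2)), ?_⟩
  intro K N k σ X hK hσ hσ1 hKN hKk hk2 hNX hXN hoff1 hoff2
  have hKK0 : K0 ≤ K := (le_max_left _ _).trans hK
  have hKN1 : N1 ≤ K := ((le_max_left _ _).trans (le_max_right _ _)).trans hK
  have hKN2 : N2 ≤ K :=
    ((le_max_left _ _).trans ((le_max_right _ _).trans (le_max_right _ _))).trans hK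
  have hK2 : 2 ≤ K :=
    ((le_max_right _ _).trans ((le_max_right _ _).trans (le_max_right _ _))).trans hK
  obtain ⟨⟨⟨g1, _⟩, g3⟩, g4⟩ := hK0 K hKK0
  obtain ⟨⟨⟨_, g2⟩, _⟩, _⟩ := hK0 N (hKK0.trans hKN)
  have hKr1 : (1 : ℝ) ≤ K := by exact_mod_cast (by omega : 1 ≤ K)
  have hKr : (0 : ℝ) < K := by linarith
  have hKNr : (K : ℝ) ≤ N := by exact_mod_cast hKN
  have hNr : (0 : ℝ) < N := by linarith
  have hNr1 : (1 : ℝ) ≤ N := by linarith
  have hXr : 0 < X := by linarith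
  have hkr : (0 : ℝ) < k := by exact_mod_cast (by omega : 0 < k)
  have hkK : (K : ℝ) ≤ k := by exact_mod_cast hKk.le
  have hk2r : (k : ℝ) ≤ 2 * K := by exact_mod_cast hk2
  set lK := Real.log K with hlK
  set lN := Real.log N with hlN
  set lX := Real.log X with hlX
  have hlKN : lK ≤ lN := Real.log_le_log hKr hKNr
  have hlNX : lN ≤ lX := Real.log_le_log hNr hNX
  have hl2 : Real.log 2 ≤ 1 := by
    have := Real.log_two_lt_d9
    linarith
  have hl20 : 0 ≤ Real.log 2 := Real.log_nonneg (by norm_num)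
  have hlk : Real.log k ≤ lK + Real.log 2 := by
    have h1 := Real.log_le_log hkr hk2r
    rw [Real.log_mul (by norm_num) hKr.ne'] at h1
    linarith
  have hlk0 : lK ≤ Real.log k := Real.log_le_log hKr hkK
  have hq1 : 0 ≤ 32 / ε := by positivity
  have hq2 : 0 ≤ (2 * C2 + 8) / ε * 2 := by positivity
  have hq3 : 0 ≤ 40 / ε := by positivity
  have hlK10 : 10 ≤ lK := by linarith
  have hεlK1 : 32 ≤ ε * lK := by
    have : 32 / ε ≤ lK := by linarith
    rw [div_le_iff₀ hε] at this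
    linarith
  have hεlK2 : (2 * C2 + 8) * 2 ≤ ε * lK := by
    have : (2 * C2 + 8) * 2 / ε ≤ lK := by
      have h1 : (2 * C2 + 8) * 2 / ε = (2 * C2 + 8) / ε * 2 := by ring
      linarith
    rw [div_le_iff₀ hε] at this
    linarith
  have hεlK3 : 40 ≤ ε * lK := by
    have : 40 / ε ≤ lK := by linarith
    rw [div_le_iff₀ hε] at this
    linarith
  set u : ℝ := (1 + σ) * Real.log k - lX - ε * lX with hu
  rcases le_or_gt u 0 with hu0 | hu0
  · exact (mul_nonpos_of_nonneg_of_nonpos hXr.le hu0).trans (GG_nonneg X k)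
  obtain ⟨hR1, hRK, hRK', hlR⟩ := RR_facts κ σ K hκ0 (by linarith) hσ hσ1 (by omega) g1
  set R := RR κ σ K with hR
  set Q := N / R with hQ
  have hRr : (0 : ℝ) < R := by exact_mod_cast hR1
  have hRK1 : (R : ℝ) ≤ K := by
    refine hRK.trans ?_
    calc (K : ℝ) ^ (1 - κ) ≤ (K : ℝ) ^ (1 : ℝ) :=
          Real.rpow_le_rpow_of_exponent_le hKr1 (by linarith)
      _ = K := Real.rpow_one _
  have hRKn : R ≤ K := by exact_mod_cast hRK1
  have hRN : R ≤ N := hRKn.trans hKN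
  have hlRK : Real.log R ≤ lK := Real.log_le_log hRr hRK1
  have hRNκ : (R : ℝ) ≤ (N : ℝ) ^ (1 - 2 * (κ / 2)) := by
    have : 1 - 2 * (κ / 2) = 1 - κ := by ring
    rw [this]
    exact hRK.trans (Real.rpow_le_rpow hKr.le hKNr (by linarith))
  -- size of X
  have hlXlt : lX < (1 + σ - ε / 2) * lK + 2 := by
    have h1 : (1 + ε) * lX < (1 + σ) * (lK + Real.log 2) := by
      have : (1 + σ) * Real.log k ≤ (1 + σ) * (lK + Real.log 2) :=
        mul_le_mul_of_nonneg_left hlk (by linarith)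
      linarith
    have h2 : (1 + σ) * Real.log 2 ≤ 2 := by
      calc (1 + σ) * Real.log 2 ≤ 2 * 1 := mul_le_mul (by linarith) hl2 hl20 (by norm_num)
        _ = 2 := by norm_num
    have h3 : (1 + σ) * lK ≤ (1 + ε) * ((1 + σ - ε / 2) * lK) := by
      have : 0 ≤ ε * (1 / 2 + σ - ε / 2) := by
        apply mul_nonneg hε.le
        linarith
      have h4 : (1 + ε) * (1 + σ - ε / 2) = (1 + σ) + ε * (1 / 2 + σ - ε / 2) := by ring
      have h5 : (1 + ε) * ((1 + σ - ε / 2) * lK) = (1 + σ) * lK +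
          ε * (1 / 2 + σ - ε / 2) * lK := by rw [← mul_assoc, h4]; ring
      rw [h5]
      have : 0 ≤ ε * (1 / 2 + σ - ε / 2) * lK := mul_nonneg this (by linarith)
      linarith
    have h4 : (1 + ε) * lX < (1 + ε) * ((1 + σ - ε / 2) * lK + 2) := by
      have h5 : (1 + σ) * (lK + Real.log 2) = (1 + σ) * lK + (1 + σ) * Real.log 2 := by ring
      have h6 : (1 + ε) * ((1 + σ - ε / 2) * lK + 2) =
          (1 + ε) * ((1 + σ - ε / 2) * lK) + 2 + 2 * ε := by ring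
      rw [h6]
      rw [h5] at h1
      linarith
    exact lt_of_mul_lt_mul_left h4 (by linarith)
  have hNK2 : (N : ℝ) ≤ 4 * K ^ 2 := by
    have h1 : lN ≤ Real.log (4 * (K : ℝ) ^ 2) := by
      rw [Real.log_mul (by norm_num) (by positivity), Real.log_pow]
      have h2 : Real.log 4 = 2 * Real.log 2 := by
        rw [show (4 : ℝ) = 2 ^ 2 by norm_num, Real.log_pow]
        norm_num
      have h3 : (1 + ε) * lX < (1 + σ) * (lK + Real.log 2) := by
        have : (1 + σ) * Real.log k ≤ (1 + σ) * (lK + Real.log 2) :=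
          mul_le_mul_of_nonneg_left hlk (by linarith)
        linarith
      have h4 : (1 + σ) * (lK + Real.log 2) ≤ 2 * (lK + Real.log 2) :=
        mul_le_mul_of_nonneg_right (by linarith) (by linarith)
      have h5 : lX ≤ (1 + ε) * lX := le_mul_of_one_le_left (by linarith) (by linarith)
      push_cast
      rw [h2]
      linarith
    exact (Real.log_le_log_iff hNr (by positivity)).1 h1
  -- L
  set L := H343.LL Q R with hL
  have hL0 : 0 ≤ L := LL_nonneg Q R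
  have hLup : L ≤ 2 * C1 * lK := by
    calc L ≤ C1 * (1 + Real.log R) := hLLu Q R
      _ ≤ C1 * (lK + lK) := by
          apply mul_le_mul_of_nonneg_left _ hC1.le
          linarith
      _ = 2 * C1 * lK := by ring
  have hQ1 : 1 ≤ Q := Nat.div_pos hRN hR1
  have hQR : Q ≤ R := by
    have h1 : lN ≤ 2 * Real.log R := by
      have h2 : 2 * κ * lK = ε * lK / 8 := by rw [hκ]; ring
      have h3 : 2 * (((1 + σ) / 2 - κ) * lK) = (1 + σ) * lK - 2 * κ * lK := by ring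
      have h4 : (1 + σ - ε / 2) * lK = (1 + σ) * lK - ε * lK / 2 := by ring
      rw [h4] at hlXlt
      linarith
    have h2 : Real.log N ≤ Real.log ((R : ℝ) ^ 2) := by
      rw [Real.log_pow]
      push_cast
      exact h1
    have h3 : (N : ℝ) ≤ (R : ℝ) ^ 2 := (Real.log_le_log_iff hNr (by positivity)).1 h2
    have h4 : N ≤ R * R := by
      have : ((N : ℕ) : ℝ) ≤ ((R * R : ℕ) : ℝ) := by
        push_cast
        rw [← sq]
        exact h3
      exact_mod_cast this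
    calc Q ≤ (R * R) / R := Nat.div_le_div_right h4
      _ = R := Nat.mul_div_cancel_left R hR1
  have hLlow : 2 * Real.log R - lN - C2 ≤ L := by
    have h1 := hLLl Q R hQ1 hQR
    have h2 : Real.log Q ≤ lN - Real.log R := by
      have h3 : (Q : ℝ) ≤ (N : ℝ) / R := Nat.cast_div_le
      have h4 := Real.log_le_log (by exact_mod_cast hQ1) h3
      rwa [Real.log_div hNr.ne' hRr.ne'] at h4
    linarith
  have hLu : u + ε / 2 * lK ≤ L := by
    have h1 : u ≤ (1 + σ) * lK + 2 - lN - ε * lK := by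
      have h2 : (1 + σ) * Real.log k ≤ (1 + σ) * (lK + Real.log 2) :=
        mul_le_mul_of_nonneg_left hlk (by linarith)
      have h3 : (1 + σ) * Real.log 2 ≤ 2 := by
        calc (1 + σ) * Real.log 2 ≤ 2 * 1 := mul_le_mul (by linarith) hl2 hl20 (by norm_num)
          _ = 2 := by norm_num
      have h4 : ε * lK ≤ ε * lX := mul_le_mul_of_nonneg_left (by linarith) hε.le
      rw [hu]
      linarith
    have h2 : 2 * κ * lK = ε * lK / 8 := by rw [hκ]; ring
    have h3 : 2 * (((1 + σ) / 2 - κ) * lK) = (1 + σ) * lK - 2 * κ * lK := by ring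
    linarith
  -- the ingredients
  have hX0 : 0 ≤ X := hXr.le
  have hNfl : N ≤ ⌊X⌋₊ := Nat.le_floor hNX
  have hfl2 : ⌊X⌋₊ ≤ 2 * N := by
    have h1 : (⌊X⌋₊ : ℝ) ≤ X := Nat.floor_le hX0
    have h2 : (⌊X⌋₊ : ℝ) ≤ ((2 * N : ℕ) : ℝ) := by
      push_cast
      have h3 : (1 + 2 * η) * (N : ℝ) ≤ 2 * N := mul_le_mul_of_nonneg_right (by linarith) hNr.le
      linarith
    exact_mod_cast h2
  have hNRQ : (N : ℝ) / ((Q + 1 : ℕ) : ℝ) ≤ R := by
    rw [div_le_iff₀ (by positivity)]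
    have h1 : N < (Q + 1) * R := by
      have := Nat.lt_div_mul_add (a := N) (b := R) hR1
      calc N < N / R * R + R := this
        _ = (Q + 1) * R := by rw [hQ]; ring
    have h2 : (N : ℝ) < (((Q + 1) * R : ℕ) : ℝ) := by exact_mod_cast h1
    push_cast at h2 ⊢
    linarith
  set B : ℝ := 2 * Cs * (K : ℝ) ^ (1 - κ + δ) with hB
  have hBs : ∀ t : ℝ, ‖es N (ff Q R) t‖ ≤ B := by
    intro t
    refine (hsup N Q R t hR1).trans ?_
    calc Cs * (R : ℝ) ^ δ * ((N : ℝ) / ((Q + 1 : ℕ) : ℝ) + R)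
        ≤ Cs * (K : ℝ) ^ δ * (R + R) := by gcongr
      _ ≤ Cs * (K : ℝ) ^ δ * ((K : ℝ) ^ (1 - κ) + (K : ℝ) ^ (1 - κ)) := by gcongr
      _ = B := by
          rw [hB, Real.rpow_add hKr]
          ring
  set M : ℝ := Cf * (N : ℝ) ^ δ with hM
  have hM0 : 0 ≤ M := by positivity
  have hMs : ∀ n ∈ Icc 1 N, |ff Q R n| ≤ M := by
    intro n hn
    rw [mem_Icc] at hn
    exact hff N Q R n hR1 hRN hn.1 (by omega)
  have hmain := GG_lower X k N Q R hX0 (by omega) (by omega) hNfl B M (η * N) (η * N) hBs hMs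
    (hoff1 _ hfl2) hoff2
  have hD := hdiag N (hKN2.trans hKN) Q R hR1 hRNκ
  have hS := hnorm N (hKN1.trans hKN) Q R hRNκ
  rw [← hL] at hD hS
  have htk : tau k ≤ Ct * (K : ℝ) ^ δ := htau K k (by omega) (by omega)
  have htk0 := tau_nonneg k
  -- non-coprime part
  have hE1 : ((N / k + 1 : ℕ) : ℝ) * |M| * (tau k * Real.log ⌊X⌋₊) ≤ η * N := by
    have h1 : ((N / k + 1 : ℕ) : ℝ) ≤ 4 * √(N : ℝ) := by
      have h2 : ((N / k : ℕ) : ℝ) ≤ (N : ℝ) / k := Nat.cast_div_le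
      have h3 : (N : ℝ) / k ≤ N / K := div_le_div_of_nonneg_left hNr.le hKr hkK
      have h4 : (1 : ℝ) ≤ N / K := by
        rw [le_div_iff₀ hKr]
        linarith
      have h6 : (N : ℝ) / K ≤ 2 * √(N : ℝ) := div_sqrt_le N K hKr hNr hNK2
      push_cast
      linarith
    have h2 : Real.log ⌊X⌋₊ ≤ 2 * Cl * (N : ℝ) ^ δ := by
      have h3 : Real.log ⌊X⌋₊ ≤ Real.log ((2 * N : ℕ) : ℝ) := by
        apply Real.log_le_log
        · exact_mod_cast (by omega : 0 < ⌊X⌋₊)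
        · exact_mod_cast hfl2
      have h4 : Real.log ((2 * N : ℕ) : ℝ) ≤ 1 + Real.log N := by
        push_cast
        rw [Real.log_mul (by norm_num) hNr.ne']
        linarith
      have h5 := hlog N (by omega)
      have h6 : 0 ≤ Cl * (N : ℝ) ^ δ := by positivity
      linarith
    have h3 : 0 ≤ Real.log ⌊X⌋₊ := Real.log_natCast_nonneg _
    have h4 : tau k ≤ Ct * (N : ℝ) ^ δ := by
      refine htk.trans ?_
      gcongr
    rw [abs_of_nonneg hM0]
    calc ((N / k + 1 : ℕ) : ℝ) * M * (tau k * Real.log ⌊X⌋₊)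
        ≤ (4 * √(N : ℝ)) * M * ((Ct * (N : ℝ) ^ δ) * (2 * Cl * (N : ℝ) ^ δ)) := by gcongr
      _ = η * (4 * Cf * Ct * (2 * Cl) / η) * ((N : ℝ) ^ (1 / 2 : ℝ) *
            ((N : ℝ) ^ δ * (N : ℝ) ^ δ * (N : ℝ) ^ δ)) := by
          rw [hM, Real.sqrt_eq_rpow]
          field_simp
      _ = η * (4 * Cf * Ct * (2 * Cl) / η) * (N : ℝ) ^ (1 / 2 + 3 * δ) := by
          rw [← Real.rpow_add hNr, ← Real.rpow_add hNr, ← Real.rpow_add hNr]
          congr 2
          ring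
      _ ≤ η * (N : ℝ) ^ (1 / 2 - 3 * δ) * (N : ℝ) ^ (1 / 2 + 3 * δ) := by gcongr
      _ = η * N := by
          rw [mul_assoc, ← Real.rpow_add hNr]
          have : 1 / 2 - 3 * δ + (1 / 2 + 3 * δ) = 1 := by ring
          rw [this, Real.rpow_one]
  -- centre
  have hE2 : X / Nat.totient k * (tau k * B) ≤ η * N := by
    have h1 : X ≤ 2 * N :=
      hXN.trans (mul_le_mul_of_nonneg_right (by linarith) hNr.le)
    have h2 : cp * (K : ℝ) ^ (1 - δ) ≤ (Nat.totient k : ℝ) := by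
      refine le_trans ?_ (hphi k (by omega))
      have : 0 ≤ 1 - δ := by linarith
      gcongr
    calc X / Nat.totient k * (tau k * B)
        ≤ (2 * N) / (cp * (K : ℝ) ^ (1 - δ)) * ((Ct * (K : ℝ) ^ δ) * B) := by gcongr
      _ = η * N * (4 * Cs * Ct / (cp * η)) *
          (((K : ℝ) ^ δ * (K : ℝ) ^ (1 - κ + δ)) / (K : ℝ) ^ (1 - δ)) := by
          rw [hB]
          field_simp
          ring
      _ = η * N * (4 * Cs * Ct / (cp * η)) * (K : ℝ) ^ (-(5 * δ)) := by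
          rw [← Real.rpow_add hKr, ← Real.rpow_sub hKr]
          congr 2
          rw [hδ]
          ring
      _ ≤ η * N * (K : ℝ) ^ (5 * δ) * (K : ℝ) ^ (-(5 * δ)) := by gcongr
      _ = η * N := by
          rw [mul_assoc, ← Real.rpow_add hKr]
          simp
  -- conclusion
  have hG : N * (L - 2 * η * L - 10 * η) ≤ GG X k := by
    have h1 : N * ((1 - η) * L - η) = N * L - N * η * L - η * N := by ring
    have h2 : (N : ℝ) * (L + η) = N * L + η * N := by ring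
    have h3 : N * (L - 2 * η * L - 10 * η) = N * L - 2 * (N * η * L) - 10 * (η * N) := by ring
    rw [h1] at hD
    rw [h2] at hS
    rw [h3]
    linarith
  have hfin : X * u ≤ N * (L - 2 * η * L - 10 * η) := by
    have h1 : X * u ≤ (1 + 2 * η) * N * u := mul_le_mul_of_nonneg_right hXN hu0.le
    have h2 : (1 + 2 * η) * u ≤ L - 2 * η * L - 10 * η := by
      have h3 : (1 + 2 * η) * u ≤ (1 + 2 * η) * (L - ε / 2 * lK) :=
        mul_le_mul_of_nonneg_left (by linarith) (by linarith)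
      have h4 : 4 * η * L ≤ ε / 4 * lK := by
        calc 4 * η * L ≤ 4 * η * (2 * C1 * lK) := by gcongr
          _ = (η * (32 * C1)) * (lK / 4) := by ring
          _ ≤ ε * (lK / 4) := by
              apply mul_le_mul_of_nonneg_right hηC
              linarith
          _ = ε / 4 * lK := by ring
      have h5 : 10 * η ≤ ε / 4 * lK := by linarith
      have h6 : (1 + 2 * η) * (L - ε / 2 * lK) = L + 2 * η * L - ε / 2 * lK - η * (ε * lK) := by
        ring
      have h7 : 0 ≤ η * (ε * lK) := by positivity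
      linarith
    calc X * u ≤ (1 + 2 * η) * N * u := h1
      _ = N * ((1 + 2 * η) * u) := by ring
      _ ≤ N * (L - 2 * η * L - 10 * η) := mul_le_mul_of_nonneg_left h2 hNr.le
  exact hfin.trans hG

end Pool.Agent.T9h55.VM
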