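import Pool.Agent.H336R2.V.Raman

/-!
Correlation sums of two finitely supported sequences, summed over the moduli dividing the shift.
-/

open Finset

namespace Pool.Agent.T9h55.VM

open H343 H343.Gauss

/-- exponential sum -/
noncomputable def es (N : ℕ) (b : ℕ → ℝ) (θ : ℝ) : ℂ := ∑ m ∈ Icc 1 N, (b m : ℂ) * ex (θ * m)

lemma conj_ex (x : ℝ) : (starRingEnd ℂ) (ex x) = ex (-x) := by
  unfold ex
  rw [← Complex.exp_conj]
  congr 1
  simp only [map_mul, Complex.conj_I, Complex.conj_ofReal]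
  push_cast
  ring

lemma ex_neg_mul (x : ℝ) : ex x * ex (-x) = 1 := by
  rw [← ex_add, add_neg_cancel, ex_zero]

/-- Parseval on `range P` -/
theorem pars (P : ℕ) (hP : 1 ≤ P) (c : ℕ → ℂ) :
    ∑ t ∈ range P, ‖∑ j ∈ range P, c j * ex ((t : ℝ) * j / P)‖ ^ 2 =
      P * ∑ j ∈ range P, ‖c j‖ ^ 2 := by
  have h : ((∑ t ∈ range P, ‖∑ j ∈ range P, c j * ex ((t : ℝ) * j / P)‖ ^ 2 : ℝ) : ℂ) =
      ((P * ∑ j ∈ range P, ‖c j‖ ^ 2 : ℝ) : ℂ) := by
    push_cast
    have h1 : ∀ t ∈ range P, ((‖∑ j ∈ range P, c j * ex ((t : ℝ) * j / P)‖ : ℝ) : ℂ) ^ 2 =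
        ∑ j ∈ range P, ∑ i ∈ range P, c j * (starRingEnd ℂ) (c i) *
          ex ((t : ℝ) * ((j : ℤ) - (i : ℤ) : ℤ) / P) := by
      intro t _
      rw [← Complex.mul_conj', map_sum, sum_mul_sum]
      refine sum_congr rfl fun j _ => sum_congr rfl fun i _ => ?_
      rw [map_mul, conj_ex]
      have : ex ((t : ℝ) * ((j : ℤ) - (i : ℤ) : ℤ) / P) =
          ex ((t : ℝ) * j / P) * ex (-((t : ℝ) * i / P)) := by
        rw [← ex_add]
        congr 1
        push_cast
        ring
      rw [this]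
      ring
    rw [sum_congr rfl h1, sum_comm, mul_sum]
    refine sum_congr rfl fun j hj => ?_
    rw [sum_comm]
    have h2 : ∀ i ∈ range P, ∑ t ∈ range P, c j * (starRingEnd ℂ) (c i) *
          ex ((t : ℝ) * ((j : ℤ) - (i : ℤ) : ℤ) / P) =
        if i = j then (P : ℂ) * (c j * (starRingEnd ℂ) (c i)) else 0 := by
      intro i hi
      rw [← mul_sum, H336V.RamanAux.geom P hP]
      rw [mem_range] at hi hj
      split_ifs with h3 h4 h4
      · ring
      · exfalso
        apply h4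
        obtain ⟨k, hk⟩ := h3
        have hk1 : |(P : ℤ) * k| < P := by
          rw [← hk, abs_lt]
          omega
        rw [abs_mul, Nat.abs_cast] at hk1
        have hP' : (0 : ℤ) < P := by omega
        have hk2 : |k| < 1 := by
          by_contra hcon
          push Not at hcon
          nlinarith
        have hk3 : k = 0 := Int.abs_lt_one_iff.1 hk2
        subst hk3
        omega
      · exfalso
        apply h3
        rw [h4]
        simp
      · simp
    rw [sum_congr rfl h2, sum_ite_eq' (range P) j, if_pos hj, Complex.mul_conj']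
  exact_mod_cast h

/-- correlation with a given (shifted) difference -/
noncomputable def cor (a b : ℕ → ℝ) (Z N h : ℕ) : ℝ :=
  ∑ n ∈ Icc 1 Z, ∑ m ∈ Icc 1 N, if m + Z = n + h then a n * b m else 0

lemma cor_fourier (a b : ℕ → ℝ) (Z N : ℕ) (t : ℝ) :
    ∑ h ∈ range (Z + N), (cor a b Z N h : ℂ) * ex (t * h) =
      ex (t * Z) * ((starRingEnd ℂ) (es Z a t) * es N b t) := by
  unfold cor es
  rw [map_sum, sum_mul_sum, mul_sum]
  push_cast
  simp only [sum_mul]
  rw [sum_comm]
  refine sum_congr rfl fun n hn => ?_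
  rw [sum_comm, mul_sum]
  refine sum_congr rfl fun m hm => ?_
  rw [mem_Icc] at hn hm
  rw [sum_eq_single (m + Z - n)]
  · rw [if_pos (by omega), map_mul, conj_ex, Complex.conj_ofReal]
    have hc : ((m + Z - n : ℕ) : ℝ) = (m : ℝ) + Z - n := by
      rw [Nat.cast_sub (by omega)]
      push_cast
      ring
    rw [hc]
    have : ex (t * ((m : ℝ) + Z - n)) = ex (t * Z) * (ex (-(t * n)) * ex (t * m)) := by
      rw [← ex_add, ← ex_add]
      congr 1
      ring
    rw [this]
    push_cast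
    ring
  · intro h _ hne
    rw [if_neg (by omega)]
    simp
  · intro hnot
    exfalso
    apply hnot
    rw [mem_range]
    omega

/-- the mean square of the correlations -/
theorem cor_sq (a b : ℕ → ℝ) (Z N : ℕ) (hN : 1 ≤ N) (B : ℝ)
    (hB : ∀ t : ℝ, ‖es N b t‖ ≤ B) :
    ∑ h ∈ range (Z + N), cor a b Z N h ^ 2 ≤ B ^ 2 * ∑ n ∈ Icc 1 Z, a n ^ 2 := by
  set P : ℕ := Z + N with hP
  have hP1 : 1 ≤ P := by omega
  have hP0 : (0 : ℝ) < P := by exact_mod_cast hP1
  have hB0 : 0 ≤ B := (norm_nonneg _).trans (hB 0)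
  have h1 := pars P hP1 (fun h => (cor a b Z N h : ℂ))
  have h2 := pars P hP1 (fun n => if n ∈ Icc 1 Z then (a n : ℂ) else 0)
  have h3 : ∀ t : ℝ, ∑ j ∈ range P, (if j ∈ Icc 1 Z then (a j : ℂ) else 0) * ex (t * j / P) =
      es Z a (t / P) := by
    intro t
    unfold es
    have hsub : Icc 1 Z ⊆ range P := by
      intro x hx
      rw [mem_Icc] at hx
      rw [mem_range]
      omega
    simp only [ite_mul, zero_mul]
    rw [← sum_filter, filter_mem_eq_inter, inter_eq_right.2 hsub]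
    refine sum_congr rfl fun n _ => ?_
    congr 2
    ring
  have h4 : ∑ j ∈ range P, ‖(if j ∈ Icc 1 Z then (a j : ℂ) else 0)‖ ^ 2 =
      ∑ n ∈ Icc 1 Z, a n ^ 2 := by
    have hsub : Icc 1 Z ⊆ range P := by
      intro x hx
      rw [mem_Icc] at hx
      rw [mem_range]
      omega
    have : ∀ j ∈ range P, ‖(if j ∈ Icc 1 Z then (a j : ℂ) else 0)‖ ^ 2 =
        if j ∈ Icc 1 Z then a j ^ 2 else 0 := by
      intro j _
      split_ifs
      · rw [Complex.norm_real, Real.norm_eq_abs, sq_abs]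
      · simp
    rw [sum_congr rfl this, ← sum_filter, filter_mem_eq_inter, inter_eq_right.2 hsub]
  rw [h4] at h2
  have h5 : (P : ℝ) * ∑ h ∈ range P, cor a b Z N h ^ 2 ≤
      (P : ℝ) * (B ^ 2 * ∑ n ∈ Icc 1 Z, a n ^ 2) := by
    calc (P : ℝ) * ∑ h ∈ range P, cor a b Z N h ^ 2
        = (P : ℝ) * ∑ j ∈ range P, ‖(cor a b Z N j : ℂ)‖ ^ 2 := by
          congr 1
          refine sum_congr rfl fun h _ => ?_
          rw [Complex.norm_real, Real.norm_eq_abs, sq_abs]
      _ = ∑ t ∈ range P, ‖∑ j ∈ range P, (cor a b Z N j : ℂ) * ex ((t : ℝ) * j / P)‖ ^ 2 :=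
          h1.symm
      _ ≤ ∑ t ∈ range P, B ^ 2 *
          ‖∑ j ∈ range P, (if j ∈ Icc 1 Z then (a j : ℂ) else 0) * ex ((t : ℝ) * j / P)‖ ^ 2 := by
          refine sum_le_sum fun t _ => ?_
          rw [h3 t]
          have h6 : ∑ j ∈ range P, (cor a b Z N j : ℂ) * ex ((t : ℝ) * j / P) =
              ∑ j ∈ range P, (cor a b Z N j : ℂ) * ex (((t : ℝ) / P) * j) := by
            refine sum_congr rfl fun j _ => ?_
            congr 2
            ring
          rw [h6, cor_fourier, norm_mul, norm_mul, norm_ex, one_mul, RCLike.norm_conj, mul_pow,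
            mul_comm]
          apply mul_le_mul_of_nonneg_right _ (by positivity)
          exact pow_le_pow_left₀ (norm_nonneg _) (hB _) 2
      _ = (P : ℝ) * (B ^ 2 * ∑ n ∈ Icc 1 Z, a n ^ 2) := by
          rw [← mul_sum, h2]
          ring
  exact le_of_mul_le_mul_left h5 hP0

/-- off-diagonal part of the correlation in the classes modulo `k` -/
noncomputable def off (a b : ℕ → ℝ) (Z N k : ℕ) : ℝ :=
  ∑ n ∈ Icc 1 Z, ∑ m ∈ Icc 1 N, if m ≠ n ∧ m ≡ n [MOD k] then a n * b m else 0

/-- the set of admissible shifts -/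
def shifts (Z N k : ℕ) : Finset ℕ :=
  (range (Z + N)).filter (fun h => h ≠ Z ∧ (k : ℤ) ∣ (h : ℤ) - Z)

lemma off_eq (a b : ℕ → ℝ) (Z N k : ℕ) :
    off a b Z N k = ∑ h ∈ shifts Z N k, cor a b Z N h := by
  unfold off cor shifts
  rw [sum_comm' (s := (range (Z + N)).filter (fun h => h ≠ Z ∧ (k : ℤ) ∣ (h : ℤ) - Z))
    (t := fun _ => Icc 1 Z) (t' := Icc 1 Z)
    (s' := fun _ => (range (Z + N)).filter (fun h => h ≠ Z ∧ (k : ℤ) ∣ (h : ℤ) - Z))
    (by intro x y; tauto)]
  refine sum_congr rfl fun n hn => ?_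
  rw [sum_comm]
  refine sum_congr rfl fun m hm => ?_
  rw [mem_Icc] at hn hm
  have hmod : m ≡ n [MOD k] ↔ (k : ℤ) ∣ ((m + Z - n : ℕ) : ℤ) - Z := by
    rw [Nat.cast_sub (by omega)]
    push_cast
    rw [Nat.modEq_iff_dvd]
    constructor
    · intro h
      have : (m : ℤ) + Z - n - Z = -((n : ℤ) - m) := by ring
      rw [this]
      exact (dvd_neg).2 h
    · intro h
      have : (m : ℤ) + Z - n - Z = -((n : ℤ) - m) := by ring
      rw [this] at h
      exact (dvd_neg).1 h
  by_cases hc : m ≠ n ∧ m ≡ n [MOD k]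
  · rw [if_pos hc, sum_eq_single (m + Z - n)]
    · rw [if_pos (by omega)]
    · intro h _ hne
      rw [if_neg (by omega)]
    · intro hnot
      exfalso
      apply hnot
      rw [mem_filter, mem_range]
      refine ⟨by omega, by omega, hmod.1 hc.2⟩
  · rw [if_neg hc]
    symm
    refine sum_eq_zero fun h hh => ?_
    rw [mem_filter, mem_range] at hh
    rw [if_neg]
    intro heq
    apply hc
    have : h = m + Z - n := by omega
    rw [this] at hh
    exact ⟨by omega, hmod.2 hh.2.2⟩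

lemma shifts_card (Z N k : ℕ) (hk : 1 ≤ k) :
    ((shifts Z N k).card : ℝ) ≤ ((Z + N : ℕ) : ℝ) / k := by
  have hk0 : (0 : ℝ) < k := by exact_mod_cast hk
  -- map into multiples
  have h1 : shifts Z N k ⊆
      ((Icc 1 (Z / k)).image (fun j => Z - k * j)) ∪
      ((Icc 1 (N / k)).image (fun j => Z + k * j)) := by
    intro h hh
    unfold shifts at hh
    rw [mem_filter, mem_range] at hh
    obtain ⟨h1, h2, h3⟩ := hh
    rw [mem_union, mem_image, mem_image]
    rcases lt_or_gt_of_ne h2 with h4 | h4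
    · left
      have h5 : k ∣ Z - h := by
        have : (k : ℤ) ∣ ((Z - h : ℕ) : ℤ) := by
          rw [Nat.cast_sub h4.le]
          have e : (Z : ℤ) - h = -((h : ℤ) - Z) := by ring
          rw [e]
          exact (dvd_neg).2 h3
        exact_mod_cast this
      obtain ⟨j, hj⟩ := h5
      refine ⟨j, ?_, by omega⟩
      rw [mem_Icc]
      constructor
      · rcases Nat.eq_zero_or_pos j with h6 | h6
        · subst h6
          simp at hj
          omega
        · exact h6
      · rw [Nat.le_div_iff_mul_le (by omega)]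
        have : j * k = k * j := mul_comm _ _
        omega
    · right
      have h5 : k ∣ h - Z := by
        have : (k : ℤ) ∣ ((h - Z : ℕ) : ℤ) := by
          rw [Nat.cast_sub h4.le]
          exact h3
        exact_mod_cast this
      obtain ⟨j, hj⟩ := h5
      refine ⟨j, ?_, by omega⟩
      rw [mem_Icc]
      constructor
      · rcases Nat.eq_zero_or_pos j with h6 | h6
        · subst h6
          simp at hj
          omega
        · exact h6
      · rw [Nat.le_div_iff_mul_le (by omega)]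
        have : j * k = k * j := mul_comm _ _
        omega
  have h2 : (shifts Z N k).card ≤ Z / k + N / k := by
    refine (card_le_card h1).trans ((card_union_le _ _).trans ?_)
    have e1 := card_image_le (s := Icc 1 (Z / k)) (f := fun j => Z - k * j)
    have e2 := card_image_le (s := Icc 1 (N / k)) (f := fun j => Z + k * j)
    rw [Nat.card_Icc, Nat.add_sub_cancel] at e1 e2
    omega
  have h3 : ((Z / k + N / k : ℕ) : ℝ) ≤ (Z : ℝ) / k + (N : ℝ) / k := by
    push_cast
    exact add_le_add Nat.cast_div_le Nat.cast_div_le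
  calc ((shifts Z N k).card : ℝ) ≤ ((Z / k + N / k : ℕ) : ℝ) := by exact_mod_cast h2
    _ ≤ (Z : ℝ) / k + (N : ℝ) / k := h3
    _ = ((Z + N : ℕ) : ℝ) / k := by push_cast; ring

/-- the mean square over the moduli of the off-diagonal parts -/
theorem off_sq (a b : ℕ → ℝ) (Z N K : ℕ) (hN : 1 ≤ N) (hK : 1 ≤ K) (B T : ℝ)
    (hB : ∀ t : ℝ, ‖es N b t‖ ≤ B)
    (hT : ∀ j : ℕ, 1 ≤ j → j ≤ Z + N → (j.divisors.card : ℝ) ≤ T) :
    ∑ k ∈ Ioc K (2 * K), off a b Z N k ^ 2 ≤
      ((Z + N : ℕ) : ℝ) / K * T * (B ^ 2 * ∑ n ∈ Icc 1 Z, a n ^ 2) := by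
  have hK0 : (0 : ℝ) < K := by exact_mod_cast hK
  have hT0 : 0 ≤ T := (Nat.cast_nonneg _).trans (hT 1 le_rfl (by omega))
  have h1 : ∀ k ∈ Ioc K (2 * K), off a b Z N k ^ 2 ≤
      ((Z + N : ℕ) : ℝ) / K * ∑ h ∈ shifts Z N k, cor a b Z N h ^ 2 := by
    intro k hk
    rw [mem_Ioc] at hk
    rw [off_eq]
    refine (sq_sum_le_card_mul_sum_sq (s := shifts Z N k)).trans ?_
    apply mul_le_mul_of_nonneg_right _ (sum_nonneg fun _ _ => sq_nonneg _)
    refine (shifts_card Z N k (by omega)).trans ?_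
    apply div_le_div_of_nonneg_left (by positivity) hK0
    exact_mod_cast hk.1.le
  refine (sum_le_sum h1).trans ?_
  rw [← mul_sum]
  have h2 : ∑ k ∈ Ioc K (2 * K), ∑ h ∈ shifts Z N k, cor a b Z N h ^ 2 ≤
      T * ∑ h ∈ range (Z + N), cor a b Z N h ^ 2 := by
    unfold shifts
    simp only [sum_filter]
    rw [sum_comm, mul_sum]
    refine sum_le_sum fun h hh => ?_
    rw [mem_range] at hh
    by_cases hZ : h = Z
    · simp only [hZ, ne_eq, not_true_eq_false, false_and, if_false, sum_const_zero]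
      positivity
    · rw [← sum_filter, sum_const, nsmul_eq_mul]
      apply mul_le_mul_of_nonneg_right _ (sq_nonneg _)
      have hj : 1 ≤ ((h : ℤ) - Z).natAbs := by omega
      refine le_trans ?_ (hT _ hj (by omega))
      have : (Ioc K (2 * K)).filter (fun k : ℕ => h ≠ Z ∧ (k : ℤ) ∣ (h : ℤ) - Z) ⊆
          (((h : ℤ) - Z).natAbs).divisors := by
        intro k hk
        rw [mem_filter] at hk
        rw [Nat.mem_divisors]
        exact ⟨Int.natCast_dvd.1 hk.2.2, by omega⟩
      exact_mod_cast card_le_card this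
  have h3 := cor_sq a b Z N hN B hB
  calc ((Z + N : ℕ) : ℝ) / K * ∑ k ∈ Ioc K (2 * K), ∑ h ∈ shifts Z N k, cor a b Z N h ^ 2
      ≤ ((Z + N : ℕ) : ℝ) / K * (T * (B ^ 2 * ∑ n ∈ Icc 1 Z, a n ^ 2)) := by
        apply mul_le_mul_of_nonneg_left _ (by positivity)
        exact h2.trans (mul_le_mul_of_nonneg_left h3 hT0)
    _ = _ := by ring

end Pool.Agent.T9h55.VM
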