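import Pool.Agent.T9h55.VM.Core

/-!
The final theorem on the exceptional moduli.
-/

open Finset

namespace Pool.Agent.T9h55.VM

open ArithmeticFunction (vonMangoldt vonMangoldt_nonneg)

open Classical in
/-- bad moduli at the level `N` -/
noncomputable def badS (η : ℝ) (K N R : ℕ) : Finset ℕ :=
  ((Ioc K (2 * K)).filter
    (fun k => ∃ T ≤ 2 * N, η * N < |off vonMangoldt (ff (N / R) R) T N k|)) ∪
  ((Ioc K (2 * K)).filter
    (fun k => ∃ T ≤ 2 * N, η * N < |off (ff (N / R) R) (ff (N / R) R) T N k|))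

lemma bad_card (κ η : ℝ) (hκ : 0 < κ) (hκ4 : κ ≤ 1 / 4) (hη : 0 < η) : ∃ C : ℝ, 0 < C ∧
    ∃ K1 : ℕ, ∀ (K N : ℕ) (σ : ℝ), K1 ≤ K → 0 ≤ σ → σ ≤ 1 → K ≤ N → (N : ℝ) ≤ 4 * K ^ 2 →
    ((badS η K N (RR κ σ K)).card : ℝ) ≤ C * (K : ℝ) ^ (σ - 2 * κ + 6 * (κ / 8)) := by
  set δ : ℝ := κ / 8 with hδ
  have hδ0 : 0 < δ := by positivity
  obtain ⟨Cb, hCb, hbad⟩ := bad_count δ η hδ0 hη
  obtain ⟨Cf, hCf, hff⟩ := ff_small δ hδ0
  obtain ⟨Cl, hCl, hlog⟩ := one_add_log_le δ hδ0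
  obtain ⟨K1, hK1⟩ := Filter.eventually_atTop.1 (ev_rpow 2 (1 / 4) (by norm_num))
  refine ⟨Cb * (2 * Cl) ^ 2 * 4 ^ (3 * δ) + Cb * Cf ^ 2 * 4 ^ (3 * δ), by positivity,
    max K1 2, fun K N σ hK hσ hσ1 hKN hN4 => ?_⟩
  have hKK1 : K1 ≤ K := (le_max_left _ _).trans hK
  have hK2 : 2 ≤ K := (le_max_right _ _).trans hK
  have hKr1 : (1 : ℝ) ≤ K := by exact_mod_cast (by omega : 1 ≤ K)
  have hKr : (0 : ℝ) < K := by linarith
  have hKNr : (K : ℝ) ≤ N := by exact_mod_cast hKN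
  have hNr : (0 : ℝ) < N := by linarith
  obtain ⟨hR1, hRK, hRK', _⟩ := RR_facts κ σ K hκ hκ4 hσ hσ1 (by omega) (hK1 K hKK1)
  set R := RR κ σ K with hR
  have hRr : (0 : ℝ) < R := by exact_mod_cast hR1
  have hRK1 : (R : ℝ) ≤ K := by
    refine hRK.trans ?_
    calc (K : ℝ) ^ (1 - κ) ≤ (K : ℝ) ^ (1 : ℝ) :=
          Real.rpow_le_rpow_of_exponent_le hKr1 (by linarith)
      _ = K := Real.rpow_one _
  have hRN : R ≤ N := by
    have : R ≤ K := by exact_mod_cast hRK1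
    omega
  have hQ : N ≤ (N / R + 1) * R := by
    have := Nat.lt_div_mul_add (a := N) (b := R) hR1
    calc N ≤ N / R * R + R := this.le
      _ = (N / R + 1) * R := by ring
  have hR2 : (R : ℝ) ^ 2 ≤ (K : ℝ) ^ (1 + σ - 2 * κ) := by
    calc (R : ℝ) ^ 2 ≤ ((K : ℝ) ^ ((1 + σ) / 2 - κ)) ^ 2 := pow_le_pow_left₀ hRr.le hRK' 2
      _ = (K : ℝ) ^ (1 + σ - 2 * κ) := by
          rw [← Real.rpow_natCast, ← Real.rpow_mul hKr.le]
          congr 1
          push_cast
          ring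
  have hNδ : (N : ℝ) ^ (3 * δ) ≤ 4 ^ (3 * δ) * (K : ℝ) ^ (6 * δ) := by
    calc (N : ℝ) ^ (3 * δ) ≤ (4 * (K : ℝ) ^ 2) ^ (3 * δ) := by gcongr
      _ = 4 ^ (3 * δ) * ((K : ℝ) ^ 2) ^ (3 * δ) := Real.mul_rpow (by norm_num) (by positivity)
      _ = 4 ^ (3 * δ) * (K : ℝ) ^ (6 * δ) := by
          rw [← Real.rpow_natCast, ← Real.rpow_mul hKr.le]
          congr 2
          push_cast
          ring
  have key : ∀ (a : ℕ → ℝ) (D : ℝ), 0 ≤ D → (∀ n ∈ Icc 1 (2 * N), |a n| ≤ D * (N : ℝ) ^ δ) →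
      Cb * (D * (N : ℝ) ^ δ) ^ 2 * (N : ℝ) ^ δ * R ^ 2 / K ≤
        Cb * D ^ 2 * 4 ^ (3 * δ) * (K : ℝ) ^ (σ - 2 * κ + 6 * δ) := by
    intro a D hD _
    have e1 : (N : ℝ) ^ (3 * δ) = (N : ℝ) ^ δ * (N : ℝ) ^ δ * (N : ℝ) ^ δ := by
      rw [← Real.rpow_add hNr, ← Real.rpow_add hNr]
      congr 1
      ring
    calc Cb * (D * (N : ℝ) ^ δ) ^ 2 * (N : ℝ) ^ δ * R ^ 2 / K
        = Cb * D ^ 2 * (N : ℝ) ^ (3 * δ) * R ^ 2 / K := by rw [e1]; ring
      _ ≤ Cb * D ^ 2 * (4 ^ (3 * δ) * (K : ℝ) ^ (6 * δ)) * (K : ℝ) ^ (1 + σ - 2 * κ) / K := by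
          gcongr
      _ = Cb * D ^ 2 * 4 ^ (3 * δ) *
          ((K : ℝ) ^ (6 * δ) * (K : ℝ) ^ (1 + σ - 2 * κ) / (K : ℝ) ^ (1 : ℝ)) := by
          rw [Real.rpow_one]
          ring
      _ = _ := by
          rw [← Real.rpow_add hKr, ← Real.rpow_sub hKr]
          congr 2
          ring
  unfold badS
  refine le_trans (Nat.cast_le.2 (card_union_le _ _)) ?_
  rw [Nat.cast_add, add_mul]
  have hΛ : ∀ n ∈ Icc 1 (2 * N), |vonMangoldt n| ≤ (2 * Cl) * (N : ℝ) ^ δ := by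
    intro n hn
    rw [mem_Icc] at hn
    rw [abs_of_nonneg vonMangoldt_nonneg]
    have h1 : vonMangoldt n ≤ Real.log n := ArithmeticFunction.vonMangoldt_le_log
    have h2 : Real.log n ≤ Real.log ((2 * N : ℕ) : ℝ) := by
      apply Real.log_le_log
      · exact_mod_cast (by omega : 0 < n)
      · exact_mod_cast hn.2
    have h3 : Real.log ((2 * N : ℕ) : ℝ) ≤ 1 + Real.log N := by
      push_cast
      rw [Real.log_mul (by norm_num) hNr.ne']
      have := Real.log_two_lt_d9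
      linarith
    have h4 := hlog N (by omega)
    have h5 : 0 ≤ Cl * (N : ℝ) ^ δ := by positivity
    linarith
  have hff' : ∀ n ∈ Icc 1 (2 * N), |ff (N / R) R n| ≤ Cf * (N : ℝ) ^ δ := by
    intro n hn
    rw [mem_Icc] at hn
    exact hff N (N / R) R n hR1 hRN hn.1 (by omega)
  apply add_le_add
  · refine (hbad K N (N / R) R vonMangoldt _ (by omega) hKN hR1 hRN hQ hΛ).trans ?_
    exact key _ _ (by positivity) hΛ
  · refine (hbad K N (N / R) R (ff (N / R) R) _ (by omega) hKN hR1 hRN hQ hff').trans ?_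
    exact key _ _ hCf.le hff'

open Classical in
theorem main (ε : ℝ) (hε : 0 < ε) : ∃ κ K₀ : ℝ, 0 < κ ∧ ∀ (K : ℕ) (σ : ℝ), K₀ ≤ K → 0 ≤ σ →
    σ ≤ 1 → (((Ioc K (2 * K)).filter (fun k : ℕ => ∃ X : ℝ, (k : ℝ) ≤ X ∧
      GG X k < X * ((1 + σ) * Real.log k - Real.log X - ε * Real.log X))).card : ℝ) ≤
      (K : ℝ) ^ (σ - κ) := by
  set ε' : ℝ := min ε 1 with hε'
  have hε'0 : 0 < ε' := lt_min hε one_pos
  have hε'ε : ε' ≤ ε := min_le_left _ _
  obtain ⟨κ, η, hκ, hκ16, hη, hη4, K0, hcore⟩ := core ε' hε'0 (min_le_right _ _)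
  obtain ⟨C, hC, K1, hcard⟩ := bad_card κ η hκ (by linarith) hη
  obtain ⟨Cl, hCl, hlog⟩ := one_add_log_le (κ / 8) (by positivity)
  have hlη : 0 < Real.log (1 + η) := Real.log_pos (by linarith)
  set D : ℝ := (2 / Real.log (1 + η) + 1) * Cl * C with hD
  have hD0 : 0 < D := by positivity
  obtain ⟨K2, hK2⟩ := Filter.eventually_atTop.1 (ev_rpow D (κ / 8) (by positivity))
  refine ⟨κ, max (max (K0 : ℝ) K1) (max (K2 : ℝ) (max 2 ((1 + η) / η))), hκ, ?_⟩
  intro K σ hK hσ hσ1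
  have hKK0 : K0 ≤ K := by
    exact_mod_cast ((le_max_left _ _).trans (le_max_left _ _)).trans hK
  have hKK1 : K1 ≤ K := by
    exact_mod_cast ((le_max_right _ _).trans (le_max_left _ _)).trans hK
  have hKK2 : K2 ≤ K := by
    exact_mod_cast ((le_max_left _ _).trans (le_max_right _ _)).trans hK
  have hKr2 : (2 : ℝ) ≤ K :=
    ((le_max_left _ _).trans ((le_max_right _ _).trans (le_max_right _ _))).trans hK
  have hKη : (1 + η) / η ≤ K :=
    ((le_max_right _ _).trans ((le_max_right _ _).trans (le_max_right _ _))).trans hK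
  have hKr : (0 : ℝ) < K := by linarith
  have hK1 : 1 ≤ K := by
    have : (1 : ℝ) ≤ K := by linarith
    exact_mod_cast this
  set Nj : ℕ → ℕ := fun j => ⌊(K : ℝ) * (1 + η) ^ j⌋₊ with hNj
  have hNjK : ∀ j, K ≤ Nj j := by
    intro j
    apply Nat.le_floor
    have : (1 : ℝ) ≤ (1 + η) ^ j := one_le_pow₀ (by linarith)
    exact le_mul_of_one_le_right hKr.le this
  set J : ℕ := ⌊Real.log (4 * K) / Real.log (1 + η)⌋₊ + 1 with hJ
  set bad : ℕ → Finset ℕ := fun j => if (Nj j : ℝ) ≤ 4 * K ^ 2 then badS η K (Nj j) (RR κ σ K)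
    else ∅ with hbad
  have hbadc : ∀ j, ((bad j).card : ℝ) ≤ C * (K : ℝ) ^ (σ - 2 * κ + 6 * (κ / 8)) := by
    intro j
    simp only [hbad]
    split_ifs with h
    · exact hcard K (Nj j) σ hKK1 hσ hσ1 (hNjK j) h
    · rw [card_empty, Nat.cast_zero]
      positivity
  have hsub : (Ioc K (2 * K)).filter (fun k : ℕ => ∃ X : ℝ, (k : ℝ) ≤ X ∧
      GG X k < X * ((1 + σ) * Real.log k - Real.log X - ε * Real.log X)) ⊆
      (range J).biUnion bad := by
    intro k hk
    rw [mem_filter, mem_Ioc] at hk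
    obtain ⟨⟨hk1, hk2⟩, X, hkX, hlt⟩ := hk
    have hkK : (K : ℝ) < k := by exact_mod_cast hk1
    have hk2r : (k : ℝ) ≤ 2 * K := by exact_mod_cast hk2
    have hkr : (0 : ℝ) < k := by linarith
    have hXr : 0 < X := by linarith
    have hX1 : 1 ≤ X := by linarith
    have hlX : 0 ≤ Real.log X := Real.log_nonneg hX1
    have hlt' : GG X k < X * ((1 + σ) * Real.log k - Real.log X - ε' * Real.log X) := by
      refine lt_of_lt_of_le hlt ?_
      apply mul_le_mul_of_nonneg_left _ hXr.le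
      have : ε' * Real.log X ≤ ε * Real.log X := mul_le_mul_of_nonneg_right hε'ε hlX
      linarith
    have hpos : 0 < (1 + σ) * Real.log k - Real.log X - ε' * Real.log X := by
      by_contra h
      push Not at h
      have h1 := mul_nonpos_of_nonneg_of_nonpos hXr.le h
      have := GG_nonneg X k
      linarith
    have hX4 : X ≤ 4 * K ^ 2 := by
      have h0 : 0 ≤ Real.log k := Real.log_nonneg (by linarith)
      have h1 : Real.log X ≤ Real.log ((k : ℝ) ^ 2) := by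
        rw [Real.log_pow]
        push_cast
        have h2 : (1 + σ) * Real.log k ≤ 2 * Real.log k :=
          mul_le_mul_of_nonneg_right (by linarith) h0
        have h3 : 0 ≤ ε' * Real.log X := by positivity
        linarith
      have h2 : X ≤ (k : ℝ) ^ 2 := (Real.log_le_log_iff hXr (by positivity)).1 h1
      have h3 : (k : ℝ) ^ 2 ≤ (2 * K) ^ 2 := pow_le_pow_left₀ hkr.le hk2r 2
      calc X ≤ (2 * (K : ℝ)) ^ 2 := h2.trans h3
        _ = 4 * K ^ 2 := by ring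
    -- the grid point
    set y : ℝ := Real.log (X / K) / Real.log (1 + η) with hy
    have hXK : 1 ≤ X / K := by
      rw [le_div_iff₀ hKr]
      linarith
    have hy0 : 0 ≤ y := div_nonneg (Real.log_nonneg hXK) hlη.le
    set j : ℕ := ⌊y⌋₊ with hj
    have hj1 : (j : ℝ) ≤ y := Nat.floor_le hy0
    have hj2 : y < j + 1 := Nat.lt_floor_add_one y
    have h1η : (0 : ℝ) < 1 + η := by linarith
    have hlow : (K : ℝ) * (1 + η) ^ j ≤ X := by
      rw [le_div_iff₀ hlη] at hj1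
      have h1 : Real.log ((1 + η) ^ j) ≤ Real.log (X / K) := by
        rw [Real.log_pow]
        exact hj1
      have h2 := (Real.log_le_log_iff (by positivity) (by positivity)).1 h1
      rw [le_div_iff₀ hKr] at h2
      linarith
    have hhigh : X ≤ (K : ℝ) * (1 + η) ^ j * (1 + η) := by
      rw [div_lt_iff₀ hlη] at hj2
      have h1 : Real.log (X / K) ≤ Real.log ((1 + η) ^ (j + 1)) := by
        rw [Real.log_pow]
        push_cast
        exact hj2.le
      have h2 := (Real.log_le_log_iff (by positivity) (by positivity)).1 h1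
      rw [div_le_iff₀ hKr, pow_succ] at h2
      linarith
    have hNX : (Nj j : ℝ) ≤ X := (Nat.floor_le (by positivity)).trans hlow
    have hXN : X ≤ (1 + 2 * η) * Nj j := by
      have h1 : (K : ℝ) * (1 + η) ^ j < Nj j + 1 := Nat.lt_floor_add_one _
      have h2 : (K : ℝ) ≤ Nj j := by exact_mod_cast hNjK j
      have h3 : 1 + η ≤ η * Nj j := by
        rw [div_le_iff₀ hη] at hKη
        have := mul_le_mul_of_nonneg_left h2 hη.le
        linarith
      have h4 : (K : ℝ) * (1 + η) ^ j * (1 + η) ≤ (Nj j + 1) * (1 + η) :=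
        mul_le_mul_of_nonneg_right h1.le h1η.le
      have h5 : ((Nj j : ℝ) + 1) * (1 + η) = (1 + η) * Nj j + (1 + η) := by ring
      have h6 : (1 + 2 * η) * (Nj j : ℝ) = (1 + η) * Nj j + η * Nj j := by ring
      rw [h6]
      rw [h5] at h4
      linarith
    have hN4 : (Nj j : ℝ) ≤ 4 * K ^ 2 := hNX.trans hX4
    have hjJ : j < J := by
      rw [hJ]
      apply Nat.lt_succ_of_le
      apply Nat.floor_le_floor
      rw [hy]
      apply div_le_div_of_nonneg_right _ hlη.le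
      apply Real.log_le_log (by positivity)
      rw [div_le_iff₀ hKr]
      calc X ≤ 4 * (K : ℝ) ^ 2 := hX4
        _ = 4 * K * K := by ring
    rw [mem_biUnion]
    refine ⟨j, mem_range.2 hjJ, ?_⟩
    simp only [hbad]
    rw [if_pos hN4]
    by_contra hnb
    unfold badS at hnb
    rw [mem_union, mem_filter, mem_filter, mem_Ioc] at hnb
    push Not at hnb
    obtain ⟨n1, n2⟩ := hnb
    have m1 := n1 ⟨hk1, hk2⟩
    have m2 := n2 ⟨hk1, hk2⟩
    have := hcore K (Nj j) k σ X hKK0 hσ hσ1 (hNjK j) hk1 hk2 hNX hXN m1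
      (m2 (Nj j) (by omega))
    linarith
  have hcard2 : ((((Ioc K (2 * K)).filter (fun k : ℕ => ∃ X : ℝ, (k : ℝ) ≤ X ∧
      GG X k < X * ((1 + σ) * Real.log k - Real.log X - ε * Real.log X))).card : ℕ) : ℝ) ≤
      ∑ j ∈ range J, ((bad j).card : ℝ) := by
    have h1 := (card_le_card hsub).trans card_biUnion_le
    exact_mod_cast h1
  refine hcard2.trans ((sum_le_sum fun j _ => hbadc j).trans ?_)
  rw [sum_const, card_range, nsmul_eq_mul]
  have hJr : (J : ℝ) ≤ (2 / Real.log (1 + η) + 1) * (Cl * (K : ℝ) ^ (κ / 8)) := by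
    have h0 : 0 ≤ Real.log K := Real.log_nonneg (by linarith)
    have h1 : Real.log (4 * K) ≤ 2 * (1 + Real.log K) := by
      rw [Real.log_mul (by norm_num) hKr.ne']
      have h2 : Real.log 4 = 2 * Real.log 2 := by
        rw [show (4 : ℝ) = 2 ^ 2 by norm_num, Real.log_pow]
        norm_num
      have := Real.log_two_lt_d9
      linarith
    have h2 : (J : ℝ) ≤ Real.log (4 * K) / Real.log (1 + η) + 1 := by
      rw [hJ]
      push_cast
      have h3 : 0 ≤ Real.log (4 * K) / Real.log (1 + η) :=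
        div_nonneg (Real.log_nonneg (by linarith)) hlη.le
      have := Nat.floor_le h3
      linarith
    have h3 : Real.log (4 * K) / Real.log (1 + η) ≤
        2 / Real.log (1 + η) * (1 + Real.log K) := by
      rw [div_mul_eq_mul_div]
      exact div_le_div_of_nonneg_right h1 hlη.le
    have h4 := hlog K hK1
    calc (J : ℝ) ≤ 2 / Real.log (1 + η) * (1 + Real.log K) + 1 := by linarith
      _ ≤ (2 / Real.log (1 + η) + 1) * (1 + Real.log K) := by
          have : (2 / Real.log (1 + η) + 1) * (1 + Real.log K) =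
            2 / Real.log (1 + η) * (1 + Real.log K) + 1 + Real.log K := by ring
          rw [this]
          linarith
      _ ≤ (2 / Real.log (1 + η) + 1) * (Cl * (K : ℝ) ^ (κ / 8)) := by
          apply mul_le_mul_of_nonneg_left h4
          positivity
  calc (J : ℝ) * (C * (K : ℝ) ^ (σ - 2 * κ + 6 * (κ / 8)))
      ≤ ((2 / Real.log (1 + η) + 1) * (Cl * (K : ℝ) ^ (κ / 8))) *
        (C * (K : ℝ) ^ (σ - 2 * κ + 6 * (κ / 8))) := by gcongr
    _ = D * ((K : ℝ) ^ (κ / 8) * (K : ℝ) ^ (σ - 2 * κ + 6 * (κ / 8))) := by rw [hD]; ring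
    _ ≤ (K : ℝ) ^ (κ / 8) * ((K : ℝ) ^ (κ / 8) * (K : ℝ) ^ (σ - 2 * κ + 6 * (κ / 8))) := by
        apply mul_le_mul_of_nonneg_right (hK2 K hKK2) (by positivity)
    _ = (K : ℝ) ^ (σ - κ) := by
        rw [← Real.rpow_add hKr, ← Real.rpow_add hKr]
        congr 1
        ring

end Pool.Agent.T9h55.VM
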