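import Pool.Agent.T9h55.VM.Corr

/-!
The maximal inequality of Rademacher and Menshov for the off-diagonal correlation sums.
-/

open Finset

namespace Pool.Agent.T9h55.VM

lemma block_eq (z : ℕ → ℝ) (n k : ℕ) :
    (∑ i ∈ range (n / 2 ^ k * 2 ^ k), z i - ∑ i ∈ range (n / 2 ^ (k + 1) * 2 ^ (k + 1)), z i) ^ 2 ≤
      (∑ i ∈ Ico (2 * (n / 2 ^ (k + 1)) * 2 ^ k) ((2 * (n / 2 ^ (k + 1)) + 1) * 2 ^ k), z i) ^ 2 ∧
    (n / 2 ^ k * 2 ^ k = n / 2 ^ (k + 1) * 2 ^ (k + 1) ∨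
      n / 2 ^ k = 2 * (n / 2 ^ (k + 1)) + 1) := by
  set q := n / 2 ^ k with hq
  have h1 : n / 2 ^ (k + 1) = q / 2 := by
    rw [hq, Nat.div_div_eq_div_mul, pow_succ]
  rw [h1]
  have h2 : q / 2 * 2 ^ (k + 1) = 2 * (q / 2) * 2 ^ k := by
    rw [pow_succ]
    ring
  rw [h2]
  rcases Nat.even_or_odd' q with ⟨m, hm | hm⟩
  · have h3 : q / 2 = m := by omega
    rw [h3, hm, sub_self]
    refine ⟨by rw [zero_pow (by norm_num)]; positivity, Or.inl rfl⟩
  · have h3 : q / 2 = m := by omega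
    rw [h3, hm]
    refine ⟨le_of_eq ?_, Or.inr rfl⟩
    congr 1
    have h4 : 2 * m * 2 ^ k ≤ (2 * m + 1) * 2 ^ k := Nat.mul_le_mul_right _ (by omega)
    rw [Finset.sum_Ico_eq_sub _ h4]

/-- the maximal inequality of Rademacher and Menshov -/
theorem maximal (z : ℕ → ℝ) (L n : ℕ) (hn : n < 2 ^ L) :
    (∑ i ∈ range n, z i) ^ 2 ≤ (L : ℝ) * ∑ k ∈ range L, ∑ j ∈ range (2 ^ (L - k)),
      (∑ i ∈ Ico (j * 2 ^ k) ((j + 1) * 2 ^ k), z i) ^ 2 := by
  have h1 : ∑ i ∈ range n, z i = ∑ k ∈ range L,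
      (∑ i ∈ range (n / 2 ^ k * 2 ^ k), z i -
        ∑ i ∈ range (n / 2 ^ (k + 1) * 2 ^ (k + 1)), z i) := by
    rw [Finset.sum_range_sub' (fun k => ∑ i ∈ range (n / 2 ^ k * 2 ^ k), z i)]
    have h2 : n / 2 ^ L = 0 := Nat.div_eq_of_lt hn
    rw [h2]
    simp
  rw [h1]
  refine (sq_sum_le_card_mul_sum_sq (s := range L)).trans ?_
  rw [card_range]
  apply mul_le_mul_of_nonneg_left _ (by positivity)
  refine Finset.sum_le_sum fun k hk => ?_
  rw [mem_range] at hk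
  obtain ⟨h2, h3⟩ := block_eq z n k
  rcases h3 with h3 | h3
  · rw [h3, sub_self]
    have : (0 : ℝ) ^ 2 = 0 := by norm_num
    rw [this]
    exact Finset.sum_nonneg fun j _ => by positivity
  · refine h2.trans ?_
    have h4 : 2 * (n / 2 ^ (k + 1)) ∈ range (2 ^ (L - k)) := by
      rw [mem_range]
      have h5 : n / 2 ^ k < 2 ^ (L - k) := by
        rw [Nat.div_lt_iff_lt_mul (by positivity), ← pow_add]
        have : L - k + k = L := by omega
        rwa [this]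
      omega
    exact Finset.single_le_sum
      (f := fun j => (∑ i ∈ Ico (j * 2 ^ k) ((j + 1) * 2 ^ k), z i) ^ 2)
      (fun j _ => by positivity) h4

/-- restriction of a sequence to an interval -/
noncomputable def res (a : ℕ → ℝ) (s : Finset ℕ) (n : ℕ) : ℝ := if n ∈ s then a n else 0

/-- summand of the off-diagonal part -/
noncomputable def zk (a b : ℕ → ℝ) (Z N k n : ℕ) : ℝ :=
  if n ∈ Icc 1 Z then ∑ m ∈ Icc 1 N, (if m ≠ n ∧ m ≡ n [MOD k] then a n * b m else 0) else 0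

lemma off_res (a b : ℕ → ℝ) (Z N k : ℕ) (s : Finset ℕ) :
    off (res a s) b Z N k = ∑ n ∈ s, zk a b Z N k n := by
  unfold off zk
  have h1 : ∑ n ∈ Icc 1 Z, ∑ m ∈ Icc 1 N,
      (if m ≠ n ∧ m ≡ n [MOD k] then res a s n * b m else 0) =
      ∑ n ∈ Icc 1 Z, if n ∈ s then
        ∑ m ∈ Icc 1 N, (if m ≠ n ∧ m ≡ n [MOD k] then a n * b m else 0) else 0 := by
    refine sum_congr rfl fun n _ => ?_
    unfold res
    split_ifs with h
    · rfl
    · simp
  rw [h1, ← sum_filter, ← sum_filter]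
  apply sum_congr _ fun _ _ => rfl
  ext n
  simp only [mem_filter]
  tauto

lemma off_cut (a b : ℕ → ℝ) (Z N k T : ℕ) (hT : T ≤ Z) :
    off a b T N k = ∑ n ∈ range (T + 1), zk a b Z N k n := by
  have h1 : ∑ n ∈ range (T + 1), zk a b Z N k n = ∑ n ∈ Icc 1 T, zk a b Z N k n := by
    have h0 : zk a b Z N k 0 = 0 := by
      unfold zk
      rw [if_neg (by simp)]
    have : Icc 1 T ⊆ range (T + 1) := by
      intro x hx
      rw [mem_Icc] at hx
      rw [mem_range]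
      omega
    symm
    apply sum_subset this
    intro x hx hx'
    rw [mem_range] at hx
    rw [mem_Icc] at hx'
    have : x = 0 := by omega
    rw [this, h0]
  rw [h1]
  unfold off zk
  refine sum_congr rfl fun n hn => ?_
  rw [mem_Icc] at hn
  rw [if_pos (by rw [mem_Icc]; omega)]

/-- mean square over the moduli of the maximal off-diagonal part -/
theorem off_max (a b : ℕ → ℝ) (Z N K L : ℕ) (hN : 1 ≤ N) (hK : 1 ≤ K) (B T : ℝ)
    (hB : ∀ t : ℝ, ‖es N b t‖ ≤ B)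
    (hT : ∀ j : ℕ, 1 ≤ j → j ≤ Z + N → (j.divisors.card : ℝ) ≤ T) (hL : Z + 1 < 2 ^ L)
    (τ : ℕ → ℕ) (hτ : ∀ k, τ k ≤ Z) :
    ∑ k ∈ Ioc K (2 * K), off a b (τ k) N k ^ 2 ≤
      (L : ℝ) ^ 2 * (((Z + N : ℕ) : ℝ) / K * T * (B ^ 2 * ∑ n ∈ Icc 1 Z, a n ^ 2)) := by
  have h1 : ∀ k ∈ Ioc K (2 * K), off a b (τ k) N k ^ 2 ≤
      (L : ℝ) * ∑ i ∈ range L, ∑ j ∈ range (2 ^ (L - i)),
        off (res a (Ico (j * 2 ^ i) ((j + 1) * 2 ^ i))) b Z N k ^ 2 := by
    intro k _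
    rw [off_cut a b Z N k (τ k) (hτ k)]
    refine (maximal _ L _ (lt_of_le_of_lt (Nat.add_le_add_right (hτ k) 1) hL)).trans (le_of_eq ?_)
    congr 1
    refine sum_congr rfl fun i _ => sum_congr rfl fun j _ => ?_
    rw [off_res]
  refine (sum_le_sum h1).trans ?_
  rw [← mul_sum, sum_comm, sq, mul_assoc]
  apply mul_le_mul_of_nonneg_left _ (by positivity)
  have h2 : ∀ i ∈ range L, ∑ k ∈ Ioc K (2 * K), ∑ j ∈ range (2 ^ (L - i)),
        off (res a (Ico (j * 2 ^ i) ((j + 1) * 2 ^ i))) b Z N k ^ 2 ≤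
      ((Z + N : ℕ) : ℝ) / K * T * (B ^ 2 * ∑ n ∈ Icc 1 Z, a n ^ 2) := by
    intro i _
    rw [sum_comm]
    have h3 : ∀ j ∈ range (2 ^ (L - i)), ∑ k ∈ Ioc K (2 * K),
        off (res a (Ico (j * 2 ^ i) ((j + 1) * 2 ^ i))) b Z N k ^ 2 ≤
        ((Z + N : ℕ) : ℝ) / K * T * (B ^ 2 *
          ∑ n ∈ Icc 1 Z, res a (Ico (j * 2 ^ i) ((j + 1) * 2 ^ i)) n ^ 2) := by
      intro j _
      exact off_sq _ b Z N K hN hK B T hB hT
    refine (sum_le_sum h3).trans ?_
    rw [← mul_sum, ← mul_sum]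
    have hT0 : 0 ≤ T := (Nat.cast_nonneg _).trans (hT 1 le_rfl (by omega))
    apply mul_le_mul_of_nonneg_left _ (by positivity)
    apply mul_le_mul_of_nonneg_left _ (by positivity)
    rw [sum_comm]
    refine sum_le_sum fun n _ => ?_
    have h4 : ∀ j ∈ range (2 ^ (L - i)), res a (Ico (j * 2 ^ i) ((j + 1) * 2 ^ i)) n ^ 2 ≤
        if j = n / 2 ^ i then a n ^ 2 else 0 := by
      intro j _
      unfold res
      split_ifs with h5 h6 h6
      · exact le_rfl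
      · exfalso
        apply h6
        rw [mem_Ico] at h5
        symm
        have h7 := Nat.le_div_iff_mul_le (x := j) (y := n) (Nat.two_pow_pos i)
        have h8 := Nat.div_lt_iff_lt_mul (x := n) (y := j + 1) (Nat.two_pow_pos i)
        have h9 := h7.2 h5.1
        have h10 := h8.2 h5.2
        omega
      · rw [zero_pow (by norm_num)]
        positivity
      · rw [zero_pow (by norm_num)]
    refine (sum_le_sum h4).trans ?_
    rw [sum_ite_eq']
    split_ifs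
    · exact le_rfl
    · positivity
  refine (sum_le_sum h2).trans ?_
  rw [sum_const, card_range, nsmul_eq_mul]

end Pool.Agent.T9h55.VM
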