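import Pool.Agent.T9h55.VM.Mob

/-!
Sums of `μ(e)/φ(e)` times the remainder of `y` modulo `e`.
-/

open Finset

namespace Pool.Agent.T9h55.VM

/-- the inequality of Abel -/
theorem abel_ineq (h w : ℕ → ℝ) (a b : ℕ) (B : ℝ) (hab : a < b)
    (hw : ∀ t, a < t → w (t + 1) ≤ w t) (hw0 : ∀ t, 0 ≤ w t)
    (hB : ∀ t, a ≤ t → t ≤ b → |∑ e ∈ Ioc a t, h e| ≤ B) :
    |∑ e ∈ Ioc a b, h e * w e| ≤ B * w (a + 1) := by
  have key : ∀ c, a + 1 ≤ c → c ≤ b →
      |∑ e ∈ Ioc a c, h e * w e - (∑ e ∈ Ioc a c, h e) * w c| ≤ B * (w (a + 1) - w c) := by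
    intro c hc
    induction c, hc using Nat.le_induction with
    | base =>
      intro _
      have : Ioc a (a + 1) = {a + 1} := by
        ext x
        rw [mem_Ioc, mem_singleton]
        omega
      rw [this]
      simp
    | succ c hc ih =>
      intro hcb
      have ih' := ih (by omega)
      have e1 : Ioc a (c + 1) = insert (c + 1) (Ioc a c) := by
        ext x
        rw [mem_insert, mem_Ioc, mem_Ioc]
        omega
      have e2 : c + 1 ∉ Ioc a c := by simp
      rw [e1, sum_insert e2, sum_insert e2]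
      have e3 : h (c + 1) * w (c + 1) + ∑ e ∈ Ioc a c, h e * w e -
          (h (c + 1) + ∑ e ∈ Ioc a c, h e) * w (c + 1) =
          (∑ e ∈ Ioc a c, h e * w e - (∑ e ∈ Ioc a c, h e) * w c) +
            (∑ e ∈ Ioc a c, h e) * (w c - w (c + 1)) := by ring
      rw [e3]
      refine (abs_add_le _ _).trans ?_
      have h1 : |(∑ e ∈ Ioc a c, h e) * (w c - w (c + 1))| ≤ B * (w c - w (c + 1)) := by
        have h2 : 0 ≤ w c - w (c + 1) := by
          have := hw c (by omega)
          linarith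
        rw [abs_mul, abs_of_nonneg h2]
        exact mul_le_mul_of_nonneg_right (hB c (by omega) (by omega)) h2
      linarith
  have h1 := key b (by omega) le_rfl
  have h2 := hB b hab.le le_rfl
  have h3 : |(∑ e ∈ Ioc a b, h e) * w b| ≤ B * w b := by
    rw [abs_mul, abs_of_nonneg (hw0 b)]
    exact mul_le_mul_of_nonneg_right h2 (hw0 b)
  have h4 : ∑ e ∈ Ioc a b, h e * w e =
      (∑ e ∈ Ioc a b, h e * w e - (∑ e ∈ Ioc a b, h e) * w b) + (∑ e ∈ Ioc a b, h e) * w b := by
    ring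
  rw [h4]
  refine (abs_add_le _ _).trans ?_
  linarith

/-- summand with the remainder -/
noncomputable def ge (D y e : ℕ) : ℝ :=
  if e.Coprime D then mu e / ph e * ((y % e : ℕ) : ℝ) else 0

/-- summand of `PP` -/
noncomputable def he (D e : ℕ) : ℝ := if e.Coprime D then mu e * ((e : ℝ) / ph e) else 0

lemma ge_eq (D y e : ℕ) (he1 : 1 ≤ e) :
    ge D y e = he D e * ((y : ℝ) / e) - he D e * ((y / e : ℕ) : ℝ) := by
  unfold ge he
  split_ifs with h
  · have h1 : ((y % e : ℕ) : ℝ) = y - e * ((y / e : ℕ) : ℝ) := by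
      have := Nat.mod_add_div y e
      have h2 : ((y % e : ℕ) : ℝ) + (e : ℝ) * ((y / e : ℕ) : ℝ) = y := by exact_mod_cast this
      linarith
    have he0 : (e : ℝ) ≠ 0 := by
      have : (0 : ℝ) < e := by exact_mod_cast he1
      exact this.ne'
    have hp0 : ph e ≠ 0 := (ph_pos he1).ne'
    rw [h1]
    field_simp
  · simp

lemma PP_he (D n : ℕ) : PP D n = ∑ e ∈ Icc 1 n, he D e := by
  unfold PP he
  rw [sum_filter]

lemma Icc_split {a t : ℕ} (h : a ≤ t) (f : ℕ → ℝ) :
    ∑ e ∈ Icc 1 t, f e = ∑ e ∈ Icc 1 a, f e + ∑ e ∈ Ioc a t, f e := by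
  rw [← sum_union]
  · apply sum_congr _ fun _ _ => rfl
    ext x
    rw [mem_union, mem_Icc, mem_Icc, mem_Ioc]
    omega
  · rw [disjoint_left]
    intro x hx hx'
    rw [mem_Icc] at hx
    rw [mem_Ioc] at hx'
    omega

lemma block (D y a b : ℕ) (E : ℝ) (ha : 1 ≤ a) (hab : a ≤ b)
    (hE : ∀ t ≤ b, |PP D t| ≤ E) :
    |∑ e ∈ Ioc a b, ge D y e| ≤ 4 * E * (y / a) := by
  have hE0 : 0 ≤ E := (abs_nonneg _).trans (hE 0 (by omega))
  have ha0 : (0 : ℝ) < a := by exact_mod_cast ha
  rcases hab.eq_or_lt with rfl | hab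
  · rw [Ioc_self, sum_empty, abs_zero]
    positivity
  have h1 : ∑ e ∈ Ioc a b, ge D y e = ∑ e ∈ Ioc a b, he D e * ((y : ℝ) / e) -
      ∑ e ∈ Ioc a b, he D e * ((y / e : ℕ) : ℝ) := by
    rw [← sum_sub_distrib]
    refine sum_congr rfl fun e hee => ?_
    rw [mem_Ioc] at hee
    exact ge_eq D y e (by omega)
  have hS : ∀ t, a ≤ t → t ≤ b → |∑ e ∈ Ioc a t, he D e| ≤ 2 * E := by
    intro t hat htb
    have h2 := Icc_split hat (he D)
    rw [← PP_he, ← PP_he] at h2
    have h3 : ∑ e ∈ Ioc a t, he D e = PP D t - PP D a := by linarith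
    rw [h3]
    have h4 := hE t htb
    have h5 := hE a (hat.trans htb)
    have h6 : PP D t - PP D a = PP D t + (-(PP D a)) := by ring
    rw [h6]
    refine (abs_add_le _ _).trans ?_
    rw [abs_neg]
    linarith
  have h2 := abel_ineq (he D) (fun e => (y : ℝ) / e) a b (2 * E) hab
    (fun t ht => by
      apply div_le_div_of_nonneg_left (by positivity)
      · have : 0 < t := by omega
        exact_mod_cast this
      · push_cast
        linarith) (fun t => by positivity) hS
  have h3 := abel_ineq (he D) (fun e => ((y / e : ℕ) : ℝ)) a b (2 * E) hab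
    (fun t ht => by
      have : y / (t + 1) ≤ y / t := Nat.div_le_div_left (by omega) (by omega)
      exact_mod_cast this) (fun t => by positivity) hS
  have h4 : (y : ℝ) / ((a + 1 : ℕ) : ℝ) ≤ y / a := by
    apply div_le_div_of_nonneg_left (by positivity) ha0
    push_cast
    linarith
  have h5 : ((y / (a + 1) : ℕ) : ℝ) ≤ y / a := by
    refine le_trans Nat.cast_div_le h4
  rw [h1, sub_eq_add_neg]
  refine (abs_add_le _ _).trans ?_
  rw [abs_neg]
  have h6 : 2 * E * ((y : ℝ) / ((a + 1 : ℕ) : ℝ)) ≤ 2 * E * (y / a) :=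
    mul_le_mul_of_nonneg_left h4 (by positivity)
  have h7 : 2 * E * ((y / (a + 1) : ℕ) : ℝ) ≤ 2 * E * (y / a) :=
    mul_le_mul_of_nonneg_left h5 (by positivity)
  linarith

lemma dyadic (A : ℕ) : ∃ T0 : ℕ, ∀ a0 : ℕ, T0 ≤ a0 → ∀ D : ℕ, 1 ≤ D → ∀ y i z : ℕ,
    z ≤ 2 ^ i * a0 → |∑ e ∈ Ioc a0 z, ge D y e| ≤
      (i : ℝ) * (8 * w4 D * y / (Real.log a0) ^ A) := by
  obtain ⟨T0, hT0⟩ := PP_bound A
  refine ⟨max T0 3, fun a0 ha0 D hD y i => ?_⟩
  have ha3 : 3 ≤ a0 := (le_max_right _ _).trans ha0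
  have haT : T0 ≤ a0 := (le_max_left _ _).trans ha0
  have ha1 : (1 : ℝ) < a0 := by exact_mod_cast (by omega : 1 < a0)
  have hlog : 0 < Real.log a0 := Real.log_pos ha1
  have hw := w4_pos D
  induction i with
  | zero =>
    intro z hz
    rw [pow_zero, one_mul] at hz
    rw [Ioc_eq_empty (by omega), sum_empty, abs_zero]
    simp
  | succ i ih =>
    intro z hz
    by_cases hz' : z ≤ 2 ^ i * a0
    · refine (ih z hz').trans ?_
      apply mul_le_mul_of_nonneg_right _ (by positivity)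
      push_cast
      linarith
    · push Not at hz'
      set a : ℕ := 2 ^ i * a0 with ha
      have haa0 : a0 ≤ a := by
        rw [ha]
        exact Nat.le_mul_of_pos_left _ (by positivity)
      have e1 : ∑ e ∈ Ioc a0 z, ge D y e = ∑ e ∈ Ioc a0 a, ge D y e + ∑ e ∈ Ioc a z, ge D y e := by
        rw [← sum_union]
        · apply sum_congr _ fun _ _ => rfl
          ext x
          rw [mem_union, mem_Ioc, mem_Ioc, mem_Ioc]
          omega
        · rw [disjoint_left]
          intro x hx hx'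
          rw [mem_Ioc] at hx hx'
          omega
      have hz2 : z ≤ 2 * a := by
        rw [ha]
        calc z ≤ 2 ^ (i + 1) * a0 := hz
          _ = 2 * (2 ^ i * a0) := by rw [pow_succ]; ring
      have h1 := ih a le_rfl
      have h2 := block D y a z (w4 D * (((2 * a : ℕ) : ℝ) / (Real.log ((2 * a : ℕ) : ℝ)) ^ A))
        (by omega) hz'.le (fun t ht => hT0 (2 * a) (by omega) D hD t (ht.trans hz2))
      rw [e1]
      refine (abs_add_le _ _).trans ((add_le_add h1 h2).trans ?_)
      have har : (0 : ℝ) < a := by exact_mod_cast (by omega : 0 < a)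
      have h3 : 4 * (w4 D * (((2 * a : ℕ) : ℝ) / (Real.log ((2 * a : ℕ) : ℝ)) ^ A)) * (y / a) ≤
          8 * w4 D * y / (Real.log a0) ^ A := by
        have h4 : Real.log a0 ≤ Real.log ((2 * a : ℕ) : ℝ) := by
          apply Real.log_le_log (by linarith)
          exact_mod_cast (by omega : a0 ≤ 2 * a)
        calc 4 * (w4 D * (((2 * a : ℕ) : ℝ) / (Real.log ((2 * a : ℕ) : ℝ)) ^ A)) * (y / a)
            = 8 * w4 D * y / (Real.log ((2 * a : ℕ) : ℝ)) ^ A := by
              push_cast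
              field_simp
              ring
          _ ≤ 8 * w4 D * y / (Real.log a0) ^ A := by gcongr
      push_cast at h3 ⊢
      linarith

/-- sums of `μ(e)/φ(e)` times the remainder of `y` modulo `e` -/
theorem PF (A : ℕ) (κ : ℝ) (hκ : 0 < κ) : ∃ N0 : ℕ, ∀ N : ℕ, N0 ≤ N → ∀ y : ℕ,
    (N : ℝ) ^ κ ≤ y → y ≤ N → ∀ D : ℕ, 1 ≤ D → ∀ z0 z : ℕ, z ≤ N →
    |∑ e ∈ Ioc z0 z, ge D y e| ≤ w4 D * (y / (Real.log N) ^ A) := by
  obtain ⟨T0, hT0⟩ := dyadic (A + 2)
  have hev1 := grow (A + 3) 2 (κ / 2) (by positivity)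
  have hev2 := log_large (100 + 96 * (8 * (2 / κ) ^ (A + 2)))
  have hev3 : ∀ᶠ N : ℕ in Filter.atTop, ((T0 : ℝ) + 3) ≤ (N : ℝ) ^ (κ / 2) :=
    ((tendsto_rpow_atTop (by positivity)).comp tendsto_natCast_atTop_atTop).eventually_ge_atTop _
  obtain ⟨N0, hN0⟩ := Filter.eventually_atTop.1 ((hev1.and hev2).and hev3)
  refine ⟨max N0 3, fun N hN y hy hyN D hD z0 z hz => ?_⟩
  obtain ⟨⟨g1, g2⟩, g3⟩ := hN0 N ((le_max_left _ _).trans hN)
  have hN3 : 3 ≤ N := (le_max_right _ _).trans hN
  have hNr : (0 : ℝ) < N := by exact_mod_cast (by omega : 0 < N)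
  have hN1 : (1 : ℝ) ≤ N := by exact_mod_cast (by omega : 1 ≤ N)
  set Lg : ℝ := Real.log N with hLg
  have hpos : 0 ≤ 96 * (8 * (2 / κ) ^ (A + 2)) := by positivity
  have hL100 : 100 ≤ Lg := by linarith
  have hL0 : 0 < Lg := by linarith
  have hw := w4_pos D
  have hw1 := one_le_w4 D
  set a0 : ℕ := ⌊(y : ℝ) / Lg ^ (A + 3)⌋₊ with ha0
  have hy0 : (0 : ℝ) ≤ y := by positivity
  have h1 : 2 * (N : ℝ) ^ (κ / 2) ≤ (y : ℝ) / Lg ^ (A + 3) := by
    rw [le_div_iff₀ (by positivity)]
    calc 2 * (N : ℝ) ^ (κ / 2) * Lg ^ (A + 3) = (N : ℝ) ^ (κ / 2) * (2 * Lg ^ (A + 3)) := by ring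
      _ ≤ (N : ℝ) ^ (κ / 2) * (N : ℝ) ^ (κ / 2) := by gcongr
      _ = (N : ℝ) ^ κ := by
          rw [← Real.rpow_add hNr]
          congr 1
          ring
      _ ≤ y := hy
  have ha0N : (N : ℝ) ^ (κ / 2) ≤ a0 := by
    have h2 := Nat.lt_floor_add_one ((y : ℝ) / Lg ^ (A + 3))
    rw [← ha0] at h2
    linarith
  have ha0T : T0 + 3 ≤ a0 := by
    have : ((T0 + 3 : ℕ) : ℝ) ≤ a0 := by push_cast; linarith
    exact_mod_cast this
  have ha0up : (a0 : ℝ) ≤ (y : ℝ) / Lg ^ (A + 3) := Nat.floor_le (by positivity)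
  have ha0r : (0 : ℝ) < a0 := by exact_mod_cast (by omega : 0 < a0)
  have hloga : κ / 2 * Lg ≤ Real.log a0 := by
    have := Real.log_le_log (by positivity) ha0N
    rwa [Real.log_rpow hNr] at this
  -- the main bound
  set δ : ℝ := w4 D * (y / Lg ^ A) / 4 with hδ
  have hδ0 : 0 ≤ δ := by positivity
  have hbig : ∀ u : ℕ, u ≤ N → |∑ e ∈ Ioc a0 u, ge D y e| ≤ δ := by
    intro u hu
    have h2 := hT0 a0 (by omega) D hD y (Nat.log 2 N + 1) u (by
      have h3 : N < 2 ^ (Nat.log 2 N + 1) := Nat.lt_pow_succ_log_self (by norm_num) N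
      calc u ≤ 2 ^ (Nat.log 2 N + 1) := by omega
        _ ≤ 2 ^ (Nat.log 2 N + 1) * a0 := Nat.le_mul_of_pos_right _ (by omega))
    refine h2.trans ?_
    have h3 : ((Nat.log 2 N + 1 : ℕ) : ℝ) ≤ 3 * Lg := by
      have hl2 : 1 / 2 < Real.log 2 := by
        have := Real.log_two_gt_d9
        linarith
      have h6 : ((Nat.log 2 N : ℕ) : ℝ) * Real.log 2 ≤ Lg := by
        have h7 : (2 : ℝ) ^ (Nat.log 2 N) ≤ N := by
          exact_mod_cast Nat.pow_log_le_self 2 (by omega)
        have h8 := Real.log_le_log (by positivity) h7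
        rwa [Real.log_pow] at h8
      have hn0 : (0 : ℝ) ≤ ((Nat.log 2 N : ℕ) : ℝ) := by positivity
      push_cast
      nlinarith
    have h4 : 0 < κ / 2 * Lg := by positivity
    calc ((Nat.log 2 N + 1 : ℕ) : ℝ) * (8 * w4 D * y / (Real.log a0) ^ (A + 2))
        ≤ (3 * Lg) * (8 * w4 D * y / (κ / 2 * Lg) ^ (A + 2)) := by gcongr
      _ = (24 * (2 / κ) ^ (A + 2) / Lg) * (w4 D * (y / Lg ^ A)) := by
          rw [mul_pow, div_pow, div_pow]
          field_simp
          ring
      _ ≤ 1 / 4 * (w4 D * (y / Lg ^ A)) := by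
          apply mul_le_mul_of_nonneg_right _ (by positivity)
          rw [div_le_div_iff₀ hL0 (by norm_num)]
          have : 0 ≤ (2 / κ) ^ (A + 2) := by positivity
          linarith
      _ = δ := by rw [hδ]; ring
  have hsmall : ∀ u : ℕ, u ≤ a0 → |∑ e ∈ Icc 1 u, ge D y e| ≤ δ := by
    intro u hu
    refine (abs_sum_le_sum_abs _ _).trans ?_
    have h2 : ∀ e ∈ Icc 1 u, |ge D y e| ≤ a0 * (tau e ^ 1 / e) := by
      intro e hee
      rw [mem_Icc] at hee
      have he0 : (0 : ℝ) < e := by exact_mod_cast hee.1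
      have h3 : |ge D y e| ≤ (e : ℝ) / ph e := by
        unfold ge
        split_ifs with h
        · rw [abs_mul, abs_div, abs_of_pos (ph_pos hee.1), Nat.abs_cast]
          have h4 : ((y % e : ℕ) : ℝ) ≤ e := by
            exact_mod_cast (Nat.mod_lt y (by omega : e > 0)).le
          calc |mu e| / ph e * ((y % e : ℕ) : ℝ) ≤ 1 / ph e * e := by
                apply mul_le_mul _ h4 (by positivity) (div_nonneg zero_le_one (ph_nonneg e))
                exact div_le_div_of_nonneg_right (mu_abs e) (ph_nonneg e)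
            _ = (e : ℝ) / ph e := by ring
        · rw [abs_zero]
          exact div_nonneg he0.le (ph_nonneg e)
      have h4 : (e : ℝ) ≤ a0 := by exact_mod_cast hee.2.trans hu
      calc |ge D y e| ≤ (e : ℝ) / ph e := h3
        _ ≤ tau e := div_ph_le hee.1
        _ = e * (tau e ^ 1 / e) := by field_simp
        _ ≤ a0 * (tau e ^ 1 / e) := by
            apply mul_le_mul_of_nonneg_right h4
            exact div_nonneg (pow_nonneg (tau_nonneg e) 1) he0.le
    refine (sum_le_sum h2).trans ?_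
    rw [← mul_sum]
    have h3 := tau_mom 1 u
    have h4 : (1 + Real.log u) ^ (2 ^ 1) ≤ (2 * Lg) ^ 2 := by
      have h5 : Real.log u ≤ Lg := by
        rcases Nat.eq_zero_or_pos u with h0 | h0
        · subst h0
          simp only [CharP.cast_eq_zero, Real.log_zero]
          exact hL0.le
        · apply Real.log_le_log (by exact_mod_cast h0)
          have h6 : (u : ℝ) ≤ a0 := by exact_mod_cast hu
          have h7 : (a0 : ℝ) ≤ y := by
            refine ha0up.trans (div_le_self hy0 ?_)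
            exact one_le_pow₀ (by linarith)
          have h8 : (y : ℝ) ≤ N := by exact_mod_cast hyN
          linarith
      have h6 : 0 ≤ 1 + Real.log u := by
        have := Real.log_natCast_nonneg u
        linarith
      exact pow_le_pow_left₀ h6 (by linarith) 2
    calc (a0 : ℝ) * ∑ e ∈ Icc 1 u, tau e ^ 1 / e ≤ (y / Lg ^ (A + 3)) * (2 * Lg) ^ 2 := by
          apply mul_le_mul ha0up (h3.trans h4)
          · exact sum_nonneg fun e _ => div_nonneg (pow_nonneg (tau_nonneg e) 1) (Nat.cast_nonneg e)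
          · positivity
      _ = (4 / Lg) * (y / Lg ^ A) := by
          field_simp
          ring
      _ ≤ 1 / 4 * (w4 D * (y / Lg ^ A)) := by
          apply mul_le_mul
          · rw [div_le_div_iff₀ hL0 (by norm_num)]
            linarith
          · have : 0 ≤ (y : ℝ) / Lg ^ A := by positivity
            nlinarith
          · positivity
          · norm_num
      _ = δ := by rw [hδ]; ring
  have hall : ∀ u : ℕ, u ≤ N → |∑ e ∈ Icc 1 u, ge D y e| ≤ 2 * δ := by
    intro u hu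
    rcases le_total u a0 with h2 | h2
    · have := hsmall u h2
      linarith
    · rw [Icc_split h2]
      refine (abs_add_le _ _).trans ?_
      have h3 := hsmall a0 le_rfl
      have h4 := hbig u hu
      linarith
  rcases lt_or_ge z z0 with h2 | h2
  · rw [Ioc_eq_empty (by omega), sum_empty, abs_zero]
    positivity
  · have h3 := Icc_split h2 (ge D y)
    have h4 : ∑ e ∈ Ioc z0 z, ge D y e = ∑ e ∈ Icc 1 z, ge D y e + -∑ e ∈ Icc 1 z0, ge D y e := by
      linarith
    rw [h4]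
    refine (abs_add_le _ _).trans ?_
    rw [abs_neg]
    have h5 := hall z hz
    have h6 := hall z0 (h2.trans hz)
    have h7 : w4 D * (y / Lg ^ A) = 4 * δ := by rw [hδ]; ring
    rw [h7]
    linarith

end Pool.Agent.T9h55.VM
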