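import Pool.Agent.T9h55.VM.Ram
import Pool.Agent.T9h55.VM.PF

/-!
The mean square of the truncated Ramanujan expansion over an interval shorter than the square of
the truncation parameter.
-/

open Finset

namespace Pool.Agent.T9h55.VM

/-- error term of the mean over the multiples of `d` -/
noncomputable def Err (Q R d y : ℕ) : ℝ :=
  ∑ g ∈ d.divisors, ∑ r ∈ (Icc 1 R).filter (fun r => Squarefree r ∧ r.Coprime d),
    mu g * (1 / ph r) * ∑ e ∈ Ioc (Q / (g * r)) (R / (g * r)), ge (d * r) y e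

/-- index set of triples -/
noncomputable def S2 (Q R d : ℕ) : Finset (ℕ × ℕ × ℕ) :=
  (d.divisors ×ˢ (Icc 1 R ×ˢ Icc 1 R)).filter (fun x =>
    (Squarefree x.2.1 ∧ Squarefree x.2.2 ∧ x.2.1.Coprime d ∧ x.2.2.Coprime (d * x.2.1)) ∧
      Q < x.1 * x.2.1 * x.2.2 ∧ x.1 * x.2.1 * x.2.2 ≤ R)

/-- index set of pairs -/
noncomputable def S1 (Q R d : ℕ) : Finset (ℕ × ℕ) :=
  ((H343.Mod Q R) ×ˢ Icc 1 R).filter (fun x => x.2 ∣ x.1 / x.1.gcd d)

lemma mem_S2 {Q R d g r e : ℕ} : (g, r, e) ∈ S2 Q R d ↔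
    ((g ∣ d ∧ d ≠ 0) ∧ (1 ≤ r ∧ r ≤ R) ∧ (1 ≤ e ∧ e ≤ R)) ∧
    (Squarefree r ∧ Squarefree e ∧ r.Coprime d ∧ e.Coprime (d * r)) ∧
      Q < g * r * e ∧ g * r * e ≤ R := by
  unfold S2
  rw [mem_filter, mem_product, mem_product, mem_Icc, mem_Icc, Nat.mem_divisors]

lemma mem_S1 {Q R d q e : ℕ} : (q, e) ∈ S1 Q R d ↔
    (((Q < q ∧ q ≤ R) ∧ Squarefree q) ∧ (1 ≤ e ∧ e ≤ R)) ∧ e ∣ q / q.gcd d := by
  unfold S1
  rw [mem_filter, mem_product, mem_Mod, mem_Icc]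

lemma gcd_facts {q d : ℕ} (hq : Squarefree q) :
    q.gcd d * (q / q.gcd d) = q ∧ (q.gcd d).Coprime (q / q.gcd d) ∧ (q / q.gcd d).Coprime d := by
  have h1 : q.gcd d ∣ q := Nat.gcd_dvd_left q d
  have h2 : q.gcd d * (q / q.gcd d) = q := Nat.mul_div_cancel' h1
  have h3 : Squarefree (q.gcd d * (q / q.gcd d)) := by rw [h2]; exact hq
  have h4 : (q.gcd d).Coprime (q / q.gcd d) := Nat.coprime_of_squarefree_mul h3
  have h6 : (q / q.gcd d).gcd d ∣ q.gcd d :=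
    Nat.dvd_gcd ((Nat.gcd_dvd_left _ _).trans (Nat.div_dvd_of_dvd h1)) (Nat.gcd_dvd_right _ _)
  exact ⟨h2, h4, Nat.eq_one_of_dvd_coprimes h4 h6 (Nat.gcd_dvd_left _ _)⟩

lemma ph_mul {m n : ℕ} (h : m.Coprime n) : ph (m * n) = ph m * ph n := by
  unfold ph
  rw [Nat.totient_mul h]
  push_cast
  rfl

lemma triple_gcd {d g r e : ℕ} (hd : Squarefree d) (hg : g ∣ d) (hr : r.Coprime d)
    (he : e.Coprime (d * r)) :
    (g * r * e).gcd d = g ∧ g.Coprime r ∧ g.Coprime e ∧ r.Coprime e ∧ e.Coprime d := by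
  obtain ⟨h1, h2⟩ := Nat.coprime_mul_iff_right.1 he
  have hgr : g.Coprime r := (Nat.Coprime.coprime_dvd_right hg hr).symm
  have hge : g.Coprime e := (Nat.Coprime.coprime_dvd_right hg h1).symm
  refine ⟨?_, hgr, hge, h2.symm, h1⟩
  have h3 : (r * e).Coprime d := Nat.Coprime.mul_left hr h1
  have h4 : (g * r * e).gcd d = g.gcd d := by
    rw [mul_assoc]
    exact Nat.Coprime.gcd_mul_right_cancel g h3
  rw [h4]
  exact Nat.gcd_eq_left hg

lemma sum_bij_S (Q R d : ℕ) (hd : Squarefree d) (y : ℕ) :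
    ∑ x ∈ S2 Q R d, mu x.1 * (1 / ph x.2.1) * (mu x.2.2 / ph x.2.2 * ((y % x.2.2 : ℕ) : ℝ)) =
    ∑ x ∈ S1 Q R d, mu x.1 / ph x.1 * ph (x.1.gcd d) *
      (mu (x.1 / x.1.gcd d / x.2) * ((y % x.2 : ℕ) : ℝ)) := by
  refine sum_bij' (fun x _ => (x.1 * x.2.1 * x.2.2, x.2.2))
    (fun x _ => (x.1.gcd d, x.1 / x.1.gcd d / x.2, x.2)) ?_ ?_ ?_ ?_ ?_
  · rintro ⟨g, r, e⟩ hx
    obtain ⟨⟨⟨h1, h2⟩, ⟨h3, h4⟩, h5, h6⟩, ⟨h7, h8, h9, h10⟩, h11, h12⟩ := mem_S2.1 hx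
    obtain ⟨k1, k2, k3, k4, k5⟩ := triple_gcd hd h1 h9 h10
    have hg0 : 0 < g := Nat.pos_of_dvd_of_pos h1 (by omega)
    simp only
    rw [mem_S1]
    refine ⟨⟨⟨⟨h11, h12⟩, ?_⟩, h5, h6⟩, ?_⟩
    · rw [Nat.squarefree_mul (Nat.Coprime.mul_left k3 k4), Nat.squarefree_mul k2]
      exact ⟨⟨hd.squarefree_of_dvd h1, h7⟩, h8⟩
    · rw [k1, mul_assoc, Nat.mul_div_cancel_left _ hg0]
      exact Dvd.intro_left r rfl
  · rintro ⟨q, e⟩ hx
    obtain ⟨⟨⟨⟨h1, h2⟩, h3⟩, h4, h5⟩, h6⟩ := mem_S1.1 hx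
    obtain ⟨k1, k2, k3⟩ := gcd_facts (d := d) h3
    have hd0 : 0 < d := Nat.pos_of_ne_zero hd.ne_zero
    have hq0 : 0 < q := by omega
    have hgp : 0 < q.gcd d := Nat.gcd_pos_of_pos_right q hd0
    set g := q.gcd d with hg
    set q' := q / g with hq'
    have hq'0 : 0 < q' := Nat.div_pos (Nat.le_of_dvd hq0 (Nat.gcd_dvd_left q d)) hgp
    have k4 : e * (q' / e) = q' := Nat.mul_div_cancel' h6
    have hsq' : Squarefree q' := h3.squarefree_of_dvd (Nat.div_dvd_of_dvd (Nat.gcd_dvd_left q d))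
    have k5 : e.Coprime (q' / e) := Nat.coprime_of_squarefree_mul (by rw [k4]; exact hsq')
    have k6 : g * (q' / e) * e = q := by
      calc g * (q' / e) * e = g * (e * (q' / e)) := by ring
        _ = q := by rw [k4, k1]
    simp only
    rw [mem_S2]
    refine ⟨⟨⟨Nat.gcd_dvd_right q d, by omega⟩, ⟨?_, ?_⟩, h4, h5⟩, ⟨?_, ?_, ?_, ?_⟩, ?_, ?_⟩
    · exact Nat.div_pos (Nat.le_of_dvd hq'0 h6) h4
    · exact ((Nat.div_le_self _ _).trans (Nat.div_le_self _ _)).trans h2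
    · exact hsq'.squarefree_of_dvd (Nat.div_dvd_of_dvd h6)
    · exact hsq'.squarefree_of_dvd h6
    · exact Nat.Coprime.coprime_dvd_left (Nat.div_dvd_of_dvd h6) k3
    · rw [Nat.coprime_mul_iff_right]
      exact ⟨Nat.Coprime.coprime_dvd_left h6 k3, k5⟩
    · rw [k6]; exact h1
    · rw [k6]; exact h2
  · rintro ⟨g, r, e⟩ hx
    obtain ⟨⟨⟨h1, h2⟩, ⟨h3, h4⟩, h5, h6⟩, ⟨h7, h8, h9, h10⟩, h11, h12⟩ := mem_S2.1 hx
    obtain ⟨k1, k2, k3, k4, k5⟩ := triple_gcd hd h1 h9 h10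
    have hg0 : 0 < g := Nat.pos_of_dvd_of_pos h1 (by omega)
    simp only
    rw [k1, mul_assoc, Nat.mul_div_cancel_left _ hg0, Nat.mul_div_cancel _ (by omega)]
  · rintro ⟨q, e⟩ hx
    obtain ⟨⟨⟨⟨h1, h2⟩, h3⟩, h4, h5⟩, h6⟩ := mem_S1.1 hx
    obtain ⟨k1, k2, k3⟩ := gcd_facts (d := d) h3
    simp only
    have k4 : e * (q / q.gcd d / e) = q / q.gcd d := Nat.mul_div_cancel' h6
    have k6 : q.gcd d * (q / q.gcd d / e) * e = q := by
      calc q.gcd d * (q / q.gcd d / e) * e = q.gcd d * (e * (q / q.gcd d / e)) := by ring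
        _ = q := by rw [k4, k1]
    rw [k6]
  · rintro ⟨g, r, e⟩ hx
    obtain ⟨⟨⟨h1, h2⟩, ⟨h3, h4⟩, h5, h6⟩, ⟨h7, h8, h9, h10⟩, h11, h12⟩ := mem_S2.1 hx
    obtain ⟨k1, k2, k3, k4, k5⟩ := triple_gcd hd h1 h9 h10
    have hg0 : 0 < g := Nat.pos_of_dvd_of_pos h1 (by omega)
    simp only
    rw [k1, mul_assoc g r e, Nat.mul_div_cancel_left _ hg0, Nat.mul_div_cancel _ (by omega : 0 < e),
      mu_mul (Nat.Coprime.mul_right k2 k3), mu_mul k4, ph_mul (Nat.Coprime.mul_right k2 k3),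
      ph_mul k4]
    have e1 := mu_sq h7
    have p1 := (ph_pos hg0).ne'
    have p2 := (ph_pos h3).ne'
    have p3 := (ph_pos h5).ne'
    have e2 : mu g * (mu r * mu e) / (ph g * (ph r * ph e)) * ph g *
        (mu r * ((y % e : ℕ) : ℝ)) = mu g * (mu r ^ 2) * mu e * ((y % e : ℕ) : ℝ) /
          (ph r * ph e) := by
      field_simp
    rw [e2, e1]
    field_simp

lemma Err_eq (Q R d y : ℕ) (hd : Squarefree d) : Err Q R d y =
    ∑ q ∈ H343.Mod Q R, mu q / ph q * ph (q.gcd d) *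
      ∑ e ∈ (q / q.gcd d).divisors, mu (q / q.gcd d / e) * ((y % e : ℕ) : ℝ) := by
  have hd0 : 0 < d := Nat.pos_of_ne_zero hd.ne_zero
  have h1 : ∑ q ∈ H343.Mod Q R, mu q / ph q * ph (q.gcd d) *
      ∑ e ∈ (q / q.gcd d).divisors, mu (q / q.gcd d / e) * ((y % e : ℕ) : ℝ) =
      ∑ x ∈ S1 Q R d, mu x.1 / ph x.1 * ph (x.1.gcd d) *
      (mu (x.1 / x.1.gcd d / x.2) * ((y % x.2 : ℕ) : ℝ)) := by
    unfold S1
    rw [sum_filter, sum_product]
    refine sum_congr rfl fun q hq => ?_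
    have hq1 := mem_Mod_one hq
    have hq2 := (mem_Mod.1 hq).1.2
    have hg : q.gcd d ∣ q := Nat.gcd_dvd_left q d
    have hq' : 0 < q / q.gcd d := Nat.div_pos (Nat.le_of_dvd hq1 hg) (Nat.gcd_pos_of_pos_left d hq1)
    simp only
    rw [mul_sum, ← sum_filter]
    apply sum_congr _ fun _ _ => rfl
    ext e
    rw [Nat.mem_divisors, mem_filter, mem_Icc]
    constructor
    · rintro ⟨h2, h3⟩
      exact ⟨⟨Nat.pos_of_dvd_of_pos h2 hq', (Nat.le_of_dvd hq' h2).trans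
        ((Nat.div_le_self _ _).trans hq2)⟩, h2⟩
    · rintro ⟨_, h2⟩
      exact ⟨h2, by omega⟩
  rw [h1, ← sum_bij_S Q R d hd y]
  unfold Err S2
  rw [sum_filter, sum_product]
  refine sum_congr rfl fun g hg => ?_
  rw [Nat.mem_divisors] at hg
  have hg0 : 0 < g := Nat.pos_of_dvd_of_pos hg.1 hd0
  rw [sum_product, sum_filter]
  refine sum_congr rfl fun r hr => ?_
  rw [mem_Icc] at hr
  by_cases h2 : Squarefree r ∧ r.Coprime d
  · rw [if_pos h2, mul_sum]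
    have hgr : 0 < g * r := Nat.mul_pos hg0 hr.1
    have hsub : Ioc (Q / (g * r)) (R / (g * r)) ⊆ Icc 1 R := by
      intro e he
      rw [mem_Ioc] at he
      rw [mem_Icc]
      exact ⟨Nat.lt_of_le_of_lt (Nat.zero_le _) he.1, he.2.trans (Nat.div_le_self _ _)⟩
    have h3 : ∀ e ∈ Icc 1 R, (if (Squarefree r ∧ Squarefree e ∧ r.Coprime d ∧
        e.Coprime (d * r)) ∧ Q < g * r * e ∧ g * r * e ≤ R then
          mu g * (1 / ph r) * (mu e / ph e * ((y % e : ℕ) : ℝ)) else 0) =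
        if e ∈ Ioc (Q / (g * r)) (R / (g * r)) then mu g * (1 / ph r) * ge (d * r) y e else 0 := by
      intro e _
      have h4 : e ∈ Ioc (Q / (g * r)) (R / (g * r)) ↔ Q < g * r * e ∧ g * r * e ≤ R := by
        rw [mem_Ioc, Nat.div_lt_iff_lt_mul hgr, Nat.le_div_iff_mul_le hgr, mul_comm e (g * r)]
      by_cases h5 : Q < g * r * e ∧ g * r * e ≤ R
      · rw [if_pos (h4.2 h5)]
        unfold ge
        by_cases h6 : e.Coprime (d * r)
        · rw [if_pos h6]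
          by_cases h7 : Squarefree e
          · rw [if_pos ⟨⟨h2.1, h7, h2.2, h6⟩, h5⟩]
          · rw [if_neg (fun h => h7 h.1.2.1), mu_of_not_sq h7]
            ring
        · rw [if_neg h6, if_neg (fun h => h6 h.1.2.2.2), mul_zero]
      · rw [if_neg (fun h => h5 (h4.1 h)), if_neg (fun h => h5 h.2)]
    simp only
    rw [sum_congr rfl h3, ← sum_filter, filter_mem_eq_inter, inter_eq_right.2 hsub]
  · rw [if_neg h2]
    symm
    refine sum_eq_zero fun e _ => ?_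
    rw [if_neg]
    rintro ⟨⟨h3, _, h4, _⟩, _⟩
    exact h2 ⟨h3, h4⟩

/-- the mean over the multiples of `d` -/
theorem sum_ff_mult (Q R d y : ℕ) (hd : Squarefree d) :
    ∑ l ∈ Icc 1 y, ff Q R (d * l) =
      y * ∑ q ∈ (H343.Mod Q R).filter (fun q => q ∣ d), mu q - Err Q R d y := by
  have hd0 : 0 < d := Nat.pos_of_ne_zero hd.ne_zero
  unfold ff
  rw [sum_comm, Err_eq Q R d y hd, sum_filter, mul_sum, ← sum_sub_distrib]
  refine sum_congr rfl fun q hq => ?_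
  have hq1 := mem_Mod_one hq
  have hsq := (mem_Mod.1 hq).2
  have h1 : ∀ l ∈ Icc 1 y, mu q / ph q * cq q (d * l) =
      mu q / ph q * ph (q.gcd d) * cq (q / q.gcd d) l := by
    intro l _
    rw [cq_split hsq hd0]
    ring
  have hg : q.gcd d ∣ q := Nat.gcd_dvd_left q d
  have hq' : 0 < q / q.gcd d := Nat.div_pos (Nat.le_of_dvd hq1 hg) (Nat.gcd_pos_of_pos_left d hq1)
  rw [sum_congr rfl h1, ← mul_sum, sum_cq _ y hq', mul_sub]
  congr 1
  have h2 : q / q.gcd d = 1 ↔ q ∣ d := by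
    constructor
    · intro h
      have h3 := Nat.mul_div_cancel' hg
      rw [h, mul_one] at h3
      rw [← h3]
      exact Nat.gcd_dvd_right q d
    · intro h
      rw [Nat.gcd_eq_left h, Nat.div_self hq1]
  by_cases h3 : q ∣ d
  · rw [if_pos (h2.2 h3), if_pos h3, Nat.gcd_eq_left h3]
    have := (ph_pos hq1).ne'
    field_simp
  · rw [if_neg (fun h => h3 (h2.1 h)), if_neg h3]
    ring

end Pool.Agent.T9h55.VM
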