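import Pool.Agent.T9h55.VM.Divisors
import Pool.Agent.T9h55.VM.Corr

/-!
Ramanujan sums and truncated Ramanujan expansions.
-/

open Finset

namespace Pool.Agent.T9h55.VM

open H343 H343.Gauss

/-- Ramanujan sum -/
noncomputable def cq (q m : ℕ) : ℝ := ∑ d ∈ q.divisors, if d ∣ m then (d : ℝ) * mu (q / d) else 0

/-- truncated Ramanujan expansion: moduli in `(Q, R]` -/
noncomputable def ff (Q R m : ℕ) : ℝ := ∑ q ∈ H343.Mod Q R, mu q / ph q * cq q m

lemma mem_Mod {Q R q : ℕ} : q ∈ H343.Mod Q R ↔ (Q < q ∧ q ≤ R) ∧ Squarefree q := by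
  unfold H343.Mod
  rw [mem_filter, mem_Ioc]

lemma mem_Mod_one {Q R q : ℕ} (h : q ∈ H343.Mod Q R) : 1 ≤ q := by
  have := (mem_Mod.1 h).1.1
  omega

lemma cq_one (m : ℕ) : cq 1 m = 1 := by
  simp [cq, mu_one]

/-- the multiplicative function `d ↦ d` on the divisors of `m` -/
noncomputable def Fm (m : ℕ) : ArithmeticFunction ℝ :=
  ⟨fun d => if d ∣ m then (d : ℝ) else 0, by simp⟩

lemma Fm_apply (m d : ℕ) : Fm m d = if d ∣ m then (d : ℝ) else 0 := rfl

lemma Fm_mult (m : ℕ) : (Fm m).IsMultiplicative := by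
  constructor
  · simp [Fm_apply]
  · intro a b hab
    rw [Fm_apply, Fm_apply, Fm_apply]
    by_cases h1 : a ∣ m
    · by_cases h2 : b ∣ m
      · rw [if_pos h1, if_pos h2, if_pos (hab.mul_dvd_of_dvd_of_dvd h1 h2)]
        push_cast
        rfl
      · rw [if_neg h2, if_neg (fun h => h2 ((Dvd.intro_left a rfl).trans h)), mul_zero]
    · rw [if_neg h1, if_neg (fun h => h1 ((Dvd.intro b rfl).trans h)), zero_mul]

lemma cq_conv (q m : ℕ) :
    cq q m = (Fm m * ((ArithmeticFunction.moebius : ArithmeticFunction ℤ) :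
      ArithmeticFunction ℝ)) q := by
  rw [ArithmeticFunction.mul_apply,
    Nat.sum_divisorsAntidiagonal (fun a b => Fm m a *
      ((ArithmeticFunction.moebius : ArithmeticFunction ℤ) : ArithmeticFunction ℝ) b)]
  unfold cq
  refine sum_congr rfl fun d _ => ?_
  rw [Fm_apply, ArithmeticFunction.intCoe_apply]
  unfold mu
  split_ifs <;> simp

lemma cq_mul {q r : ℕ} (h : q.Coprime r) (m : ℕ) : cq (q * r) m = cq q m * cq r m := by
  rw [cq_conv, cq_conv, cq_conv]
  exact ((Fm_mult m).mul ArithmeticFunction.isMultiplicative_moebius.intCast).map_mul_of_coprime h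

lemma cq_of_dvd {q m : ℕ} (hq : 1 ≤ q) (h : q ∣ m) : cq q m = ph q := by
  unfold cq ph
  rw [← H343.sum_moebius_div q hq,
    ← Nat.sum_div_divisors q (fun d => ((ArithmeticFunction.moebius d : ℤ) : ℝ) * ((q : ℝ) / d))]
  refine sum_congr rfl fun d hd => ?_
  rw [Nat.mem_divisors] at hd
  rw [if_pos (hd.1.trans h)]
  have hd0 : (d : ℝ) ≠ 0 := by
    have : 0 < d := Nat.pos_of_dvd_of_pos hd.1 hq
    positivity
  have hq0 : (q : ℝ) ≠ 0 := by positivity
  rw [Nat.cast_div hd.1 hd0]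
  unfold mu
  field_simp

lemma cq_mul_left {q d : ℕ} (h : q.Coprime d) (l : ℕ) : cq q (d * l) = cq q l := by
  unfold cq
  refine sum_congr rfl fun e he => ?_
  rw [Nat.mem_divisors] at he
  have h1 : e ∣ d * l ↔ e ∣ l := by
    constructor
    · intro h2
      exact (Nat.Coprime.coprime_dvd_left he.1 h).dvd_of_dvd_mul_left h2
    · intro h2
      exact h2.mul_left d
  simp only [h1]

lemma cq_split {q d : ℕ} (hq : Squarefree q) (hd : 1 ≤ d) (l : ℕ) :
    cq q (d * l) = ph (q.gcd d) * cq (q / q.gcd d) l := by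
  have h1 : q.gcd d ∣ q := Nat.gcd_dvd_left q d
  have h2 : q.gcd d * (q / q.gcd d) = q := Nat.mul_div_cancel' h1
  have h3 : Squarefree (q.gcd d * (q / q.gcd d)) := by rw [h2]; exact hq
  have h4 : (q.gcd d).Coprime (q / q.gcd d) := Nat.coprime_of_squarefree_mul h3
  have h5 : (q / q.gcd d).Coprime d := by
    have h6 : (q / q.gcd d).gcd d ∣ q.gcd d :=
      Nat.dvd_gcd ((Nat.gcd_dvd_left _ _).trans (Nat.div_dvd_of_dvd h1)) (Nat.gcd_dvd_right _ _)
    exact Nat.eq_one_of_dvd_coprimes h4 h6 (Nat.gcd_dvd_left _ _)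
  have h7 : cq (q.gcd d) (d * l) = ph (q.gcd d) :=
    cq_of_dvd (Nat.gcd_pos_of_pos_right q hd) ((Nat.gcd_dvd_right q d).mul_right l)
  have h8 := cq_mul h4 (d * l)
  rw [h2] at h8
  rw [h8, h7, cq_mul_left h5]

lemma sum_mu_div (q : ℕ) (hq : 1 ≤ q) : ∑ e ∈ q.divisors, mu (q / e) = if q = 1 then 1 else 0 := by
  rw [Nat.sum_div_divisors q mu]
  have h := H343.sum_moebius q
  unfold mu
  rw [← Int.cast_sum, h]
  push_cast
  rfl

lemma sum_cq (q y : ℕ) (hq : 1 ≤ q) : ∑ l ∈ Icc 1 y, cq q l =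
    (if q = 1 then (y : ℝ) else 0) - ∑ e ∈ q.divisors, mu (q / e) * ((y % e : ℕ) : ℝ) := by
  unfold cq
  rw [sum_comm]
  have h1 : ∀ e ∈ q.divisors, ∑ l ∈ Icc 1 y, (if e ∣ l then (e : ℝ) * mu (q / e) else 0) =
      mu (q / e) * y - mu (q / e) * ((y % e : ℕ) : ℝ) := by
    intro e he
    rw [Nat.mem_divisors] at he
    have he1 : 1 ≤ e := Nat.pos_of_dvd_of_pos he.1 hq
    rw [← sum_filter, sum_mult e y he1 (fun _ => (e : ℝ) * mu (q / e)), sum_const, Nat.card_Icc,
      Nat.add_sub_cancel, nsmul_eq_mul]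
    have h2 : ((y % e : ℕ) : ℝ) + (e : ℝ) * ((y / e : ℕ) : ℝ) = y := by
      exact_mod_cast Nat.mod_add_div y e
    have h3 : (e : ℝ) * ((y / e : ℕ) : ℝ) = y - ((y % e : ℕ) : ℝ) := by linarith
    calc ((y / e : ℕ) : ℝ) * ((e : ℝ) * mu (q / e)) =
        mu (q / e) * ((e : ℝ) * ((y / e : ℕ) : ℝ)) := by ring
      _ = _ := by rw [h3]; ring
  rw [sum_congr rfl h1, sum_sub_distrib, ← sum_mul, sum_mu_div q hq]
  split_ifs <;> ring

/-- divisor weights of the truncated expansion -/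
noncomputable def lam (Q R d : ℕ) : ℝ :=
  (d : ℝ) * ∑ q ∈ (H343.Mod Q R).filter (fun q => d ∣ q), mu q / ph q * mu (q / d)

lemma ff_eq (Q R m : ℕ) : ff Q R m = ∑ d ∈ (Icc 1 R).filter (fun d => d ∣ m), lam Q R d := by
  unfold ff cq lam
  simp only [mul_sum]
  rw [sum_filter]
  have h1 : ∀ d ∈ Icc 1 R, (if d ∣ m then
      ∑ q ∈ (H343.Mod Q R).filter (fun q => d ∣ q), (d : ℝ) * (mu q / ph q * mu (q / d)) else 0) =
      ∑ q ∈ (H343.Mod Q R).filter (fun q => d ∣ q),
        mu q / ph q * (if d ∣ m then (d : ℝ) * mu (q / d) else 0) := by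
    intro d _
    split_ifs with h
    · refine sum_congr rfl fun q _ => by ring
    · simp
  rw [sum_congr rfl h1]
  apply sum_comm'
  intro q d
  rw [Nat.mem_divisors, mem_filter, mem_Icc]
  constructor
  · rintro ⟨h2, h3, h4⟩
    have h5 := mem_Mod.1 h2
    exact ⟨⟨h2, h3⟩, Nat.pos_of_dvd_of_pos h3 (by omega), (Nat.le_of_dvd (by omega) h3).trans h5.1.2⟩
  · rintro ⟨⟨h2, h3⟩, h4⟩
    have h5 := mem_Mod.1 h2
    exact ⟨h2, h3, by omega⟩

lemma lam_of_not_sq {Q R d : ℕ} (h : ¬ Squarefree d) : lam Q R d = 0 := by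
  unfold lam
  rw [filter_false_of_mem, sum_empty, mul_zero]
  intro q hq hd
  exact h ((mem_Mod.1 hq).2.squarefree_of_dvd hd)

lemma lam_abs (Q R d : ℕ) (hd : 1 ≤ d) : |lam Q R d| ≤ tau d * (1 + Real.log R) ^ 2 := by
  have hd0 : (0 : ℝ) < d := by exact_mod_cast hd
  unfold lam
  rw [abs_mul, abs_of_pos hd0]
  have h1 : |∑ q ∈ (H343.Mod Q R).filter (fun q => d ∣ q), mu q / ph q * mu (q / d)| ≤
      ∑ j ∈ Icc 1 (R / d), 1 / ph (d * j) := by
    rw [← sum_mult d R hd (fun q => 1 / ph q)]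
    refine (abs_sum_le_sum_abs _ _).trans ?_
    refine (sum_le_sum (g := fun q => 1 / ph q) fun q hq => ?_).trans ?_
    · rw [mem_filter] at hq
      have h2 := ph_pos (mem_Mod_one hq.1)
      rw [abs_mul, abs_div, abs_of_pos h2]
      calc |mu q| / ph q * |mu (q / d)| ≤ 1 / ph q * 1 := by
            apply mul_le_mul _ (mu_abs _) (abs_nonneg _) (by positivity)
            exact div_le_div_of_nonneg_right (mu_abs q) h2.le
        _ = 1 / ph q := mul_one _
    · apply sum_le_sum_of_subset_of_nonneg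
      · intro q hq
        rw [mem_filter] at hq
        have h2 := mem_Mod.1 hq.1
        rw [mem_filter, mem_Icc]
        exact ⟨⟨by omega, h2.1.2⟩, hq.2⟩
      · intro q _ _
        exact div_nonneg zero_le_one (ph_nonneg q)
  have h2 : ∑ j ∈ Icc 1 (R / d), 1 / ph (d * j) ≤ 1 / ph d * (1 + Real.log R) ^ 2 := by
    refine le_trans ?_ (mul_le_mul_of_nonneg_left (sum_inv_ph R)
      (div_nonneg zero_le_one (ph_nonneg d)))
    rw [mul_sum]
    refine (sum_le_sum (g := fun j => 1 / ph d * (1 / ph j)) fun j hj => ?_).trans ?_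
    · rw [mem_Icc] at hj
      rw [div_mul_div_comm, one_mul]
      apply div_le_div_of_nonneg_left (by norm_num) (mul_pos (ph_pos hd) (ph_pos hj.1))
        (ph_mul_le d j)
    · apply sum_le_sum_of_subset_of_nonneg
      · intro j hj
        rw [mem_Icc] at hj ⊢
        exact ⟨hj.1, hj.2.trans (Nat.div_le_self _ _)⟩
      · intro j _ _
        exact mul_nonneg (div_nonneg zero_le_one (ph_nonneg d)) (div_nonneg zero_le_one (ph_nonneg j))
  calc (d : ℝ) * |∑ q ∈ (H343.Mod Q R).filter (fun q => d ∣ q), mu q / ph q * mu (q / d)|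
      ≤ d * (1 / ph d * (1 + Real.log R) ^ 2) :=
        mul_le_mul_of_nonneg_left (h1.trans h2) hd0.le
    _ = (d / ph d) * (1 + Real.log R) ^ 2 := by ring
    _ ≤ tau d * (1 + Real.log R) ^ 2 :=
        mul_le_mul_of_nonneg_right (div_ph_le hd) (sq_nonneg _)

/-- pointwise bound of the truncated expansion -/
lemma ff_abs (Q R m : ℕ) (hm : 1 ≤ m) : |ff Q R m| ≤ tau m ^ 2 * (1 + Real.log R) ^ 2 := by
  rw [ff_eq]
  refine (abs_sum_le_sum_abs _ _).trans ?_
  have h0 : 0 ≤ (1 + Real.log R) ^ 2 := sq_nonneg _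
  refine (sum_le_sum (g := fun _ => tau m * (1 + Real.log R) ^ 2) fun d hd => ?_).trans ?_
  · rw [mem_filter, mem_Icc] at hd
    refine (lam_abs Q R d hd.1.1).trans ?_
    apply mul_le_mul_of_nonneg_right _ h0
    unfold tau
    exact_mod_cast card_le_card (Nat.divisors_subset_of_dvd (by omega) hd.2)
  · rw [sum_const, nsmul_eq_mul]
    have h1 : (((Icc 1 R).filter (fun d => d ∣ m)).card : ℝ) ≤ tau m := by
      unfold tau
      have : (Icc 1 R).filter (fun d => d ∣ m) ⊆ m.divisors := by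
        intro d hd
        rw [mem_filter] at hd
        rw [Nat.mem_divisors]
        exact ⟨hd.2, by omega⟩
      exact_mod_cast card_le_card this
    calc (((Icc 1 R).filter (fun d => d ∣ m)).card : ℝ) * (tau m * (1 + Real.log R) ^ 2)
        ≤ tau m * (tau m * (1 + Real.log R) ^ 2) :=
          mul_le_mul_of_nonneg_right h1 (mul_nonneg (tau_nonneg m) h0)
      _ = tau m ^ 2 * (1 + Real.log R) ^ 2 := by ring

/-- the Ramanujan sum at an argument prime to the modulus -/
lemma cq_coprime {q m : ℕ} (hq : 1 ≤ q) (h : m.Coprime q) : cq q m = mu q := by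
  unfold cq
  rw [sum_eq_single 1]
  · simp
  · intro d hd hd1
    rw [Nat.mem_divisors] at hd
    rw [if_neg]
    intro h1
    exact hd1 (Nat.eq_one_of_dvd_coprimes h h1 hd.1)
  · intro h1
    exact absurd (Nat.one_mem_divisors.2 (by omega)) h1

lemma ff_prime (Q R p : ℕ) (hp : p.Prime) (hpR : R < p) : ff Q R p = H343.LL Q R := by
  unfold ff H343.LL
  refine sum_congr rfl fun q hq => ?_
  have h1 := mem_Mod.1 hq
  have h2 : p.Coprime q := by
    rw [Nat.Prime.coprime_iff_not_dvd hp]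
    intro h3
    have := Nat.le_of_dvd (by omega) h3
    omega
  rw [cq_coprime (mem_Mod_one hq) h2]
  have h3 := mu_sq h1.2
  calc mu q / ph q * mu q = mu q ^ 2 / ph q := by ring
    _ = 1 / (Nat.totient q : ℝ) := by rw [h3]; rfl

/-- Ramanujan sums as exponential sums -/
lemma cq_exp (q m : ℕ) (hq : 1 ≤ q) :
    ∑ b ∈ (range q).filter (fun b => b.Coprime q), ex ((b : ℝ) * m / q) = (cq q m : ℂ) := by
  have h := H336V.RamanAux.raman_eq q hq (m : ℤ)
  push_cast at h
  rw [h]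
  unfold cq
  rw [← Nat.sum_div_divisors q (fun d => if d ∣ m then (d : ℝ) * mu (q / d) else 0)]
  push_cast
  refine sum_congr rfl fun d hd => ?_
  rw [Nat.mem_divisors] at hd
  have h1 : q / (q / d) = d := Nat.div_div_self hd.1 (by omega)
  rw [h1]
  have h2 : ((q / d : ℕ) : ℤ) ∣ (m : ℤ) ↔ (q / d) ∣ m := Int.natCast_dvd_natCast
  simp only [Nat.cast_div_charZero hd.1] at *
  by_cases h3 : q / d ∣ m
  · rw [if_pos h3]
    rw [if_pos]
    · unfold mu
      push_cast
      ring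
    · have := h2.2 h3
      push_cast at this
      exact this
  · rw [if_neg h3, if_neg, mul_zero]
    · simp
    · intro h4
      apply h3
      apply h2.1
      push_cast
      exact h4

end Pool.Agent.T9h55.VM
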