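import Pool.Agent.T9h55.VM.Main
import Pool.Agent.Y854.GM.Lim

/-!
Every large member of a thin sequence of moduli.
-/

set_option autoImplicit false

open Finset

namespace Pool.Agent.T9h55.VM

open Classical in
/-- from dyadic counts to counts up to `X` -/
lemma cum_exp (P : Set ℕ) {s : ℝ} (hs : 0 < s) (K0 : ℕ)
    (h : ∀ K : ℕ, K0 ≤ K → (((Ioc K (2 * K)).filter (fun t => t ∈ P)).card : ℝ) ≤ (K : ℝ) ^ s) :
    ∃ C : ℝ, 0 ≤ C ∧ ∀ X : ℕ, (((Ioc 0 X).filter (fun t => t ∈ P)).card : ℝ) ≤ C * (X : ℝ) ^ s := by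
  set a : ℝ := (2 : ℝ) ^ (-s) with ha
  have ha0 : 0 < a := by positivity
  have ha1 : a < 1 := by
    rw [ha]
    exact Real.rpow_lt_one_of_one_lt_of_neg (by norm_num) (by linarith)
  set C : ℝ := 2 * K0 + 2 + 2 / (1 - a) with hC
  have h1a : 0 < 1 - a := by linarith
  have hdiv : 0 < 2 / (1 - a) := by positivity
  have hK00 : (0 : ℝ) ≤ K0 := Nat.cast_nonneg _
  have hC0 : 0 ≤ C := by positivity
  refine ⟨C, hC0, fun X => ?_⟩
  induction X using Nat.strong_induction_on with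
  | _ X ih =>
    rcases Nat.eq_zero_or_pos X with rfl | hX
    · simp only [Ioc_self, filter_empty, card_empty, Nat.cast_zero]
      positivity
    have hXp : (1 : ℝ) ≤ X := by exact_mod_cast hX
    have hXs : 1 ≤ (X : ℝ) ^ s := Real.one_le_rpow hXp hs.le
    rcases lt_or_ge X (2 * K0 + 2) with hsm | hbig
    · have h1 : (((Ioc 0 X).filter (fun t => t ∈ P)).card : ℝ) ≤ X := by
        have h3 := Finset.card_filter_le (Ioc 0 X) (fun t => t ∈ P)
        rw [Nat.card_Ioc, Nat.sub_zero] at h3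
        exact_mod_cast h3
      have h2 : (X : ℝ) ≤ C := by
        have h3 : ((X : ℕ) : ℝ) ≤ ((2 * K0 + 2 : ℕ) : ℝ) := by exact_mod_cast hsm.le
        push_cast at h3
        linarith
      calc (((Ioc 0 X).filter (fun t => t ∈ P)).card : ℝ) ≤ C * 1 := by linarith
        _ ≤ C * (X : ℝ) ^ s := mul_le_mul_of_nonneg_left hXs hC0
    · set K := X / 2 with hK
      have hKX : K < X := by omega
      have hK0 : K0 ≤ K := by omega
      have hK1 : 1 ≤ K := by omega
      have hKp : (1 : ℝ) ≤ K := by exact_mod_cast hK1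
      have hsub : (Ioc 0 X).filter (fun t => t ∈ P) ⊆
          ((Ioc 0 K).filter (fun t => t ∈ P) ∪ (Ioc K (2 * K)).filter (fun t => t ∈ P)) ∪ {X} := by
        intro t ht
        rw [mem_filter, mem_Ioc] at ht
        simp only [mem_union, mem_filter, mem_Ioc, mem_singleton]
        by_cases h1 : t ≤ K
        · exact Or.inl (Or.inl ⟨⟨ht.1.1, h1⟩, ht.2⟩)
        · by_cases h2 : t ≤ 2 * K
          · exact Or.inl (Or.inr ⟨⟨by omega, h2⟩, ht.2⟩)
          · right
            omega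
      have h1 : (((Ioc 0 X).filter (fun t => t ∈ P)).card : ℝ) ≤
          ((Ioc 0 K).filter (fun t => t ∈ P)).card +
            ((Ioc K (2 * K)).filter (fun t => t ∈ P)).card + 1 := by
        have h2 := (card_le_card hsub).trans (card_union_le _ _)
        rw [card_singleton] at h2
        have h3 := card_union_le ((Ioc 0 K).filter (fun t => t ∈ P))
          ((Ioc K (2 * K)).filter (fun t => t ∈ P))
        exact_mod_cast h2.trans (Nat.add_le_add_right h3 1)
      have h2 := ih K hKX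
      have h3 := h K hK0
      have h5 : (K : ℝ) ^ s ≤ a * (X : ℝ) ^ s := by
        have h6 : (K : ℝ) ≤ 2⁻¹ * X := by
          have : 2 * K ≤ X := by omega
          have h7 : ((2 * K : ℕ) : ℝ) ≤ X := by exact_mod_cast this
          push_cast at h7
          linarith
        calc (K : ℝ) ^ s ≤ (2⁻¹ * (X : ℝ)) ^ s := Real.rpow_le_rpow (by linarith) h6 (by linarith)
          _ = a * (X : ℝ) ^ s := by
              rw [ha, Real.mul_rpow (by norm_num) (by linarith), Real.inv_rpow (by norm_num),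
                ← Real.rpow_neg (by norm_num)]
      have h8 : (C + 1) * a + 1 ≤ C := by
        have h9 : 2 ≤ C * (1 - a) := by
          have h10 : 2 / (1 - a) ≤ C := by rw [hC]; linarith
          rwa [div_le_iff₀ h1a] at h10
        linarith
      have hP0 : 0 ≤ (X : ℝ) ^ s := by positivity
      calc (((Ioc 0 X).filter (fun t => t ∈ P)).card : ℝ)
          ≤ C * (K : ℝ) ^ s + (K : ℝ) ^ s + 1 := by linarith
        _ = (C + 1) * (K : ℝ) ^ s + 1 := by ring
        _ ≤ (C + 1) * (a * (X : ℝ) ^ s) + (X : ℝ) ^ s := by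
            have := mul_le_mul_of_nonneg_left h5 (by linarith : 0 ≤ C + 1)
            linarith
        _ = ((C + 1) * a + 1) * (X : ℝ) ^ s := by ring
        _ ≤ C * (X : ℝ) ^ s := mul_le_mul_of_nonneg_right h8 hP0

theorem sparse (c ε : ℝ) (hc : 1 < c) (hε : 0 < ε) : ∃ E : Set ℝ, dimH E < 1 ∧
    ∀ α : ℝ, 0 < α → α ∉ E → ∃ n₀ : ℕ, ∀ n : ℕ, n₀ ≤ n → 1 ≤ ⌊α * (n : ℝ) ^ c⌋₊ ∧
      ∀ X : ℝ, (⌊α * (n : ℝ) ^ c⌋₊ : ℝ) ≤ X →
        X * ((2 - 1 / c) * Real.log ⌊α * (n : ℝ) ^ c⌋₊ - Real.log X - ε * Real.log X) ≤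
          GG X ⌊α * (n : ℝ) ^ c⌋₊ := by
  classical
  obtain ⟨κ, K₀, hκ, hmain⟩ := main ε hε
  have hc0 : 0 < c := by linarith
  set σ : ℝ := 1 - 1 / c with hσ
  have hσ0 : 0 < σ := by
    have : 1 / c < 1 := by
      rw [div_lt_one hc0]
      exact hc
    linarith
  have hσ1 : σ ≤ 1 := by
    have : 0 < 1 / c := by positivity
    linarith
  set s : ℝ := max (σ - κ) (σ / 2) with hs
  have hs0 : 0 < s := lt_of_lt_of_le (by positivity) (le_max_right _ _)
  have hsσ : s < σ := max_lt (by linarith) (by linarith)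
  set P : Set ℕ := {k : ℕ | ∃ X : ℝ, (k : ℝ) ≤ X ∧
    GG X k < X * ((1 + σ) * Real.log k - Real.log X - ε * Real.log X)} with hP
  have hdy : ∀ K : ℕ, max ⌈K₀⌉₊ 1 ≤ K →
      (((Ioc K (2 * K)).filter (fun t => t ∈ P)).card : ℝ) ≤ (K : ℝ) ^ s := by
    intro K hK
    have h1 : K₀ ≤ K := Nat.ceil_le.1 ((le_max_left _ _).trans hK)
    have h2 : (1 : ℝ) ≤ K := by exact_mod_cast (le_max_right _ _).trans hK
    refine (hmain K σ h1 hσ0.le hσ1).trans ?_
    exact Real.rpow_le_rpow_of_exponent_le h2 (le_max_left _ _)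
  obtain ⟨C, hC, hcum⟩ := cum_exp P hs0 _ hdy
  obtain ⟨E, hE, h⟩ := Pool.Agent.Y854.GM.finite_in c s hc hs0.le P C hC hcum
  refine ⟨E, lt_of_le_of_lt hE ?_, fun α hα hαE => ?_⟩
  · have : (1 : ENNReal) = ENNReal.ofReal 1 := by simp
    rw [this]
    exact (ENNReal.ofReal_lt_ofReal_iff (by norm_num)).mpr (by linarith)
  · obtain ⟨n₀, hn⟩ := h α hα hαE
    refine ⟨n₀, fun n hn1 => ?_⟩
    obtain ⟨h1, h2⟩ := hn n hn1
    refine ⟨h1, fun X hX => ?_⟩
    by_contra hcon
    push Not at hcon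
    apply h2
    refine ⟨X, hX, ?_⟩
    have : 1 + σ = 2 - 1 / c := by rw [hσ]; ring
    rw [this]
    exact hcon

end Pool.Agent.T9h55.VM
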